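import Pool.Agent.Lib.MP_65847d_pr.UpperAsymp

/-!
# Maximal conflict-free families of open sets, monotonicity in `p`
-/

set_option autoImplicit false
set_option linter.unusedSectionVars false

open Finset Filter Topology

namespace Pool.MP_65847d_pr

open Pool.MP_1bacea_co

section mono

variable {ι : Type*} [Fintype ι] [DecidableEq ι]

/-- thinning: keep every bit of `a` with probability `r` -/
theorem Ex_thin (p r : ℝ) (f : (ι → Bool) → ℝ) :
    Ex (p * r) f = Ex p fun a : ι → Bool => Ex r fun b : ι → Bool => f fun i => a i && b i := by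
  classical
  have hpt : ∀ ω : ι → Bool, Ex p (fun a : ι → Bool => Ex r fun b : ι → Bool =>
      if (fun i => a i && b i) = ω then (1 : ℝ) else 0) = wt (p * r) ω := by
    intro ω
    have h1 : ∀ a b : ι → Bool, (if (fun i => a i && b i) = ω then (1 : ℝ) else 0) =
        ∏ i, (if (a i && b i) = ω i then (1 : ℝ) else 0) := by
      intro a b
      by_cases h : (fun i => a i && b i) = ω
      · rw [if_pos h]
        symm
        apply prod_eq_one
        intro i _
        rw [if_pos (congrFun h i)]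
      · rw [if_neg h]
        have : ∃ i, ¬ (a i && b i) = ω i := by
          by_contra hcon
          push Not at hcon
          exact h (funext hcon)
        obtain ⟨i, hi⟩ := this
        symm
        apply prod_eq_zero (mem_univ i)
        rw [if_neg hi]
    have h2 : ∀ a : ι → Bool, Ex r (fun b : ι → Bool =>
        if (fun i => a i && b i) = ω then (1 : ℝ) else 0) =
        ∏ i, (r * (if (a i && true) = ω i then (1 : ℝ) else 0) +
          (1 - r) * (if (a i && false) = ω i then (1 : ℝ) else 0)) := by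
      intro a
      rw [← Ex_prod r fun i β => if (a i && β) = ω i then (1 : ℝ) else 0]
      congr 1
      funext b
      exact h1 a b
    simp_rw [h2]
    rw [Ex_prod p fun i α => (r * (if (α && true) = ω i then (1 : ℝ) else 0) +
          (1 - r) * (if (α && false) = ω i then (1 : ℝ) else 0))]
    unfold wt
    refine prod_congr rfl fun i _ => ?_
    cases hω : ω i
    · simp; ring
    · simp
  have hf : ∀ g : ι → Bool, f g = ∑ ω, f ω * (if g = ω then (1 : ℝ) else 0) := by
    intro g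
    simp
  calc Ex (p * r) f = ∑ ω, f ω * wt (p * r) ω := by
        unfold Ex
        exact sum_congr rfl fun ω _ => mul_comm _ _
    _ = ∑ ω, f ω * Ex p (fun a : ι → Bool => Ex r fun b : ι → Bool =>
      if (fun i => a i && b i) = ω then (1 : ℝ) else 0) := by
        exact sum_congr rfl fun ω _ => by rw [hpt ω]
    _ = Ex p (fun a : ι → Bool => ∑ ω, f ω * Ex r fun b : ι → Bool =>
      if (fun i => a i && b i) = ω then (1 : ℝ) else 0) := by
        rw [Ex_sum]
        exact sum_congr rfl fun ω _ => by rw [Ex_mul_left]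
    _ = _ := by
        congr 1
        funext a
        have : (fun b : ι → Bool => f fun i => a i && b i) = fun b : ι → Bool =>
            ∑ ω, f ω * (if (fun i => a i && b i) = ω then (1 : ℝ) else 0) := by
          funext b
          exact hf _
        rw [this, Ex_sum]
        exact sum_congr rfl fun ω _ => by rw [Ex_mul_left]

/-- the probability of a decreasing event decreases with `p` -/
theorem Pr_anti {p0 p : ℝ} (h0 : 0 ≤ p0) (hp : p0 ≤ p) (h1 : p ≤ 1) {A : (ι → Bool) → Prop}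
    (hA : ∀ ω ω' : ι → Bool, (∀ i, ω i = true → ω' i = true) → A ω' → A ω) :
    Pr p A ≤ Pr p0 A := by
  rcases h0.eq_or_lt with h | h
  · -- `p0 = 0`
    have e1 : p0 = p * 0 := by rw [← h]; ring
    unfold Pr
    rw [e1, Ex_thin p 0]
    refine Ex_mono (h0.trans hp) h1 fun a => ?_
    have h2 : Ex (ι := ι) 0 (fun _ => ind (A a)) ≤
        Ex 0 (fun b : ι → Bool => ind (A fun i => a i && b i)) := by
      refine Ex_mono le_rfl zero_le_one fun b => ind_mono fun hAa => hA _ a ?_ hAa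
      intro i hi
      simp only [Bool.and_eq_true] at hi
      exact hi.1
    rwa [Ex_const] at h2
  · have hppos : 0 < p := h.trans_le hp
    have e1 : p0 = p * (p0 / p) := by field_simp
    have hr0 : 0 ≤ p0 / p := by positivity
    have hr1 : p0 / p ≤ 1 := by rwa [div_le_one hppos]
    unfold Pr
    rw [e1, Ex_thin p (p0 / p)]
    refine Ex_mono (h0.trans hp) h1 fun a => ?_
    have h2 : Ex (ι := ι) (p0 / p) (fun _ => ind (A a)) ≤
        Ex (p0 / p) (fun b : ι → Bool => ind (A fun i => a i && b i)) := by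
      refine Ex_mono hr0 hr1 fun b => ind_mono fun hAa => hA _ a ?_ hAa
      intro i hi
      simp only [Bool.and_eq_true] at hi
      exact hi.1
    rwa [Ex_const] at h2

end mono

section maximal

variable {ι κ : Type*} [Fintype ι] [DecidableEq ι] [DecidableEq κ] {p : ℝ}

theorem Pr_and_indep (A B : (ι → Bool) → Prop) (I J : Set ι) (hIJ : Disjoint I J)
    (hA : ∀ ω ω' : ι → Bool, (∀ i ∈ I, ω i = ω' i) → (A ω ↔ A ω'))
    (hB : ∀ ω ω' : ι → Bool, (∀ i ∈ J, ω i = ω' i) → (B ω ↔ B ω')) :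
    Pr p (fun ω => A ω ∧ B ω) = Pr p A * Pr p B := by
  unfold Pr
  rw [← Ex_mul_of_disjoint p hIJ (f := fun ω => ind (A ω)) (g := fun ω => ind (B ω))
    (fun ω ω' h => by
      show ind (A ω) = ind (A ω')
      rw [show A ω = A ω' from propext (hA ω ω' h)])
    (fun ω ω' h => by
      show ind (B ω) = ind (B ω')
      rw [show B ω = B ω' from propext (hB ω ω' h)])]
  congr 1
  funext ω
  by_cases h : A ω
  · by_cases h' : B ω
    · rw [ind_true h, ind_true h', ind_true ⟨h, h'⟩]; ring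
    · rw [ind_true h, ind_false h', ind_false fun hc => h' hc.2]; ring
  · rw [ind_false h, ind_false fun hc => h hc.1]; ring

theorem Pr_maximal_le (h0 : 0 ≤ p) (h1 : p ≤ 1) (Ω : Finset κ) (E : κ → Finset ι)
    (R : κ → κ → Prop) (m : ℕ) (hE : ∀ a ∈ Ω, (E a).card = m)
    (hR : ∀ a ∈ Ω, ∀ b ∈ Ω, ¬ R a b → Disjoint (E a) (E b)) (k : ℕ) {δ : ℝ}
    (hδ0 : 0 ≤ δ) (hδ : ∀ F ⊆ Ω, F.card = k → Pr p (fun ω : ι → Bool => ∀ b ∈ Ω, (∀ a ∈ F, ¬ R a b) →
      ∃ e ∈ E b, ω e = false) ≤ δ) :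
    Pr p (fun ω : ι → Bool => ∃ F ∈ Ω.powersetCard k, (∀ a ∈ F, ∀ b ∈ F, a ≠ b → ¬ R a b) ∧
      (∀ a ∈ F, ∀ e ∈ E a, ω e = true) ∧ ∀ b ∈ Ω, (∀ a ∈ F, ¬ R a b) → ∃ e ∈ E b, ω e = false) ≤
    ((Ω.card : ℝ) * p ^ m) ^ k / (k.factorial : ℝ) * δ := by
  classical
  refine (Pr_exists_le h0 h1 _ _).trans ?_
  have hone : ∀ F ∈ Ω.powersetCard k, Pr p (fun ω : ι → Bool =>
      (∀ a ∈ F, ∀ b ∈ F, a ≠ b → ¬ R a b) ∧
      (∀ a ∈ F, ∀ e ∈ E a, ω e = true) ∧ ∀ b ∈ Ω, (∀ a ∈ F, ¬ R a b) → ∃ e ∈ E b, ω e = false) ≤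
      p ^ (m * k) * δ := by
    intro F hF
    rw [mem_powersetCard] at hF
    have hδF := hδ F hF.1 hF.2
    by_cases hpw : ∀ a ∈ F, ∀ b ∈ F, a ≠ b → ¬ R a b
    · have hdis : ∀ a ∈ F, ∀ b ∈ F, a ≠ b → Disjoint (E a) (E b) := fun a ha b hb hab =>
        hR a (hF.1 ha) b (hF.1 hb) (hpw a ha b hb hab)
      have hcard : (F.biUnion E).card = m * k := by
        rw [card_biUnion hdis, sum_congr rfl fun a ha => hE a (hF.1 ha), sum_const, hF.2,
          smul_eq_mul, mul_comm]
      have hon : Pr p (fun ω : ι → Bool => ∀ e ∈ F.biUnion E, ω e = true) = p ^ (m * k) := by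
        rw [Pr_all_on, hcard]
      calc _ ≤ Pr p (fun ω : ι → Bool => (∀ e ∈ F.biUnion E, ω e = true) ∧
            ∀ b ∈ Ω, (∀ a ∈ F, ¬ R a b) → ∃ e ∈ E b, ω e = false) := by
            refine Pr_mono h0 h1 fun ω hω => ⟨fun e he => ?_, hω.2.2⟩
            rw [mem_biUnion] at he
            obtain ⟨a, ha, he⟩ := he
            exact hω.2.1 a ha e he
        _ = Pr p (fun ω : ι → Bool => ∀ e ∈ F.biUnion E, ω e = true) *
            Pr p (fun ω : ι → Bool => ∀ b ∈ Ω, (∀ a ∈ F, ¬ R a b) →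
              ∃ e ∈ E b, ω e = false) := by
            refine Pr_and_indep _ _ (F.biUnion E : Set ι) {e | ∃ b ∈ Ω, (∀ a ∈ F, ¬ R a b) ∧
              e ∈ E b} ?_ ?_ ?_
            · rw [Set.disjoint_left]
              rintro e he ⟨b, hb, hbF, heb⟩
              rw [mem_coe, mem_biUnion] at he
              obtain ⟨a, ha, hea⟩ := he
              exact disjoint_left.mp (hR a (hF.1 ha) b hb (hbF a ha)) hea heb
            · intro ω ω' h
              refine forall_congr' fun e => forall_congr' fun he => ?_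
              rw [h e he]
            · intro ω ω' h
              refine forall_congr' fun b => forall_congr' fun hb => forall_congr' fun hbF => ?_
              refine exists_congr fun e => and_congr_right fun he => ?_
              rw [h e ⟨b, hb, hbF, he⟩]
        _ ≤ p ^ (m * k) * δ := by
            rw [hon]
            exact mul_le_mul_of_nonneg_left hδF (by positivity)
    · have : Pr p (fun ω : ι → Bool => (∀ a ∈ F, ∀ b ∈ F, a ≠ b → ¬ R a b) ∧
          (∀ a ∈ F, ∀ e ∈ E a, ω e = true) ∧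
          ∀ b ∈ Ω, (∀ a ∈ F, ¬ R a b) → ∃ e ∈ E b, ω e = false) ≤
          Ex p (fun _ : ι → Bool => (0 : ℝ)) :=
        Ex_mono h0 h1 fun ω => le_of_eq (ind_false fun h => hpw h.1)
      rw [Ex_const] at this
      exact this.trans (by positivity)
  refine (sum_le_sum hone).trans ?_
  rw [sum_const, card_powersetCard, nsmul_eq_mul]
  have hch : ((Ω.card.choose k : ℕ) : ℝ) ≤ (Ω.card : ℝ) ^ k / (k.factorial : ℝ) :=
    Nat.choose_le_pow_div k Ω.card
  have e1 : ((Ω.card : ℝ) * p ^ m) ^ k / (k.factorial : ℝ) * δ =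
      (Ω.card : ℝ) ^ k / (k.factorial : ℝ) * (p ^ (m * k) * δ) := by
    rw [mul_pow, ← pow_mul]; ring
  rw [e1]
  exact mul_le_mul_of_nonneg_right hch (by positivity)

/-- With high probability there are `K` pairwise non-conflicting open sets. -/
theorem Pr_no_family (h0 : 0 ≤ p) (h1 : p ≤ 1) (Ω : Finset κ) (E : κ → Finset ι)
    (R : κ → κ → Prop) (hrefl : ∀ a ∈ Ω, R a a) (hsymm : ∀ a b, R a b → R b a)
    (m : ℕ) (hE : ∀ a ∈ Ω, (E a).card = m)
    (hR : ∀ a ∈ Ω, ∀ b ∈ Ω, ¬ R a b → Disjoint (E a) (E b)) (K : ℕ) {Λ δ : ℝ}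
    (hΛ : (Ω.card : ℝ) * p ^ m ≤ Λ) (hδ0 : 0 ≤ δ)
    (hδ : ∀ F ⊆ Ω, F.card < K → Pr p (fun ω : ι → Bool => ∀ b ∈ Ω, (∀ a ∈ F, ¬ R a b) →
      ∃ e ∈ E b, ω e = false) ≤ δ) :
    Pr p (fun ω : ι → Bool => ¬ ∃ F ∈ Ω.powersetCard K, (∀ a ∈ F, ∀ b ∈ F, a ≠ b → ¬ R a b) ∧
      (∀ a ∈ F, ∀ e ∈ E a, ω e = true)) ≤
    (∑ k ∈ range K, Λ ^ k / (k.factorial : ℝ)) * δ := by
  classical
  have hΛ0 : 0 ≤ (Ω.card : ℝ) * p ^ m := by positivity
  calc _ ≤ Pr p (fun ω : ι → Bool => ∃ k ∈ range K, ∃ F ∈ Ω.powersetCard k,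
        (∀ a ∈ F, ∀ b ∈ F, a ≠ b → ¬ R a b) ∧ (∀ a ∈ F, ∀ e ∈ E a, ω e = true) ∧
        ∀ b ∈ Ω, (∀ a ∈ F, ¬ R a b) → ∃ e ∈ E b, ω e = false) := by
        refine Pr_mono h0 h1 fun ω hω => ?_
        set 𝓕 : Finset (Finset κ) := Ω.powerset.filter fun F =>
          (∀ a ∈ F, ∀ b ∈ F, a ≠ b → ¬ R a b) ∧ (∀ a ∈ F, ∀ e ∈ E a, ω e = true) with h𝓕
        have hne : 𝓕.Nonempty := ⟨∅, by
          rw [h𝓕, mem_filter, mem_powerset]
          exact ⟨empty_subset _, fun a ha => absurd ha (notMem_empty a),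
            fun a ha => absurd ha (notMem_empty a)⟩⟩
        obtain ⟨F, hF, hmax⟩ := exists_max_image 𝓕 Finset.card hne
        rw [h𝓕, mem_filter, mem_powerset] at hF
        have hlt : F.card < K := by
          by_contra hcon
          push Not at hcon
          obtain ⟨F', hF', hF'K⟩ := exists_subset_card_eq hcon
          exact hω ⟨F', mem_powersetCard.mpr ⟨hF'.trans hF.1, hF'K⟩,
            fun a ha b hb => hF.2.1 a (hF' ha) b (hF' hb), fun a ha => hF.2.2 a (hF' ha)⟩
        refine ⟨F.card, mem_range.mpr hlt, F, mem_powersetCard.mpr ⟨hF.1, rfl⟩, hF.2.1, hF.2.2,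
          fun b hb hbF => ?_⟩
        by_contra hcon
        push Not at hcon
        have hbn : b ∉ F := fun hbF' => hbF b hbF' (hrefl b hb)
        have hins : insert b F ∈ 𝓕 := by
          rw [h𝓕, mem_filter, mem_powerset]
          refine ⟨insert_subset hb hF.1, ?_, ?_⟩
          · intro a ha c hc hac
            rw [mem_insert] at ha hc
            rcases ha with rfl | ha
            · rcases hc with rfl | hc
              · exact absurd rfl hac
              · exact fun h => hbF c hc (hsymm _ _ h)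
            · rcases hc with rfl | hc
              · exact hbF a ha
              · exact hF.2.1 a ha c hc hac
          · intro a ha e he
            rw [mem_insert] at ha
            rcases ha with rfl | ha
            · exact Bool.eq_true_of_not_eq_false (hcon e he)
            · exact hF.2.2 a ha e he
        have := hmax _ hins
        rw [card_insert_of_notMem hbn] at this
        omega
    _ ≤ ∑ k ∈ range K, Pr p (fun ω : ι → Bool => ∃ F ∈ Ω.powersetCard k,
        (∀ a ∈ F, ∀ b ∈ F, a ≠ b → ¬ R a b) ∧ (∀ a ∈ F, ∀ e ∈ E a, ω e = true) ∧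
        ∀ b ∈ Ω, (∀ a ∈ F, ¬ R a b) → ∃ e ∈ E b, ω e = false) := Pr_exists_le h0 h1 _ _
    _ ≤ ∑ k ∈ range K, Λ ^ k / (k.factorial : ℝ) * δ := by
        refine sum_le_sum fun k hk => ?_
        refine (Pr_maximal_le h0 h1 Ω E R m hE hR k hδ0 fun F hF hFk =>
          hδ F hF (hFk ▸ mem_range.mp hk)).trans ?_
        refine mul_le_mul_of_nonneg_right ?_ hδ0
        exact div_le_div_of_nonneg_right (pow_le_pow_left₀ hΛ0 hΛ k) (by positivity)
    _ = _ := by rw [sum_mul]

theorem sum_pow_factorial_le {Λ θ : ℝ} (hΛ : 0 ≤ Λ) (hθ0 : 0 < θ) (hθ1 : θ ≤ 1) (K : ℕ) :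
    ∑ k ∈ range K, Λ ^ k / (k.factorial : ℝ) ≤ (1 / θ) ^ K * Real.exp (θ * Λ) := by
  have h1 : ∀ k ∈ range K, Λ ^ k / (k.factorial : ℝ) ≤
      (1 / θ) ^ K * ((θ * Λ) ^ k / (k.factorial : ℝ)) := by
    intro k hk
    rw [mem_range] at hk
    have h2 : (1 : ℝ) ≤ 1 / θ := by rw [le_div_iff₀ hθ0]; linarith
    have h3 : (1 / θ) ^ k ≤ (1 / θ) ^ K := pow_le_pow_right₀ h2 hk.le
    have h4 : Λ ^ k = (1 / θ) ^ k * (θ * Λ) ^ k := by
      rw [← mul_pow]; congr 1; field_simp
    rw [h4, mul_div_assoc]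
    exact mul_le_mul_of_nonneg_right h3 (by positivity)
  refine (sum_le_sum h1).trans ?_
  rw [← mul_sum]
  refine mul_le_mul_of_nonneg_left ?_ (by positivity)
  exact Real.sum_le_exp_of_nonneg (by positivity) K

end maximal

end Pool.MP_65847d_pr
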