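import Pool.Agent.Lib.MP_65847d_pr.UpperAsymp

/-!
# Thresholds for graphs with a central looped clique
-/

set_option autoImplicit false

open Filter Topology

namespace Pool.MP_65847d_pr

open Pool.MP_1bacea_co

theorem prob_eq_Pr {V : Type*} (E : V → V → Prop) (n : ℕ) (p : unitInterval) :
    prob (fun _ => SurjHom E) n p =
      Pr (p : ℝ) (fun ω : Sym2 (Fin n) → Bool => SurjHom E (Gr ω)) :=
  binomial_eq_Pr p (SurjHom E)

theorem qf_nonneg (m n : ℕ) : 0 ≤ qf m n := by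
  unfold qf
  rcases Nat.eq_zero_or_pos n with h | h
  · subst h
    simp
  · have h1 : (1 : ℝ) ≤ n := by exact_mod_cast h
    have := Real.log_nonneg h1
    positivity

theorem tendsto_one_of_fail {f : ℕ → ℝ} {g : ℕ → ℝ} (h : ∀ n, f n = 1 - g n)
    (hg : Tendsto g atTop (𝓝 0)) : Tendsto f atTop (𝓝 1) := by
  have h1 : f = fun n => 1 - g n := funext h
  rw [h1]
  have := hg.const_sub 1
  simpa using this

/-- lower bound in the problem's sense -/
theorem lower_threshold {V : Type*} [Finite V] (E : V → V → Prop) (hE : ∀ a b, E a b → E b a)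
    (m : ℕ) (hm : 2 ≤ m) (hsys : HasSystem E m) (p : ℕ → unitInterval)
    (hp : (fun n => (p n : ℝ)) =o[atTop] qf m) :
    Tendsto (fun n => prob (fun _ => SurjHom E) n (p n)) atTop (𝓝 1) := by
  classical
  have := Fintype.ofFinite V
  obtain ⟨ε, hε, h⟩ := lower_asymp E hE m hm hsys
  have h1 := h (fun n => (p n : ℝ)) (fun n => (p n).2.1) (fun n => (p n).2.2) (by
    filter_upwards [hp.bound hε] with n hn
    rw [Real.norm_of_nonneg (p n).2.1, Real.norm_of_nonneg (qf_nonneg m n)] at hn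
    exact hn)
  refine tendsto_one_of_fail (fun n => ?_) h1
  rw [prob_eq_Pr, Pr_not]
  ring

/-- upper bound in the problem's sense -/
theorem upper_threshold {V : Type*} (E : V → V → Prop) (m : ℕ) (hm : 2 ≤ m)
    (hmiss : ∃ a b, ¬ Walk E m a b) (p : ℕ → unitInterval)
    (hp : qf m =o[atTop] (fun n => (p n : ℝ))) :
    Tendsto (fun n => prob (fun _ => SurjHom E) n (p n)) atTop (𝓝 0) := by
  obtain ⟨C, hC, h⟩ := upper_asymp m hm
  obtain ⟨a, b, hab⟩ := hmiss
  have h1 := h (fun n => (p n : ℝ)) (fun n => (p n).2.1) (fun n => (p n).2.2) (by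
    filter_upwards [hp.bound (inv_pos.mpr hC)] with n hn
    rw [Real.norm_of_nonneg (p n).2.1, Real.norm_of_nonneg (qf_nonneg m n)] at hn
    calc C * qf m n ≤ C * (C⁻¹ * (p n : ℝ)) := mul_le_mul_of_nonneg_left hn hC.le
      _ = p n := by field_simp)
  refine squeeze_zero (fun n => ?_) (fun n => ?_) h1
  · rw [prob_eq_Pr]
    exact Pr_nonneg (p n).2.1 (p n).2.2 _
  · rw [prob_eq_Pr]
    refine Pr_mono (p n).2.1 (p n).2.2 fun ω hω => ?_
    obtain ⟨φ, hsurj, hφ⟩ := hω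
    obtain ⟨x, hx⟩ := hsurj a
    obtain ⟨y, hy⟩ := hsurj b
    refine ⟨x, y, fun hw => hab ?_⟩
    have := Walk.map φ hφ m x y hw
    rwa [hx, hy] at this

theorem radial_threshold {V : Type*} [Finite V] (E : V → V → Prop)
    (hE : ∀ a b, E a b → E b a) (Q : Set V) (hQne : Q.Nonempty) (hQ : ∀ a ∈ Q, ∀ b ∈ Q, E a b)
    (ρ m : ℕ) (hm2 : 2 ≤ m) (hm : m = 2 * ρ ∨ (m + 1 = 2 * ρ ∧ Q.Subsingleton))
    (hρ : ∀ f, ∃ q ∈ Q, ∃ j ≤ ρ, Walk E j f q) (hmiss : ∃ a b, ¬ Walk E m a b) :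
    IsThreshold (fun _ => SurjHom E)
      (fun n => ((n : ℝ) * Real.log n) ^ (1 / (m : ℝ)) / n) := by
  intro p
  exact ⟨lower_threshold E hE m hm2 (radial_system E Q hQne hQ ρ m (by omega) hm hρ) p,
    upper_threshold E m hm2 hmiss p⟩

end Pool.MP_65847d_pr
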