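import Mathlib

/-!
# Definitions: walks in a graph with loops, surjective homomorphisms, thresholds
-/

set_option autoImplicit false

open Filter Topology

namespace Pool.MP_65847d_pr

/-- `Walk E k a b`: there is a walk with exactly `k` steps from `a` to `b` in the graph (loops
allowed) with edge relation `E`. -/
def Walk {V : Type*} (E : V → V → Prop) : ℕ → V → V → Prop
  | 0, a, b => a = b
  | k + 1, a, b => ∃ c, E a c ∧ Walk E k c b

/-- The simple graph `G` has a surjective homomorphism to the graph (loops allowed) with vertex
set `V` and edge relation `E`. -/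
def SurjHom {α V : Type*} (E : V → V → Prop) (G : SimpleGraph α) : Prop :=
  ∃ φ : α → V, Function.Surjective φ ∧ ∀ u v, G.Adj u v → E (φ u) (φ v)

/-- Probability that the binomial random graph `G(n, p)` has the property `P`. -/
noncomputable def prob (P : ∀ n : ℕ, SimpleGraph (Fin n) → Prop) (n : ℕ) (p : unitInterval) : ℝ :=
  (SimpleGraph.binomialRandom (Fin n) p).real {G | P n G}

/-- `q` is a threshold for the (decreasing) graph property `P`: the random graph `G(n, p)` has `P`
with probability tending to `1` when `p = o(q)` and with probability tending to `0` when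
`q = o(p)`. -/
def IsThreshold (P : ∀ n : ℕ, SimpleGraph (Fin n) → Prop) (q : ℕ → ℝ) : Prop :=
  ∀ p : ℕ → unitInterval,
    ((fun n => (p n : ℝ)) =o[atTop] q → Tendsto (fun n => prob P n (p n)) atTop (𝓝 1)) ∧
    (q =o[atTop] (fun n => (p n : ℝ)) → Tendsto (fun n => prob P n (p n)) atTop (𝓝 0))

end Pool.MP_65847d_pr
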