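import Mathlib
import Pool.Agent.Lib.MP_65847d_pr.Defs

/-!
# The deterministic colouring: balls around roots which are far apart are coloured by distance
-/

set_option autoImplicit false

namespace Pool.MP_65847d_pr

variable {α V : Type*}

theorem surjHom_of_radial (G : SimpleGraph α) (E : V → V → Prop) (hE : ∀ a b, E a b → E b a)
    (P : V → ℕ → V) (R : V → ℕ) (c : V) (m : ℕ)
    (hR : ∀ f, 1 ≤ R f) (hP0 : ∀ f, P f 0 = f)
    (hstep : ∀ f j, j < R f → E (P f j) (P f (j + 1)))
    (hend : ∀ f, P f (R f) = c) (hc : E c c)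
    (C1 : ∀ f f', f ≠ f' → ∀ j < R f, ∀ j' < R f', j + j' ≤ m)
    (C2 : ∀ f f', f ≠ f' → ∀ j < R f, ∀ j' < R f', m < j + j' + 1 → E (P f j) (P f' j'))
    (C3 : ∀ f, ∀ j < R f, m < 2 * j + 1 → E (P f j) (P f j))
    (w : V → α) (hw : ∀ f f', f ≠ f' → (m : ℕ∞) < G.edist (w f) (w f'))
    (hlev : ∀ f j u v, 2 * j + 1 ≤ m → G.edist (w f) u = (j : ℕ∞) → G.edist (w f) v = (j : ℕ∞) →
      ¬ G.Adj u v) :
    SurjHom E G := by
  classical
  -- uniqueness of the root
  have huniq : ∀ v f f' (j j' : ℕ), j < R f → j' < R f' → G.edist (w f) v = (j : ℕ∞) →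
      G.edist (w f') v = (j' : ℕ∞) → f = f' := by
    intro v f f' j j' hj hj' h1 h2
    by_contra hne
    have h3 := hw f f' hne
    have h4 : G.edist (w f) (w f') ≤ G.edist (w f) v + G.edist v (w f') := G.edist_triangle
    rw [G.edist_comm (u := v), h1, h2] at h4
    have h5 : ((j : ℕ∞) + (j' : ℕ∞)) ≤ (m : ℕ∞) := by
      exact_mod_cast C1 f f' hne j hj j' hj'
    exact absurd (lt_of_lt_of_le h3 (h4.trans h5)) (lt_irrefl _)
  let In : α → Prop := fun v => ∃ q : V × ℕ, q.2 < R q.1 ∧ G.edist (w q.1) v = (q.2 : ℕ∞)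
  let φ : α → V := fun v => if h : In v then P h.choose.1 h.choose.2 else c
  have hφ : ∀ v f (j : ℕ), j < R f → G.edist (w f) v = (j : ℕ∞) → φ v = P f j := by
    intro v f j hj h1
    have hIn : In v := ⟨(f, j), hj, h1⟩
    have hs := hIn.choose_spec
    have e1 : hIn.choose.1 = f := huniq v _ _ _ _ hs.1 hj hs.2 h1
    have e2 : hIn.choose.2 = j := by
      have h2 := hs.2
      rw [e1, h1] at h2
      exact_mod_cast h2.symm
    show (if h : In v then P h.choose.1 h.choose.2 else c) = P f j
    rw [dif_pos hIn, e2, e1]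
  have hφc : ∀ v, ¬ In v → φ v = c := fun v h => dif_neg h
  refine ⟨φ, fun f => ⟨w f, ?_⟩, ?_⟩
  · rw [hφ (w f) f 0 (hR f) (by simp), hP0]
  -- the colouring is a homomorphism
  have key : ∀ u v, G.Adj u v → ∀ f (j : ℕ), j < R f → G.edist (w f) u = (j : ℕ∞) →
      E (φ u) (φ v) := by
    intro u v huv f j hj hu
    rw [hφ u f j hj hu]
    have huv1 : G.edist u v = 1 := SimpleGraph.edist_eq_one_iff_adj.mpr huv
    by_cases hv : In v
    · obtain ⟨⟨f', j'⟩, hj', hv'⟩ := hv
      dsimp only at hj' hv'
      rw [hφ v f' j' hj' hv']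
      by_cases hff : f = f'
      · subst hff
        have h1 : G.edist (w f) v ≤ G.edist (w f) u + G.edist u v := G.edist_triangle
        have h2 : G.edist (w f) u ≤ G.edist (w f) v + G.edist v u := G.edist_triangle
        rw [G.edist_comm (u := v), huv1, hu, hv'] at h2
        rw [huv1, hu, hv'] at h1
        have h1' : j' ≤ j + 1 := by exact_mod_cast h1
        have h2' : j ≤ j' + 1 := by exact_mod_cast h2
        rcases Nat.lt_trichotomy j j' with h | h | h
        · have : j' = j + 1 := by omega
          subst this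
          exact hstep f j hj
        · subst h
          by_cases hm : 2 * j + 1 ≤ m
          · exact absurd huv (hlev f j u v hm hu hv')
          · exact C3 f j hj (by omega)
        · have : j = j' + 1 := by omega
          subst this
          exact hE _ _ (hstep f j' hj')
      · have h3 := hw f f' hff
        have h4 : G.edist (w f) (w f') ≤ G.edist (w f) u + G.edist u (w f') := G.edist_triangle
        have h5 : G.edist u (w f') ≤ G.edist u v + G.edist v (w f') := G.edist_triangle
        rw [G.edist_comm (u := v), huv1, hv'] at h5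
        rw [hu] at h4
        have h6 : G.edist (w f) (w f') ≤ (j : ℕ∞) + (1 + (j' : ℕ∞)) :=
          h4.trans (add_le_add_right h5 _)
        have h7 : (m : ℕ∞) < (j : ℕ∞) + (1 + (j' : ℕ∞)) := lt_of_lt_of_le h3 h6
        have h8 : m < j + (1 + j') := by exact_mod_cast h7
        exact C2 f f' hff j hj j' hj' (by omega)
    · rw [hφc v hv]
      have h1 : G.edist (w f) v ≤ G.edist (w f) u + G.edist u v := G.edist_triangle
      rw [huv1, hu] at h1
      have hfin : G.edist (w f) v ≠ ⊤ := by
        intro h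
        rw [h] at h1
        exact absurd h1 (by
          rw [not_le]
          exact_mod_cast WithTop.coe_lt_top (j + 1))
      obtain ⟨j', hj'⟩ := ENat.ne_top_iff_exists.mp hfin
      rw [← hj'] at h1
      have h1' : j' ≤ j + 1 := by exact_mod_cast h1
      have hge : R f ≤ j' := by
        by_contra hlt
        push Not at hlt
        exact hv ⟨(f, j'), hlt, hj'.symm⟩
      have : j + 1 = R f := by omega
      have h := hstep f j hj
      rw [this, hend f] at h
      exact h
  intro u v huv
  by_cases hu : In u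
  · obtain ⟨⟨f, j⟩, hj, hu'⟩ := hu
    exact key u v huv f j hj hu'
  · by_cases hv : In v
    · obtain ⟨⟨f, j⟩, hj, hv'⟩ := hv
      exact hE _ _ (key v u huv.symm f j hj hv')
    · rw [hφc u hu, hφc v hv]
      exact hc

end Pool.MP_65847d_pr
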