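import Pool.Agent.Lib.MP_65847d_pr.DomUpper

/-!
# Dominating looped cliques: the threshold
-/

set_option autoImplicit false

open Finset Filter Topology

namespace Pool.MP_65847d_pr

open Pool.MP_1bacea_co

theorem dom_upper_asymp {V : Type*} [Fintype V] [DecidableEq V] (E : V → V → Prop)
    (hE : ∀ a b, E a b → E b a) (s : ℕ) (hs1 : 1 ≤ s) (hT : Trap E s) :
    ∃ C : ℝ, 0 < C ∧ ∀ p : ℕ → ℝ, (∀ n, 0 ≤ p n) → (∀ n, p n ≤ 1) →
      (∀ᶠ n in atTop, C * qd s n ≤ p n) →
      Tendsto (fun n : ℕ => Pr (p n) (fun ω : Sym2 (Fin n) → Bool => SurjHom E (Gr ω)))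
        atTop (𝓝 0) := by
  classical
  set k : ℕ := Fintype.card V with hk
  set L : ℝ := 16 * k + 8 * (s + 1) + 6 with hL
  have hk0 : (0 : ℝ) ≤ k := Nat.cast_nonneg k
  have hs0 : (0 : ℝ) ≤ s := Nat.cast_nonneg s
  have hL1 : 1 ≤ L := by rw [hL]; linarith only []
  set C : ℝ := 4 * L with hC
  have hC1 : 1 ≤ C := by linarith
  refine ⟨C, by linarith, fun p hp0 hp1 hp => ?_⟩
  have hlog : Tendsto (fun n : ℕ => Real.log (n : ℝ)) atTop atTop :=
    Real.tendsto_log_atTop.comp tendsto_natCast_atTop_atTop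
  have hbound : Tendsto (fun n : ℕ => 4 * (1 / (n : ℝ))) atTop (𝓝 0) := by
    have h1 := (tendsto_one_div_atTop_nhds_zero_nat (𝕜 := ℝ)).const_mul 4
    simpa using h1
  refine squeeze_zero' (Eventually.of_forall fun n => Pr_nonneg (hp0 n) (hp1 n) _) ?_ hbound
  have e1 : ∀ᶠ n : ℕ in atTop, 2 * s + 1 ≤ n := eventually_ge_atTop _
  have e2 : ∀ᶠ n : ℕ in atTop, 1 ≤ Real.log (n : ℝ) := hlog.eventually_ge_atTop 1
  filter_upwards [hp, e1, e2] with n hpn hns hlog1
  have hn1 : 1 ≤ n := by omega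
  have hnr : (0 : ℝ) < n := by exact_mod_cast hn1
  have hnr1 : (1 : ℝ) ≤ n := by exact_mod_cast hn1
  have hlog0 : 0 < Real.log (n : ℝ) := by linarith
  have hq0 : 0 < qd s n := Real.rpow_pos_of_pos (by positivity) _
  have hpos : 0 < p n := lt_of_lt_of_le (by (clear * - hq0 hs1; positivity)) hpn
  have hqs : qd s n ^ s = Real.log n / n := by
    unfold qd
    rw [one_div]
    exact Real.rpow_inv_natCast_pow (by positivity) (by omega)
  have hps : C * (Real.log n / n) ≤ p n ^ s := by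
    calc C * (Real.log n / n) ≤ C ^ s * (Real.log n / n) := by
          refine mul_le_mul_of_nonneg_right ?_ (by positivity)
          calc C = C ^ 1 := (pow_one C).symm
            _ ≤ C ^ s := pow_le_pow_right₀ hC1 hs1
      _ = (C * qd s n) ^ s := by rw [mul_pow C, hqs]
      _ ≤ p n ^ s := pow_le_pow_left₀ (by (clear * - hq0 hs1; positivity)) hpn _
  set h : ℕ := ⌈3 * Real.log n / p n⌉₊ with hh
  have hh1 : 3 * Real.log n / p n ≤ h := Nat.le_ceil _
  have hh2 : (h : ℝ) ≤ 3 * Real.log n / p n + 1 := (Nat.ceil_lt_add_one (by positivity)).le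
  have hph : 3 * Real.log n ≤ p n * h := by
    rw [div_le_iff₀ hpos] at hh1
    linarith only [hh1]
  have hph2 : p n * h ≤ 4 * Real.log n := by
    calc p n * h ≤ p n * (3 * Real.log n / p n + 1) := mul_le_mul_of_nonneg_left hh2 hpos.le
      _ = 3 * Real.log n + p n := by field_simp
      _ ≤ 4 * Real.log n := by linarith only [hlog1, hp1, hp1 n]
  set D0 : ℕ := ⌈2 * (8 * k + 2) * Real.log n⌉₊ with hD0
  have hD01 : 2 * (8 * k + 2) * Real.log n ≤ D0 := Nat.le_ceil _
  have hD02 : (D0 : ℝ) < 2 * (8 * k + 2) * Real.log n + 1 := Nat.ceil_lt_add_one (by (clear * - hlog1; positivity))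
  have hcard : Fintype.card (Fin n) = n := Fintype.card_fin n
  set D : ℝ := L * Real.log n with hD
  have hD0D : (D0 : ℝ) < D := by
    rw [hD, hL]
    nlinarith only [hD02, hlog1]
  -- the three events
  have hA := Pr_sparse (α := Fin n) (hp0 n) (hp1 n) (amax := (k : ℝ) * (2 * h)) (K := 8 * k)
    (by rw [hcard]; exact hn1) (by
      rw [hcard]
      calc p n * ((k : ℝ) * (2 * h)) = 2 * k * (p n * h) := by ring
        _ ≤ 2 * k * (4 * Real.log n) := mul_le_mul_of_nonneg_left hph2 (by positivity)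
        _ = 8 * k * Real.log n := by ring) D0 (by
      rw [hcard]
      linarith only [hD01])
  have hB := Pr_bigPairs (α := Fin n) (hp0 n) (hp1 n) (by rw [hcard]; exact hn1) h
  have hCm := Pr_common (α := Fin n) (hp0 n) (hp1 n) s D (by
    rw [hcard]
    have h3 : (n : ℝ) / 2 ≤ (n : ℝ) - s := by
      have : (2 : ℝ) * s + 1 ≤ n := by exact_mod_cast hns
      linarith only [this]
    calc 2 * D = (n : ℝ) / 2 * (C * (Real.log n / n)) := by
          rw [hD, hC]
          field_simp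
          norm_num
      _ ≤ ((n : ℝ) - s) * p n ^ s := mul_le_mul h3 hps (by positivity) (by linarith only [h3, hnr]))
  rw [hcard] at hA hB hCm
  have hn1' : Real.exp (-(Real.log n)) = 1 / n := by
    rw [Real.exp_neg, Real.exp_log hnr, one_div]
  have hB' : Real.exp (2 * h * Real.log n - p n * h * h) ≤ 1 / n := by
    rw [← hn1']
    apply Real.exp_le_exp.mpr
    have hh1' : (1 : ℝ) ≤ h := by
      have : 0 < (h : ℝ) := lt_of_lt_of_le (by positivity) hh1
      have h5 : 0 < h := by exact_mod_cast this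
      exact_mod_cast h5
    have h6 : 3 * Real.log n * h ≤ p n * h * h := mul_le_mul_of_nonneg_right hph (by positivity)
    nlinarith only [h6, hh1', hlog1]
  have hC' : (n : ℝ) ^ s * Real.exp (-(D / 8)) ≤ 1 / n := by
    have h3 : (n : ℝ) ^ s = Real.exp (s * Real.log n) := by
      rw [Real.exp_nat_mul, Real.exp_log hnr]
    rw [h3, ← Real.exp_add, ← hn1']
    apply Real.exp_le_exp.mpr
    rw [hD, hL]
    nlinarith only [hD02, hlog1]
  have hsplit : Pr (p n) (fun ω : Sym2 (Fin n) → Bool => SurjHom E (Gr ω)) ≤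
      Pr (p n) (fun ω : Sym2 (Fin n) → Bool => ¬ LocSp (Gr ω) ((k : ℝ) * (2 * h)) D0) +
      Pr (p n) (fun ω : Sym2 (Fin n) → Bool => ¬ BigPairs (Gr ω) h) +
      Pr (p n) (fun ω : Sym2 (Fin n) → Bool => ¬ Common (Gr ω) s D) := by
    refine le_trans (Pr_mono (hp0 n) (hp1 n) (B := fun ω => (¬ LocSp (Gr ω) ((k : ℝ) * (2 * h)) D0 ∨
      ¬ BigPairs (Gr ω) h) ∨ ¬ Common (Gr ω) s D) fun ω hω => ?_) ?_
    · by_contra hcon
      push Not at hcon
      obtain ⟨⟨h4, h5⟩, h6⟩ := hcon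
      exact no_surj_dom (Gr ω) E hE s (by rw [hcard]; omega) h D0 ((k : ℝ) * (2 * h)) D h5 h6 h4
        hD0D le_rfl hT hω
    · refine (Pr_or_le (hp0 n) (hp1 n) _ _).trans (add_le_add_left ?_ _)
      exact Pr_or_le (hp0 n) (hp1 n) _ _
  calc _ ≤ _ := hsplit
    _ ≤ 2 / n + 1 / n + 1 / n := add_le_add (add_le_add hA (hB.trans hB')) (hCm.trans hC')
    _ = 4 * (1 / n) := by ring

theorem qd_nonneg (s n : ℕ) : 0 ≤ qd s n := by
  unfold qd
  apply Real.rpow_nonneg
  rcases Nat.eq_zero_or_pos n with h | h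
  · subst h
    simp
  · have h1 : (1 : ℝ) ≤ n := by exact_mod_cast h
    have := Real.log_nonneg h1
    positivity

theorem dom_threshold {V : Type*} [Finite V] (E : V → V → Prop)
    (hE : ∀ a b, E a b → E b a) (s : ℕ) (hs1 : 1 ≤ s) (Q : Set V) (hQ : ∀ a ∈ Q, ∀ b ∈ Q, E a b)
    (hs : ∀ A : Finset V, A.card < s → ∃ q ∈ Q, ∀ a ∈ A, E a q) (hT : Trap E s) :
    IsThreshold (fun _ => SurjHom E) (fun n => (Real.log n / n) ^ (1 / (s : ℝ))) := by
  classical
  have := Fintype.ofFinite V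
  intro p
  constructor
  · intro hp
    change (fun n => (p n : ℝ)) =o[atTop] (fun n => qd s n) at hp
    obtain ⟨ε, hε, h⟩ := dom_lower_asymp E hE Q hQ s hs1 hs
    have h1 := h (fun n => (p n : ℝ)) (fun n => (p n).2.1) (fun n => (p n).2.2) (by
      filter_upwards [hp.bound hε] with n hn
      rw [Real.norm_of_nonneg (p n).2.1, Real.norm_of_nonneg (qd_nonneg s n)] at hn
      exact hn)
    refine tendsto_one_of_fail (fun n => ?_) h1
    rw [prob_eq_Pr, Pr_not]
    ring
  · intro hp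
    change (fun n => qd s n) =o[atTop] (fun n => (p n : ℝ)) at hp
    obtain ⟨C, hC, h⟩ := dom_upper_asymp E hE s hs1 hT
    have h1 := h (fun n => (p n : ℝ)) (fun n => (p n).2.1) (fun n => (p n).2.2) (by
      filter_upwards [hp.bound (inv_pos.mpr hC)] with n hn
      rw [Real.norm_of_nonneg (p n).2.1, Real.norm_of_nonneg (qd_nonneg s n)] at hn
      calc C * qd s n ≤ C * (C⁻¹ * (p n : ℝ)) := mul_le_mul_of_nonneg_left hn hC.le
        _ = p n := by field_simp)
    refine h1.congr fun n => ?_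
    rw [prob_eq_Pr]

end Pool.MP_65847d_pr
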