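import Pool.Agent.Lib.MP_65847d_pr.Radial

/-!
# Dominating looped cliques: lower bound
-/

set_option autoImplicit false
set_option linter.unusedSectionVars false

open Finset Filter Topology

namespace Pool.MP_65847d_pr

open Pool.MP_1bacea_co

theorem surjHom_of_dom {α V : Type*} [Fintype V] [DecidableEq V] (G : SimpleGraph α)
    (E : V → V → Prop) (hE : ∀ a b, E a b → E b a) (Q : Set V) (hQ : ∀ a ∈ Q, ∀ b ∈ Q, E a b)
    (s : ℕ) (hs : ∀ A : Finset V, A.card < s → ∃ q ∈ Q, ∀ a ∈ A, E a q) (w : V → α)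
    (hw : Function.Injective w) (hnon : ∀ f f', ¬ G.Adj (w f) (w f'))
    (hfew : ∀ v, (∀ f, w f ≠ v) → ∀ A : Finset V, A.card = s → ¬ ∀ f ∈ A, G.Adj (w f) v) :
    SurjHom E G := by
  classical
  set Av : α → Finset V := fun v => univ.filter fun f => G.Adj (w f) v with hAv
  have hcard : ∀ v, (∀ f, w f ≠ v) → (Av v).card < s := by
    intro v hv
    by_contra hcon
    push Not at hcon
    obtain ⟨A, hA, hAs⟩ := exists_subset_card_eq hcon
    exact hfew v hv A hAs fun f hf => (mem_filter.mp (hA hf)).2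
  let φ : α → V := fun v => if h : ∃ f, w f = v then h.choose else
    if h' : (Av v).card < s then (hs (Av v) h').choose else (hs (Av v) (hcard v (by
      push Not at h; exact h))).choose
  have h1 : ∀ f, φ (w f) = f := by
    intro f
    have h : ∃ f', w f' = w f := ⟨f, rfl⟩
    show (if h : ∃ f', w f' = w f then h.choose else _) = f
    rw [dif_pos h]
    exact hw h.choose_spec
  have h2 : ∀ v, (∀ f, w f ≠ v) → φ v ∈ Q ∧ ∀ f, G.Adj (w f) v → E f (φ v) := by
    intro v hv
    have h : ¬ ∃ f, w f = v := by push Not; exact hv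
    have h' := hcard v hv
    have h3 : φ v = (hs (Av v) h').choose := by
      show (if h : ∃ f, w f = v then h.choose else
        if h' : (Av v).card < s then (hs (Av v) h').choose else _) = _
      rw [dif_neg h, dif_pos h']
    have h4 := (hs (Av v) h').choose_spec
    rw [h3]
    exact ⟨h4.1, fun f hf => h4.2 f (mem_filter.mpr ⟨mem_univ _, hf⟩)⟩
  refine ⟨φ, fun f => ⟨w f, h1 f⟩, ?_⟩
  intro u v huv
  by_cases hu : ∀ f, w f ≠ u
  · by_cases hv : ∀ f, w f ≠ v
    · exact hQ _ (h2 u hu).1 _ (h2 v hv).1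
    · push Not at hv
      obtain ⟨f, rfl⟩ := hv
      rw [h1 f]
      exact hE _ _ ((h2 u hu).2 f huv.symm)
  · push Not at hu
    obtain ⟨f, rfl⟩ := hu
    by_cases hv : ∀ f, w f ≠ v
    · rw [h1 f]
      exact (h2 v hv).2 f huv
    · push Not at hv
      obtain ⟨f', rfl⟩ := hv
      exact absurd huv (hnon f f')

/-- some vertex outside `U` is adjacent to `s` vertices of the tuple -/
def BadS {α K : Type*} (s : ℕ) (U : Finset α) (w : K → α) (ω : Sym2 α → Bool) : Prop :=
  ∃ y, y ∉ U ∧ ∃ A : Finset K, A.card = s ∧ ∀ f ∈ A, ω s(w f, y) = true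

theorem Pr_not_badS {α K : Type*} [Fintype α] [DecidableEq α] [Fintype K] [DecidableEq K] {p : ℝ}
    (h0 : 0 ≤ p) (h1 : p ≤ 1) (s : ℕ) (U : Finset α) (w : K → α)
    (hw : Function.Injective w) (hwU : ∀ f, w f ∈ U)
    (hX : 2 ^ Fintype.card K * p ^ s ≤ 1) :
    (1 - 2 ^ Fintype.card K * p ^ s) ^ Fintype.card α ≤ Pr p (fun ω => ¬ BadS s U w ω) := by
  classical
  set X : ℝ := 2 ^ Fintype.card K * p ^ s with hXdef
  have hX0 : 0 ≤ X := by positivity
  have hblocks := Pr_forall_blocks (p := p) (Uᶜ : Finset α)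
    (fun y => (univ : Finset K).image fun f => s(w f, y)) ?_
    (fun y ω => ¬ ∃ A : Finset K, A.card = s ∧ ∀ f ∈ A, ω s(w f, y) = true) ?_
  · have heq : Pr p (fun ω => ¬ BadS s U w ω) = Pr p (fun ω : Sym2 α → Bool => ∀ y ∈ (Uᶜ : Finset α),
        ¬ ∃ A : Finset K, A.card = s ∧ ∀ f ∈ A, ω s(w f, y) = true) := by
      congr 1
      funext ω
      apply propext
      unfold BadS
      constructor
      · intro h y hy hA
        exact h ⟨y, mem_compl.mp hy, hA⟩
      · rintro h ⟨y, hy, hA⟩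
        exact h y (mem_compl.mpr hy) hA
    rw [heq, hblocks]
    calc (1 - X) ^ Fintype.card α ≤ (1 - X) ^ (Uᶜ : Finset α).card :=
          pow_le_pow_of_le_one (by linarith) (by linarith) (card_le_univ _)
      _ = ∏ _y ∈ (Uᶜ : Finset α), (1 - X) := by rw [prod_const]
      _ ≤ _ := by
          refine prod_le_prod (fun _ _ => by linarith) fun y hy => ?_
          have hy' : y ∉ U := mem_compl.mp hy
          rw [Pr_not]
          have h2 : Pr p (fun ω : Sym2 α → Bool => ∃ A : Finset K, A.card = s ∧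
              ∀ f ∈ A, ω s(w f, y) = true) ≤ X := by
            calc Pr p (fun ω : Sym2 α → Bool => ∃ A : Finset K, A.card = s ∧
                  ∀ f ∈ A, ω s(w f, y) = true)
                ≤ Pr p (fun ω : Sym2 α → Bool => ∃ A ∈ powersetCard s (univ : Finset K),
                  ∀ e ∈ A.image fun f => s(w f, y), ω e = true) := by
                  refine Pr_mono h0 h1 fun ω hω => ?_
                  obtain ⟨A, hA, h⟩ := hω
                  refine ⟨A, mem_powersetCard.mpr ⟨subset_univ _, hA⟩, fun e he => ?_⟩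
                  rw [mem_image] at he
                  obtain ⟨f, hf, rfl⟩ := he
                  exact h f hf
              _ ≤ ∑ A ∈ powersetCard s (univ : Finset K), Pr p (fun ω : Sym2 α → Bool =>
                  ∀ e ∈ A.image fun f => s(w f, y), ω e = true) := Pr_exists_le h0 h1 _ _
              _ = ∑ A ∈ powersetCard s (univ : Finset K), p ^ s := by
                  refine sum_congr rfl fun A hA => ?_
                  rw [Pr_all_on, card_image_of_injective, (mem_powersetCard.mp hA).2]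
                  intro f f' h
                  exact hw (Sym2.congr_left.mp h)
              _ = ((powersetCard s (univ : Finset K)).card : ℝ) * p ^ s := by
                  rw [sum_const, nsmul_eq_mul]
              _ ≤ X := by
                  rw [hXdef]
                  refine mul_le_mul_of_nonneg_right ?_ (by positivity)
                  have h3 : (powersetCard s (univ : Finset K)).card ≤ 2 ^ Fintype.card K := by
                    rw [card_powersetCard, card_univ]
                    exact Nat.choose_le_two_pow _ _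
                  exact_mod_cast h3
          linarith
  · intro y hy y' hy' hne
    rw [disjoint_left]
    intro e he he'
    rw [mem_image] at he he'
    obtain ⟨f, -, rfl⟩ := he
    obtain ⟨f', -, h⟩ := he'
    exact hne (sym2_inj (hwU f') (hwU f) (mem_compl.mp hy') (mem_compl.mp hy) h).2.symm
  · intro y _ ω ω' h
    have h2 : ∀ f, ω s(w f, y) = ω' s(w f, y) := fun f => h _ (mem_image_of_mem _ (mem_univ f))
    simp only [h2]

theorem Pr_all_badS {α K : Type*} [Fintype α] [DecidableEq α] [Fintype K] [DecidableEq K] {p : ℝ}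
    (h0 : 0 ≤ p) (h1 : p ≤ 1) (s : ℕ) (U : Finset α) {t : ℕ} (W : Fin t → K → α)
    (hW : ∀ i f i' f', W i f = W i' f' → i = i' ∧ f = f')
    (hWU : ∀ i f, W i f ∈ U) (hX : 2 ^ Fintype.card K * p ^ s ≤ 1) :
    Pr p (fun ω => ∀ i, BadS s U (W i) ω) ≤
      (1 - (1 - 2 ^ Fintype.card K * p ^ s) ^ Fintype.card α) ^ t := by
  classical
  have hdisj : ∀ i ∈ (univ : Finset (Fin t)), ∀ i' ∈ (univ : Finset (Fin t)), i ≠ i' →
      Disjoint (bipBits U (W i)) (bipBits U (W i')) := by
    intro i _ i' _ hne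
    rw [disjoint_left]
    intro e he he'
    unfold bipBits at he he'
    rw [mem_image] at he he'
    obtain ⟨⟨f, y⟩, hq, rfl⟩ := he
    obtain ⟨⟨f', y'⟩, hq', h⟩ := he'
    rw [mem_product, mem_compl] at hq hq'
    have h3 := sym2_inj (hWU i' f') (hWU i f) hq'.2 hq.2 h
    exact hne (hW _ _ _ _ h3.1).1.symm
  have hdep : ∀ i ∈ (univ : Finset (Fin t)), ∀ ω ω' : Sym2 α → Bool,
      (∀ e ∈ bipBits U (W i), ω e = ω' e) → (BadS s U (W i) ω ↔ BadS s U (W i) ω') := by
    intro i _ ω ω' h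
    unfold BadS
    refine exists_congr fun y => and_congr_right fun hy => exists_congr fun A =>
      and_congr_right fun _ => ?_
    refine forall_congr' fun f => forall_congr' fun _ => ?_
    rw [h _ (mem_bipBits (f := f) hy)]
  have h2 := Pr_forall_blocks (p := p) (univ : Finset (Fin t)) (fun i => bipBits U (W i)) hdisj
    (fun i => BadS s U (W i)) hdep
  have h3 : Pr p (fun ω => ∀ i, BadS s U (W i) ω) =
      Pr p (fun ω => ∀ i ∈ (univ : Finset (Fin t)), BadS s U (W i) ω) := by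
    congr 1
    funext ω
    simp
  rw [h3, h2]
  calc ∏ i ∈ (univ : Finset (Fin t)), Pr p (BadS s U (W i))
      ≤ ∏ _i ∈ (univ : Finset (Fin t)),
        (1 - (1 - 2 ^ Fintype.card K * p ^ s) ^ Fintype.card α) := by
        refine prod_le_prod (fun i _ => Pr_nonneg h0 h1 _) fun i _ => ?_
        have h4 := Pr_not_badS h0 h1 s U (W i) (fun f f' h => (hW _ _ _ _ h).2) (hWU i) hX
        rw [Pr_not] at h4
        linarith
    _ = _ := by rw [prod_const, card_univ, Fintype.card_fin]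

theorem dom_lower_finite {V : Type*} [Fintype V] [DecidableEq V] (E : V → V → Prop)
    (hE : ∀ a b, E a b → E b a) (Q : Set V) (hQ : ∀ a ∈ Q, ∀ b ∈ Q, E a b)
    (s : ℕ) (hs1 : 1 ≤ s) (hs : ∀ A : Finset V, A.card < s → ∃ q ∈ Q, ∀ a ∈ A, E a q)
    (n : ℕ) {p : ℝ} (h0 : 0 ≤ p) (h1 : p ≤ 1) (t : ℕ) (ht : t * Fintype.card V ≤ n)
    (hX : 2 ^ Fintype.card V * p ^ s ≤ 1) :
    Pr p (fun ω : Sym2 (Fin n) → Bool => ¬ SurjHom E (Gr ω)) ≤
      ((t : ℝ) * Fintype.card V) ^ 2 * p + (1 - (1 - 2 ^ Fintype.card V * p ^ s) ^ n) ^ t := by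
  classical
  have hcardle : Fintype.card (Fin t × V) ≤ Fintype.card (Fin n) := by
    rw [Fintype.card_prod, Fintype.card_fin, Fintype.card_fin]
    exact ht
  obtain ⟨e⟩ := Function.Embedding.nonempty_of_card_le hcardle
  set W : Fin t → V → Fin n := fun i f => e (i, f) with hW
  set U : Finset (Fin n) := univ.map e with hU
  have hUcard : U.card = t * Fintype.card V := by
    rw [hU, card_map, card_univ, Fintype.card_prod, Fintype.card_fin]
  have hWinj : ∀ i f i' f', W i f = W i' f' → i = i' ∧ f = f' := by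
    intro i f i' f' h
    have := e.injective h
    rw [Prod.mk.injEq] at this
    exact this
  have hWU : ∀ i f, W i f ∈ U := fun i f => mem_map_of_mem e (mem_univ _)
  have hsplit : Pr p (fun ω : Sym2 (Fin n) → Bool => ¬ SurjHom E (Gr ω)) ≤
      Pr p (fun ω : Sym2 (Fin n) → Bool => ∃ q ∈ U ×ˢ U, ω s(q.1, q.2) = true) +
      Pr p (fun ω : Sym2 (Fin n) → Bool => ∀ i, BadS s U (W i) ω) := by
    refine le_trans (Pr_mono h0 h1 fun ω hω => ?_) (Pr_or_le h0 h1 _ _)
    by_contra hcon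
    push Not at hcon
    obtain ⟨hA, i, hi⟩ := hcon
    have hnon : ∀ u ∈ U, ∀ u' ∈ U, ¬ (Gr ω).Adj u u' := fun u hu u' hu' h =>
      hA (u, u') (mem_product.mpr ⟨hu, hu'⟩) h.2
    apply hω
    refine surjHom_of_dom (Gr ω) E hE Q hQ s hs (W i) (fun f f' h => (hWinj _ _ _ _ h).2)
      (fun f f' => hnon _ (hWU i f) _ (hWU i f')) ?_
    intro v hv A hAs hadj
    by_cases hvU : v ∈ U
    · obtain ⟨f, hf⟩ : A.Nonempty := by
        rw [← card_pos]
        omega
      exact hnon _ (hWU i f) _ hvU (hadj f hf)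
    · exact hi ⟨v, hvU, A, hAs, fun f hf => (hadj f hf).2⟩
  have hA : Pr p (fun ω : Sym2 (Fin n) → Bool => ∃ q ∈ U ×ˢ U, ω s(q.1, q.2) = true) ≤
      ((t : ℝ) * Fintype.card V) ^ 2 * p := by
    refine (Pr_exists_le h0 h1 _ _).trans ?_
    have h2 : ∀ q ∈ U ×ˢ U, Pr p (fun ω : Sym2 (Fin n) → Bool => ω s(q.1, q.2) = true) = p := by
      intro q _
      have h3 := Pr_all_on (p := p) ({s(q.1, q.2)} : Finset (Sym2 (Fin n)))
      rw [card_singleton, pow_one] at h3
      rw [← h3]
      congr 1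
      funext ω
      simp
    rw [sum_congr rfl h2, sum_const, nsmul_eq_mul, card_product, hUcard]
    push_cast
    apply le_of_eq
    ring
  have hB := Pr_all_badS h0 h1 s U W hWinj hWU hX
  rw [Fintype.card_fin] at hB
  linarith

/-- the threshold function `(log n / n)^(1/s)` -/
noncomputable def qd (s : ℕ) (n : ℕ) : ℝ := (Real.log n / n) ^ (1 / (s : ℝ))

theorem dom_lower_asymp {V : Type*} [Fintype V] [DecidableEq V] (E : V → V → Prop)
    (hE : ∀ a b, E a b → E b a) (Q : Set V) (hQ : ∀ a ∈ Q, ∀ b ∈ Q, E a b)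
    (s : ℕ) (hs1 : 1 ≤ s) (hs : ∀ A : Finset V, A.card < s → ∃ q ∈ Q, ∀ a ∈ A, E a q) :
    ∃ ε : ℝ, 0 < ε ∧ ∀ p : ℕ → ℝ, (∀ n, 0 ≤ p n) → (∀ n, p n ≤ 1) →
      (∀ᶠ n in atTop, p n ≤ ε * qd s n) →
      Tendsto (fun n : ℕ => Pr (p n) (fun ω : Sym2 (Fin n) → Bool => ¬ SurjHom E (Gr ω)))
        atTop (𝓝 0) := by
  classical
  set k : ℕ := Fintype.card V with hk
  have hs0 : (0 : ℝ) < s := by exact_mod_cast hs1
  have hs1r : (1 : ℝ) ≤ s := by exact_mod_cast hs1
  set a : ℝ := 1 / (8 * s) with ha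
  have ha0 : 0 < a := by rw [ha]; positivity
  have ha1 : a ≤ 1 / 8 := by
    rw [ha]
    apply one_div_le_one_div_of_le (by norm_num)
    linarith
  set ε : ℝ := a / 2 ^ (k + 1) with hε
  have hε0 : 0 < ε := by rw [hε]; positivity
  have h2k : (1 : ℝ) ≤ 2 ^ (k + 1) := one_le_pow₀ (by norm_num)
  have hε1 : ε ≤ 1 := by
    rw [hε, div_le_one (by positivity)]
    linarith
  have hεs : ε ^ s ≤ ε := by
    calc ε ^ s ≤ ε ^ 1 := pow_le_pow_of_le_one hε0.le hε1 hs1
      _ = ε := pow_one _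
  refine ⟨ε, hε0, fun p hp0 hp1 hp => ?_⟩
  have hlogr : ∀ r : ℝ, 0 < r → Tendsto (fun n : ℕ => Real.log (n : ℝ) / (n : ℝ) ^ r) atTop (𝓝 0) := by
    intro r hr
    have h1 := (isLittleO_log_rpow_atTop hr).tendsto_div_nhds_zero
    exact h1.comp tendsto_natCast_atTop_atTop
  have hrpow : ∀ r : ℝ, 0 < r → Tendsto (fun n : ℕ => (n : ℝ) ^ r) atTop atTop := fun r hr =>
    (tendsto_rpow_atTop hr).comp tendsto_natCast_atTop_atTop
  have hlog : Tendsto (fun n : ℕ => Real.log (n : ℝ)) atTop atTop :=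
    Real.tendsto_log_atTop.comp tendsto_natCast_atTop_atTop
  have hbound : Tendsto (fun n : ℕ => ((k : ℝ) ^ 2) *
      (Real.log (n : ℝ) / (n : ℝ) ^ (1 / (2 * s) : ℝ)) +
      Real.exp (-((n : ℝ) ^ a - 1))) atTop (𝓝 0) := by
    have h1 := (hlogr (1 / (2 * s)) (by positivity)).const_mul ((k : ℝ) ^ 2)
    have h3 : Tendsto (fun n : ℕ => Real.exp (-((n : ℝ) ^ a - 1))) atTop (𝓝 0) := by
      apply Real.tendsto_exp_neg_atTop_nhds_zero.comp
      exact tendsto_atTop_add_const_right _ (-1) (hrpow a ha0)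
    have h4 := h1.add h3
    simpa using h4
  refine squeeze_zero' (Eventually.of_forall fun n => Pr_nonneg (hp0 n) (hp1 n) _) ?_ hbound
  have e1 : ∀ᶠ n : ℕ in atTop, 1 ≤ n := eventually_ge_atTop 1
  have e2 : ∀ᶠ n : ℕ in atTop, 1 ≤ Real.log (n : ℝ) := hlog.eventually_ge_atTop 1
  have e5 : ∀ᶠ n : ℕ in atTop, (k : ℝ) ≤ (n : ℝ) ^ (3 / 4 : ℝ) :=
    (hrpow (3 / 4) (by norm_num)).eventually_ge_atTop _
  filter_upwards [hp, e1, e2, e5] with n hpn hn1 hlog1 hkn
  have hnr : (0 : ℝ) < n := by exact_mod_cast hn1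
  have hnr1 : (1 : ℝ) ≤ n := by exact_mod_cast hn1
  have hlog0 : 0 < Real.log (n : ℝ) := by linarith
  have hlogn : Real.log n ≤ n := (Real.log_le_sub_one_of_pos hnr).trans (by linarith)
  set t : ℕ := ⌊(n : ℝ) ^ (2 * a)⌋₊ with ht
  have ht1 : (n : ℝ) ^ (2 * a) - 1 ≤ t := by
    have := Nat.lt_floor_add_one ((n : ℝ) ^ (2 * a))
    linarith
  have ht2 : (t : ℝ) ≤ (n : ℝ) ^ (2 * a) := Nat.floor_le (by positivity)
  have htk : t * k ≤ n := by
    have h1 : (t : ℝ) * k ≤ n := by
      calc (t : ℝ) * k ≤ (n : ℝ) ^ (2 * a) * (n : ℝ) ^ (3 / 4 : ℝ) :=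
            mul_le_mul ht2 hkn (by positivity) (by positivity)
        _ = (n : ℝ) ^ (2 * a + 3 / 4) := by rw [Real.rpow_add hnr]
        _ ≤ (n : ℝ) ^ (1 : ℝ) := Real.rpow_le_rpow_of_exponent_le hnr1 (by linarith)
        _ = n := Real.rpow_one _
    exact_mod_cast h1
  -- `p ^ s`
  have hqs : qd s n ^ s = Real.log n / n := by
    unfold qd
    rw [one_div]
    exact Real.rpow_inv_natCast_pow (by positivity) (by omega)
  have hq0 : 0 ≤ qd s n := Real.rpow_nonneg (by positivity) _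
  have hps : p n ^ s ≤ ε * (Real.log n / n) := by
    calc p n ^ s ≤ (ε * qd s n) ^ s := pow_le_pow_left₀ (hp0 n) hpn _
      _ = ε ^ s * (Real.log n / n) := by rw [mul_pow, hqs]
      _ ≤ ε * (Real.log n / n) := mul_le_mul_of_nonneg_right hεs (by positivity)
  set X : ℝ := 2 ^ k * p n ^ s with hX
  have hX0 : 0 ≤ X := by have := hp0 n; positivity
  have hXn : 2 * X * n ≤ a * Real.log n := by
    calc 2 * X * n ≤ 2 * (2 ^ k * (ε * (Real.log n / n))) * n := by
          rw [hX]
          gcongr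
      _ = a * Real.log n := by
          rw [hε, pow_succ]
          field_simp
  have hXhalf : X ≤ 1 / 2 := by
    have h1 : 2 * X * n ≤ 1 * n := by
      refine hXn.trans ?_
      have : a * Real.log n ≤ 1 * n := mul_le_mul (by linarith) hlogn hlog0.le (by norm_num)
      exact this
    have h2 : 2 * X ≤ 1 := le_of_mul_le_mul_right h1 hnr
    linarith
  have hmain := dom_lower_finite E hE Q hQ s hs1 hs n (hp0 n) (hp1 n) t htk
    (by rw [← hk, ← hX]; linarith)
  refine hmain.trans ?_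
  rw [← hk, ← hX]
  refine add_le_add ?_ ?_
  · have h1 : p n ≤ Real.log n / (n : ℝ) ^ (1 / s : ℝ) := by
      calc p n ≤ ε * qd s n := hpn
        _ ≤ 1 * qd s n := mul_le_mul_of_nonneg_right hε1 hq0
        _ = (Real.log n) ^ (1 / s : ℝ) / (n : ℝ) ^ (1 / s : ℝ) := by
            rw [one_mul]
            unfold qd
            rw [Real.div_rpow hlog0.le hnr.le]
        _ ≤ Real.log n / (n : ℝ) ^ (1 / s : ℝ) := by
            refine div_le_div_of_nonneg_right ?_ (by positivity)
            calc (Real.log n) ^ (1 / s : ℝ) ≤ (Real.log n) ^ (1 : ℝ) :=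
                  Real.rpow_le_rpow_of_exponent_le hlog1 (by
                    rw [div_le_one hs0]
                    exact hs1r)
              _ = Real.log n := Real.rpow_one _
    have h2 : (t : ℝ) ^ 2 ≤ (n : ℝ) ^ (1 / (2 * s) : ℝ) := by
      calc (t : ℝ) ^ 2 ≤ ((n : ℝ) ^ (2 * a)) ^ 2 := pow_le_pow_left₀ (by positivity) ht2 2
        _ = (n : ℝ) ^ (1 / (2 * s) : ℝ) := by
            rw [← Real.rpow_natCast, ← Real.rpow_mul hnr.le]
            congr 1
            rw [ha]
            push_cast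
            field_simp
            norm_num
    have h3 : (n : ℝ) ^ (1 / s : ℝ) = (n : ℝ) ^ (1 / (2 * s) : ℝ) * (n : ℝ) ^ (1 / (2 * s) : ℝ) := by
      rw [← Real.rpow_add hnr]
      congr 1
      field_simp
      norm_num
    have hr0 : 0 < (n : ℝ) ^ (1 / (2 * s) : ℝ) := Real.rpow_pos_of_pos hnr _
    calc ((t : ℝ) * k) ^ 2 * p n = (k : ℝ) ^ 2 * ((t : ℝ) ^ 2 * p n) := by ring
      _ ≤ (k : ℝ) ^ 2 * ((n : ℝ) ^ (1 / (2 * s) : ℝ) * (Real.log n / (n : ℝ) ^ (1 / s : ℝ))) := by
          refine mul_le_mul_of_nonneg_left (mul_le_mul h2 h1 (hp0 n) hr0.le) (by positivity)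
      _ = _ := by
          rw [h3]
          field_simp
  · have h1 : 2 * X * ((n : ℕ) : ℝ) ≤ a * Real.log n := hXn
    refine (pow_fail_le hX0 hXhalf n t h1).trans (Real.exp_le_exp.mpr ?_)
    have h2 : Real.exp (-(a * Real.log n)) = ((n : ℝ) ^ a)⁻¹ := by
      rw [Real.exp_neg, Real.rpow_def_of_pos hnr, mul_comm]
    rw [h2]
    have hna : 1 ≤ (n : ℝ) ^ a := Real.one_le_rpow hnr1 ha0.le
    have h3 : (n : ℝ) ^ (2 * a) = (n : ℝ) ^ a * (n : ℝ) ^ a := by
      rw [← Real.rpow_add hnr]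
      congr 1
      ring
    rw [h3] at ht1
    have h4 : (n : ℝ) ^ a - 1 ≤ t * ((n : ℝ) ^ a)⁻¹ := by
      rw [← div_eq_mul_inv, le_div_iff₀ (by linarith)]
      nlinarith
    linarith

end Pool.MP_65847d_pr
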