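import Pool.Agent.Lib.MP_65847d_pr.DomLower
import Pool.Agent.Lib.MP_1bacea_co.LocalSparse

/-!
# Dominating looped cliques: upper bound
-/

set_option autoImplicit false
set_option linter.unusedSectionVars false

open Finset Filter Topology

namespace Pool.MP_65847d_pr

open Pool.MP_1bacea_co

variable {α : Type*} [Fintype α] [DecidableEq α] {p : ℝ}

/-- union bound over nonempty sets -/
theorem Pr_exists_set_le {ι : Type*} [Fintype ι] [DecidableEq ι] (h0 : 0 ≤ p) (h1 : p ≤ 1) {x : ℝ}
    (hx : 0 ≤ x) (hx1 : (Fintype.card α : ℝ) * x ≤ 1) (Bad : Finset α → (ι → Bool) → Prop)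
    (h : ∀ A : Finset α, A.Nonempty → Pr p (Bad A) ≤ x ^ A.card) :
    Pr p (fun ω => ∃ A : Finset α, A.Nonempty ∧ Bad A ω) ≤ 2 * (Fintype.card α * x) := by
  classical
  have hstep : Pr p (fun ω => ∃ A : Finset α, A.Nonempty ∧ Bad A ω) ≤
      ∑ A ∈ (univ : Finset (Finset α)).erase ∅, x ^ A.card := by
    calc Pr p (fun ω => ∃ A : Finset α, A.Nonempty ∧ Bad A ω)
        ≤ Pr p (fun ω => ∃ A ∈ (univ : Finset (Finset α)).erase ∅, Bad A ω) := by
          refine Pr_mono h0 h1 fun ω hω => ?_
          obtain ⟨A, hA, hB⟩ := hω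
          exact ⟨A, mem_erase.mpr ⟨hA.ne_empty, mem_univ _⟩, hB⟩
      _ ≤ _ := Pr_exists_le h0 h1 _ _
      _ ≤ _ := sum_le_sum fun A hA => h A (nonempty_iff_ne_empty.mpr (mem_erase.mp hA).1)
  have hsum : ∑ A ∈ (univ : Finset (Finset α)).erase ∅, x ^ A.card =
      (1 + x) ^ (Fintype.card α) - 1 := by
    have hall : ∑ A : Finset α, x ^ A.card = (1 + x) ^ (Fintype.card α) := by
      have := Fintype.sum_pow_mul_eq_add_pow α x 1
      simp only [one_pow, mul_one] at this
      rw [this, add_comm]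
    have hemp : x ^ (∅ : Finset α).card + ∑ A ∈ (univ : Finset (Finset α)).erase ∅, x ^ A.card =
        ∑ A : Finset α, x ^ A.card :=
      add_sum_erase _ (fun A : Finset α => x ^ A.card) (mem_univ _)
    rw [hall] at hemp
    simp only [card_empty, pow_zero] at hemp
    linarith
  rw [hsum] at hstep
  have hnx0 : 0 ≤ (Fintype.card α : ℝ) * x := by positivity
  have e1 : (1 + x) ^ (Fintype.card α) ≤ Real.exp (Fintype.card α * x) := by
    have : 1 + x ≤ Real.exp x := by have := Real.add_one_le_exp x; linarith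
    refine (pow_le_pow_left₀ (by linarith) this _).trans ?_
    rw [← Real.exp_nat_mul]
  have e2 : Real.exp (Fintype.card α * x) - 1 ≤ 2 * (Fintype.card α * x) := by
    have := Real.abs_exp_sub_one_le (x := Fintype.card α * x)
      (by rw [abs_of_nonneg hnx0]; exact hx1)
    rw [abs_of_nonneg hnx0] at this
    exact (le_abs_self _).trans this
  linarith

/-- small sets have a vertex of degree `O(log n)` -/
theorem Pr_sparse (h0 : 0 ≤ p) (h1 : p ≤ 1) {amax K : ℝ} (hn : 1 ≤ Fintype.card α)
    (hK : p * amax ≤ K * Real.log (Fintype.card α)) (D0 : ℕ)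
    (hD : 2 * (K + 2) * Real.log (Fintype.card α) ≤ D0 + 1) :
    Pr p (fun ω : Sym2 α → Bool => ¬ LocSp (Gr ω) amax D0) ≤ 2 / Fintype.card α := by
  classical
  set n : ℝ := (Fintype.card α : ℝ) with hnd
  have hn1 : 1 ≤ n := by rw [hnd]; exact_mod_cast hn
  have hn0 : 0 < n := by linarith
  have hlog : 0 ≤ Real.log n := Real.log_nonneg hn1
  have hx : (0 : ℝ) ≤ (n ^ 2)⁻¹ := by positivity
  have hnx : n * (n ^ 2)⁻¹ = 1 / n := by field_simp
  have hmain := Pr_exists_set_le (α := α) (ι := Sym2 α) h0 h1 hx (by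
      rw [← hnd, hnx, div_le_one hn0]
      exact hn1)
    (fun A ω => (A.card : ℝ) ≤ amax ∧ ∀ v ∈ A, D0 + 1 ≤ dg (Gr ω) v A) ?_
  · rw [← hnd, hnx] at hmain
    refine le_trans (Pr_mono h0 h1 fun ω hω => ?_) (hmain.trans (le_of_eq (by ring)))
    unfold LocSp at hω
    push Not at hω
    obtain ⟨A, hA, hAm, hd⟩ := hω
    exact ⟨A, hA, hAm, fun v hv => hd v hv⟩
  · intro A hA
    by_cases hAm : (A.card : ℝ) ≤ amax
    · set a : ℝ := (A.card : ℝ) with ha
      have ha0 : 0 ≤ a := by positivity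
      have h2 : Pr p (fun ω : Sym2 α → Bool => (a ≤ amax ∧ ∀ v ∈ A, D0 + 1 ≤ dg (Gr ω) v A)) ≤
          Pr p (fun ω : Sym2 α → Bool => 2 * p * ((ls_T A).card : ℝ) + 2 * a * Real.log n ≤
            (cnt ω (ls_T A) : ℝ)) := by
        refine Pr_mono h0 h1 fun ω hω => ?_
        have hd := ls_double ω A (D0 + 1) hω.2
        have hd' : ((D0 : ℝ) + 1) * a ≤ 2 * (((ls_T A).filter fun e => ω e = true).card : ℝ) := by
          rw [ha]
          exact_mod_cast hd
        have hc : ((ls_T A).card : ℝ) ≤ a * a / 2 := by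
          rw [ls_card_T, Nat.cast_choose_two]
          nlinarith
        have h3 : p * a ≤ K * Real.log n := (mul_le_mul_of_nonneg_left hAm h0).trans hK
        have h4 : 2 * p * ((ls_T A).card : ℝ) ≤ a * (K * Real.log n) := by
          calc 2 * p * ((ls_T A).card : ℝ) ≤ 2 * p * (a * a / 2) :=
                mul_le_mul_of_nonneg_left hc (by positivity)
            _ = a * (p * a) := by ring
            _ ≤ a * (K * Real.log n) := mul_le_mul_of_nonneg_left h3 ha0
        have h5 : a * (2 * (K + 2) * Real.log n) ≤ a * (D0 + 1) :=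
          mul_le_mul_of_nonneg_left hD ha0
        show _ ≤ (((ls_T A).filter fun e => ω e = true).card : ℝ)
        nlinarith
      refine h2.trans ((chern_up h0 h1 _ _).trans (le_of_eq ?_))
      rw [inv_pow, ← pow_mul, Real.exp_neg]
      congr 1
      rw [← Real.rpow_natCast, Real.rpow_def_of_pos hn0]
      congr 1
      push_cast
      rw [← ha]
      ring
    · have : Pr p (fun ω : Sym2 α → Bool => ((A.card : ℝ) ≤ amax ∧
          ∀ v ∈ A, D0 + 1 ≤ dg (Gr ω) v A)) ≤ Ex p (fun _ : Sym2 α → Bool => (0 : ℝ)) :=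
        Ex_mono h0 h1 fun ω => le_of_eq (ind_false fun h => hAm h.1)
      rw [Ex_const] at this
      exact this.trans (by positivity)

/-- two disjoint sets of `h` vertices are joined by an edge -/
def BigPairs (G : SimpleGraph α) (h : ℕ) : Prop :=
  ∀ A B : Finset α, Disjoint A B → A.card = h → B.card = h → ∃ a ∈ A, ∃ b ∈ B, G.Adj a b

theorem Pr_bigPairs (h0 : 0 ≤ p) (h1 : p ≤ 1) (hn : 1 ≤ Fintype.card α) (h : ℕ) :
    Pr p (fun ω : Sym2 α → Bool => ¬ BigPairs (Gr ω) h) ≤
      Real.exp (2 * h * Real.log (Fintype.card α) - p * h * h) := by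
  classical
  set n : ℝ := (Fintype.card α : ℝ) with hnd
  have hn1 : 1 ≤ n := by rw [hnd]; exact_mod_cast hn
  have hn0 : 0 < n := by linarith
  have hone : ∀ A B : Finset α, Disjoint A B → A.card = h → B.card = h →
      Pr p (fun ω : Sym2 α → Bool => ¬ ∃ a ∈ A, ∃ b ∈ B, (Gr ω).Adj a b) ≤
        Real.exp (-(p * h * h)) := by
    intro A B hAB hA hB
    have hcard : ((A ×ˢ B).image fun q => s(q.1, q.2)).card = h * h := by
      rw [card_image_of_injOn, card_product, hA, hB]
      rintro ⟨a, b⟩ hq ⟨a', b'⟩ hq' heq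
      rw [coe_product, Set.mem_prod, mem_coe, mem_coe] at hq hq'
      have h3 := sym2_inj hq.1 hq'.1 (disjoint_right.mp hAB hq.2) (disjoint_right.mp hAB hq'.2) heq
      exact Prod.ext h3.1 h3.2
    calc Pr p (fun ω : Sym2 α → Bool => ¬ ∃ a ∈ A, ∃ b ∈ B, (Gr ω).Adj a b)
        ≤ Pr p (fun ω : Sym2 α → Bool => ∀ e ∈ (A ×ˢ B).image fun q => s(q.1, q.2),
            ω e = false) := by
          refine Pr_mono h0 h1 fun ω hω e he => ?_
          rw [mem_image] at he
          obtain ⟨⟨a, b⟩, hq, rfl⟩ := he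
          rw [mem_product] at hq
          by_contra hon
          refine hω ⟨a, hq.1, b, hq.2, ?_, by simpa using hon⟩
          rintro rfl
          exact disjoint_left.mp hAB hq.1 hq.2
      _ = (1 - p) ^ (h * h) := by rw [Pr_all_off, hcard]
      _ ≤ Real.exp (-p) ^ (h * h) := by
          apply pow_le_pow_left₀ (by linarith)
          have := Real.add_one_le_exp (-p)
          linarith
      _ = Real.exp (-(p * h * h)) := by
          rw [← Real.exp_nat_mul]
          congr 1
          push_cast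
          ring
  have hchoose : ((Fintype.card α).choose h : ℝ) ≤ Real.exp (h * Real.log n) := by
    calc ((Fintype.card α).choose h : ℝ) ≤ ((Fintype.card α ^ h : ℕ) : ℝ) := by
          exact_mod_cast Nat.choose_le_pow _ _
      _ = n ^ h := by push_cast; rfl
      _ = Real.exp (h * Real.log n) := by
          rw [Real.exp_nat_mul, Real.exp_log hn0]
  calc Pr p (fun ω : Sym2 α → Bool => ¬ BigPairs (Gr ω) h)
      ≤ Pr p (fun ω : Sym2 α → Bool => ∃ q ∈ powersetCard h (univ : Finset α) ×ˢ
          powersetCard h (univ : Finset α), Disjoint q.1 q.2 ∧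
            ¬ ∃ a ∈ q.1, ∃ b ∈ q.2, (Gr ω).Adj a b) := by
        refine Pr_mono h0 h1 fun ω hω => ?_
        unfold BigPairs at hω
        by_contra hcon
        apply hω
        intro A B hAB hA hB
        by_contra hc
        exact hcon ⟨(A, B), mem_product.mpr ⟨mem_powersetCard.mpr ⟨subset_univ _, hA⟩,
          mem_powersetCard.mpr ⟨subset_univ _, hB⟩⟩, hAB, hc⟩
    _ ≤ ∑ q ∈ powersetCard h (univ : Finset α) ×ˢ powersetCard h (univ : Finset α),
          Pr p (fun ω : Sym2 α → Bool => Disjoint q.1 q.2 ∧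
            ¬ ∃ a ∈ q.1, ∃ b ∈ q.2, (Gr ω).Adj a b) := Pr_exists_le h0 h1 _ _
    _ ≤ ∑ _q ∈ powersetCard h (univ : Finset α) ×ˢ powersetCard h (univ : Finset α),
          Real.exp (-(p * h * h)) := by
        refine sum_le_sum fun q hq => ?_
        rw [mem_product, mem_powersetCard, mem_powersetCard] at hq
        by_cases hd : Disjoint q.1 q.2
        · exact (Pr_mono h0 h1 fun ω hω => hω.2).trans (hone q.1 q.2 hd hq.1.2 hq.2.2)
        · have : Pr p (fun ω : Sym2 α → Bool => Disjoint q.1 q.2 ∧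
            ¬ ∃ a ∈ q.1, ∃ b ∈ q.2, (Gr ω).Adj a b) ≤ Ex p (fun _ : Sym2 α → Bool => (0 : ℝ)) :=
            Ex_mono h0 h1 fun ω => le_of_eq (ind_false fun h => hd h.1)
          rw [Ex_const] at this
          exact this.trans (Real.exp_pos _).le
    _ = ((Fintype.card α).choose h : ℝ) * ((Fintype.card α).choose h : ℝ) *
          Real.exp (-(p * h * h)) := by
        rw [sum_const, nsmul_eq_mul, card_product, card_powersetCard, card_univ]
        push_cast
        ring
    _ ≤ Real.exp (h * Real.log n) * Real.exp (h * Real.log n) * Real.exp (-(p * h * h)) := by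
        gcongr
    _ = Real.exp (2 * h * Real.log n - p * h * h) := by
        rw [← Real.exp_add, ← Real.exp_add]
        congr 1
        ring

/-- every set of `s` vertices has at least `D` common neighbours -/
def Common (G : SimpleGraph α) (s : ℕ) (D : ℝ) : Prop :=
  ∀ S : Finset α, S.card = s → ∃ J : Finset α, D ≤ J.card ∧ ∀ v ∈ J, ∀ u ∈ S, G.Adj v u

theorem Pr_common (h0 : 0 ≤ p) (h1 : p ≤ 1) (s : ℕ) (D : ℝ)
    (hD : 2 * D ≤ ((Fintype.card α : ℝ) - s) * p ^ s) :
    Pr p (fun ω : Sym2 α → Bool => ¬ Common (Gr ω) s D) ≤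
      (Fintype.card α : ℝ) ^ s * Real.exp (-(D / 8)) := by
  classical
  have hone : ∀ S : Finset α, S.card = s → Pr p (fun ω : Sym2 α → Bool =>
      ¬ ∃ J : Finset α, D ≤ J.card ∧ ∀ v ∈ J, ∀ u ∈ S, (Gr ω).Adj v u) ≤
        Real.exp (-(D / 8)) := by
    intro S hS
    refine le_trans (Pr_mono h0 h1 (B := fun ω : Sym2 α → Bool => ¬ ∃ J ⊆ (Sᶜ : Finset α),
      D ≤ (J.card : ℝ) ∧ ∀ v ∈ J, ∀ u ∈ S, ω s(u, v) = true) fun ω hω => ?_) ?_
    · rintro ⟨J, hJ, hJD, hadj⟩
      refine hω ⟨J, hJD, fun v hv u hu => ⟨?_, ?_⟩⟩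
      · rintro rfl
        exact (mem_compl.mp (hJ hv)) hu
      · rw [Sym2.eq_swap]
        exact hadj v hv u hu
    · refine Pr_blocks_lt h0 h1 (Sᶜ : Finset α) (fun v => S.image fun u => s(u, v)) ?_
        (fun v ω => ∀ u ∈ S, ω s(u, v) = true) ?_ (p ^ s) ?_ D ?_
      · intro v hv v' hv' hne
        rw [disjoint_left]
        intro e he he'
        rw [mem_image] at he he'
        obtain ⟨u, hu, rfl⟩ := he
        obtain ⟨u', hu', h⟩ := he'
        exact hne (sym2_inj hu' hu (mem_compl.mp hv') (mem_compl.mp hv) h).2.symm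
      · intro v _ ω ω' h
        refine forall_congr' fun u => forall_congr' fun hu => ?_
        rw [h _ (mem_image_of_mem _ hu)]
      · intro v hv
        have hcard : (S.image fun u => s(u, v)).card = s := by
          rw [card_image_of_injective, hS]
          intro u u' h
          exact Sym2.congr_left.mp h
        have h2 := Pr_all_on (p := p) (S.image fun u => s(u, v))
        rw [hcard] at h2
        rw [← h2]
        congr 1
        funext ω
        apply propext
        constructor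
        · intro h e he
          rw [mem_image] at he
          obtain ⟨u, hu, rfl⟩ := he
          exact h u hu
        · intro h u hu
          exact h _ (mem_image_of_mem _ hu)
      · have hc : ((Sᶜ : Finset α).card : ℝ) = (Fintype.card α : ℝ) - s := by
          rw [card_compl, hS, Nat.cast_sub]
          rw [← hS]
          exact card_le_univ S
        rw [hc]
        exact hD
  calc Pr p (fun ω : Sym2 α → Bool => ¬ Common (Gr ω) s D)
      ≤ Pr p (fun ω : Sym2 α → Bool => ∃ S ∈ powersetCard s (univ : Finset α),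
          ¬ ∃ J : Finset α, D ≤ J.card ∧ ∀ v ∈ J, ∀ u ∈ S, (Gr ω).Adj v u) := by
        refine Pr_mono h0 h1 fun ω hω => ?_
        unfold Common at hω
        by_contra hcon
        apply hω
        intro S hS
        by_contra hc
        exact hcon ⟨S, mem_powersetCard.mpr ⟨subset_univ _, hS⟩, hc⟩
    _ ≤ ∑ S ∈ powersetCard s (univ : Finset α), Pr p (fun ω : Sym2 α → Bool =>
          ¬ ∃ J : Finset α, D ≤ J.card ∧ ∀ v ∈ J, ∀ u ∈ S, (Gr ω).Adj v u) :=
        Pr_exists_le h0 h1 _ _
    _ ≤ ∑ _S ∈ powersetCard s (univ : Finset α), Real.exp (-(D / 8)) :=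
        sum_le_sum fun S hS => hone S (mem_powersetCard.mp hS).2
    _ = ((Fintype.card α).choose s : ℝ) * Real.exp (-(D / 8)) := by
        rw [sum_const, nsmul_eq_mul, card_powersetCard, card_univ]
    _ ≤ _ := by
        refine mul_le_mul_of_nonneg_right ?_ (Real.exp_pos _).le
        exact_mod_cast Nat.choose_le_pow _ _

/-- The condition for the upper bound: for every looped clique `Q'` there is a nonempty set `M`
outside `Q'` such that every `c ∈ M` lies in a set `A` of at most `s` vertices all of whose common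
neighbours are in `M`. -/
def Trap {V : Type*} (E : V → V → Prop) (s : ℕ) : Prop :=
  ∀ Q' : Set V, (∀ a ∈ Q', ∀ b ∈ Q', E a b) → ∃ M : Set V, M.Nonempty ∧ Disjoint M Q' ∧
    ∀ c ∈ M, ∃ A : Finset V, c ∈ A ∧ A.card ≤ s ∧ ∀ d, (∀ a ∈ A, E a d) → d ∈ M

theorem no_surj_dom {V : Type*} [Fintype V] [DecidableEq V] (G : SimpleGraph α) (E : V → V → Prop)
    (hE : ∀ a b, E a b → E b a) (s : ℕ) (hsn : s ≤ Fintype.card α) (h D0 : ℕ) (amax D : ℝ)
    (hB : BigPairs G h) (hC : Common G s D) (hL : LocSp G amax D0)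
    (hD : (D0 : ℝ) < D) (hamax : (Fintype.card V : ℝ) * (2 * h) ≤ amax) (hT : Trap E s) :
    ¬ SurjHom E G := by
  classical
  rintro ⟨φ, hsurj, hφ⟩
  set cls : V → Finset α := fun c => univ.filter fun v => φ v = c with hcls
  set Q' : Set V := {c | 2 * h ≤ (cls c).card} with hQ'
  have hclique : ∀ a ∈ Q', ∀ b ∈ Q', E a b := by
    intro a ha b hb
    have ha' : 2 * h ≤ (cls a).card := ha
    have hb' : 2 * h ≤ (cls b).card := hb
    obtain ⟨A, hA, hAc⟩ := exists_subset_card_eq (by omega : h ≤ (cls a).card)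
    have hbA : h ≤ (cls b \ A).card := by
      have := le_card_sdiff A (cls b)
      omega
    obtain ⟨B, hB', hBc⟩ := exists_subset_card_eq hbA
    have hdisj : Disjoint A B := by
      rw [disjoint_right]
      intro v hv
      exact (mem_sdiff.mp (hB' hv)).2
    obtain ⟨x, hx, y, hy, hxy⟩ := hB A B hdisj hAc hBc
    have h1 := hφ x y hxy
    rwa [(mem_filter.mp (hA hx)).2, (mem_filter.mp (mem_sdiff.mp (hB' hy)).1).2] at h1
  obtain ⟨M, ⟨c₀, hc₀⟩, hMQ, hM⟩ := hT Q' hclique
  set MG : Finset α := univ.filter fun v => φ v ∈ M with hMG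
  have hne : MG.Nonempty := by
    obtain ⟨v, hv⟩ := hsurj c₀
    exact ⟨v, mem_filter.mpr ⟨mem_univ _, by rw [hv]; exact hc₀⟩⟩
  have hcard : (MG.card : ℝ) ≤ amax := by
    refine le_trans ?_ hamax
    have h1 : MG ⊆ (univ.filter fun c : V => c ∈ M).biUnion cls := by
      intro v hv
      exact mem_biUnion.mpr ⟨φ v, mem_filter.mpr ⟨mem_univ _, (mem_filter.mp hv).2⟩,
        mem_filter.mpr ⟨mem_univ _, rfl⟩⟩
    have h2 : MG.card ≤ (univ.filter fun c : V => c ∈ M).card * (2 * h) := by
      refine (card_le_card h1).trans (card_biUnion_le_card_mul _ _ _ fun c hc => ?_)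
      by_contra hcon
      push Not at hcon
      exact Set.disjoint_left.mp hMQ (mem_filter.mp hc).2 (show 2 * h ≤ (cls c).card from hcon.le)
    have h3 : MG.card ≤ Fintype.card V * (2 * h) :=
      h2.trans (Nat.mul_le_mul_right _ (card_le_univ _))
    exact_mod_cast h3
  obtain ⟨x, hx, hdeg⟩ := hL MG hne hcard
  have hxM : φ x ∈ M := (mem_filter.mp hx).2
  obtain ⟨A, hcA, hAs, hAM⟩ := hM (φ x) hxM
  choose r hr using hsurj
  set r' : V → α := fun a => if a = φ x then x else r a with hr'
  have hr'φ : ∀ a, φ (r' a) = a := by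
    intro a
    show φ (if a = φ x then x else r a) = a
    by_cases ha : a = φ x
    · rw [if_pos ha, ha]
    · rw [if_neg ha, hr]
  obtain ⟨S, hAS, -, hSc⟩ := exists_subsuperset_card_eq (subset_univ (A.image r'))
    (card_image_le.trans hAs) (by rw [card_univ]; exact hsn)
  obtain ⟨J, hJD, hJ⟩ := hC S hSc
  have hxS : x ∈ S := by
    apply hAS
    rw [mem_image]
    exact ⟨φ x, hcA, if_pos rfl⟩
  have hsub : J ⊆ MG.filter fun u => G.Adj x u := by
    intro v hv
    rw [mem_filter]
    refine ⟨?_, (hJ v hv x hxS).symm⟩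
    refine mem_filter.mpr ⟨mem_univ _, hAM _ fun a ha => ?_⟩
    have h1 := hφ v (r' a) (hJ v hv _ (hAS (mem_image_of_mem _ ha)))
    rw [hr'φ] at h1
    exact hE _ _ h1
  have h1 : J.card ≤ D0 := (card_le_card hsub).trans (by
    unfold dg at hdeg
    convert hdeg)
  have h2 : (J.card : ℝ) ≤ D0 := by exact_mod_cast h1
  linarith

end Pool.MP_65847d_pr
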