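import Pool.Agent.Lib.MP_65847d_pr.Struct
import Pool.Agent.Lib.MP_1bacea_co.Low.LProb
import Pool.Agent.Lib.MP_1bacea_co.Bridge
import Pool.Agent.Lib.MP_1bacea_co.MaxDeg

/-!
# The critical event: a lower bound for the probability that the edges at a tuple are conflict-free
-/

set_option autoImplicit false
set_option linter.unusedSectionVars false

open Finset

namespace Pool.MP_65847d_pr

open Pool.MP_1bacea_co

section general

variable {ι : Type*} [Fintype ι] [DecidableEq ι] {p : ℝ}

/-- the switched on elements of `T` are independent in `Γ` -/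
def Ind (Γ : ι → ι → Prop) (T : Finset ι) (ω : ι → Bool) : Prop :=
  ∀ a ∈ T, ∀ b ∈ T, a ≠ b → Γ a b → ¬ (ω a = true ∧ ω b = true)

theorem Pr_indep (h0 : 0 ≤ p) (h1 : p ≤ 1) (Γ : ι → ι → Prop) (hΓ : ∀ a b, Γ a b → Γ b a)
    (D : ℕ) (hD : p ^ 2 * D ≤ 1) (T : Finset ι)
    (hdeg : ∀ a ∈ T, ∀ N ⊆ T, (∀ b ∈ N, Γ a b) → N.card ≤ D) :
    (1 - p ^ 2 * D) ^ T.card ≤ Pr p (Ind Γ T) := by
  classical
  induction T using Finset.induction_on with
  | empty =>
    have : Pr p (Ind Γ (∅ : Finset ι)) = 1 := by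
      have h : Pr p (fun ω => ¬ Ind Γ (∅ : Finset ι) ω) = 0 := by
        refine le_antisymm ?_ (Pr_nonneg h0 h1 _)
        have : Pr p (fun ω : ι → Bool => ¬ Ind Γ (∅ : Finset ι) ω) ≤ Ex p (fun _ => (0 : ℝ)) :=
          Ex_mono h0 h1 fun ω => le_of_eq (ind_false fun h => h fun a ha => absurd ha (notMem_empty a))
        rwa [Ex_const] at this
      have h2 := Pr_not p (Ind Γ (∅ : Finset ι))
      linarith
    rw [this]
    simp
  | insert v T hv ih =>
    have ih' := ih fun a ha N hN => hdeg a (mem_insert_of_mem ha) N (hN.trans (subset_insert _ _))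
    set N := T.filter fun b => Γ v b with hN
    have hNcard : N.card ≤ D := hdeg v (mem_insert_self _ _) N
      ((filter_subset _ _).trans (subset_insert _ _)) fun b hb => (mem_filter.mp hb).2
    -- the four functions
    let f : (ι → Bool) → ℝ := fun ω => ind (Ind Γ T ω)
    let f' : (ι → Bool) → ℝ := fun ω => ind (Ind Γ T ω ∧ ∀ i ∈ N, ω i = false)
    have hdepf : DepOn (↑T : Set ι) f := by
      intro ω ω' h
      have : Ind Γ T ω ↔ Ind Γ T ω' := by
        unfold Ind
        refine forall_congr' fun a => forall_congr' fun ha => forall_congr' fun b =>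
          forall_congr' fun hb => ?_
        rw [h a (mem_coe.mpr ha), h b (mem_coe.mpr hb)]
      show ind _ = ind _
      rw [this]
    have hdepf' : DepOn (↑T : Set ι) f' := by
      intro ω ω' h
      have h1 : Ind Γ T ω ↔ Ind Γ T ω' := by
        unfold Ind
        refine forall_congr' fun a => forall_congr' fun ha => forall_congr' fun b =>
          forall_congr' fun hb => ?_
        rw [h a (mem_coe.mpr ha), h b (mem_coe.mpr hb)]
      have h2 : (∀ i ∈ N, ω i = false) ↔ ∀ i ∈ N, ω' i = false := by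
        refine forall_congr' fun a => forall_congr' fun ha => ?_
        rw [h a (mem_coe.mpr (filter_subset _ _ ha))]
      show ind _ = ind _
      rw [h1, h2]
    have hdisj : Disjoint (↑({v} : Finset ι) : Set ι) (↑T : Set ι) := by
      rw [disjoint_coe, disjoint_singleton_left]
      exact hv
    have hdv : ∀ b : Bool, DepOn (↑({v} : Finset ι) : Set ι) (fun ω => ind (∀ i ∈ ({v} : Finset ι), ω i = b)) := by
      intro b ω ω' h
      have : (∀ i ∈ ({v} : Finset ι), ω i = b) ↔ ∀ i ∈ ({v} : Finset ι), ω' i = b := by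
        refine forall_congr' fun a => forall_congr' fun ha => ?_
        rw [h a (mem_coe.mpr ha)]
      show ind _ = ind _
      rw [this]
    have hoff : Ex p (fun ω : ι → Bool => ind (∀ i ∈ ({v} : Finset ι), ω i = false)) = 1 - p := by
      have := Pr_all_off (p := p) ({v} : Finset ι)
      rw [card_singleton, pow_one] at this
      exact this
    have hon : Ex p (fun ω : ι → Bool => ind (∀ i ∈ ({v} : Finset ι), ω i = true)) = p := by
      have := Pr_all_on (p := p) ({v} : Finset ι)
      rw [card_singleton, pow_one] at this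
      exact this
    -- pointwise lower bound
    have hpt : Ex p (fun ω => ind (∀ i ∈ ({v} : Finset ι), ω i = false) * f ω) +
        Ex p (fun ω => ind (∀ i ∈ ({v} : Finset ι), ω i = true) * f' ω) ≤
        Pr p (Ind Γ (insert v T)) := by
      rw [← Ex_add]
      refine Ex_mono h0 h1 fun ω => ?_
      by_cases hω : ω v = true
      · have e1 : ind (∀ i ∈ ({v} : Finset ι), ω i = false) = 0 := by
          apply ind_false
          intro h
          have := h v (mem_singleton_self v)
          rw [hω] at this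
          exact Bool.noConfusion this
        have e2 : ind (∀ i ∈ ({v} : Finset ι), ω i = true) = 1 := by
          apply ind_true
          intro i hi
          rw [mem_singleton.mp hi, hω]
        rw [e1, e2, zero_mul, zero_add, one_mul]
        refine ind_mono fun h => ?_
        intro a ha b hb hab hΓab hon'
        rw [mem_insert] at ha hb
        rcases ha with rfl | ha
        · rcases hb with rfl | hb
          · exact hab rfl
          · have := h.2 b (mem_filter.mpr ⟨hb, hΓab⟩)
            rw [hon'.2] at this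
            exact Bool.noConfusion this
        · rcases hb with rfl | hb
          · have := h.2 a (mem_filter.mpr ⟨ha, hΓ _ _ hΓab⟩)
            rw [hon'.1] at this
            exact Bool.noConfusion this
          · exact h.1 a ha b hb hab hΓab hon'
      · have e2 : ind (∀ i ∈ ({v} : Finset ι), ω i = true) = 0 := by
          apply ind_false
          intro h
          exact hω (h v (mem_singleton_self v))
        have e1 : ind (∀ i ∈ ({v} : Finset ι), ω i = false) = 1 := by
          apply ind_true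
          intro i hi
          rw [mem_singleton.mp hi]
          exact Bool.eq_false_iff.mpr hω
        rw [e1, e2, zero_mul, add_zero, one_mul]
        refine ind_mono fun h => ?_
        intro a ha b hb hab hΓab hon'
        rw [mem_insert] at ha hb
        rcases ha with rfl | ha
        · exact hω hon'.1
        · rcases hb with rfl | hb
          · exact hω hon'.2
          · exact h a ha b hb hab hΓab hon'
    rw [Ex_mul_of_disjoint p hdisj (hdv false) hdepf, Ex_mul_of_disjoint p hdisj (hdv true) hdepf',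
      hoff, hon] at hpt
    -- lower bound for `E f'`
    have hf' : (1 - p) ^ D * Ex p f ≤ Ex p f' := by
      have hdisj2 : Disjoint (↑N : Set ι) (↑(T \ N) : Set ι) := by
        rw [disjoint_coe]
        exact disjoint_sdiff
      have hd1 : DepOn (↑N : Set ι) (fun ω => ind (∀ i ∈ N, ω i = false)) := by
        intro ω ω' h
        have : (∀ i ∈ N, ω i = false) ↔ ∀ i ∈ N, ω' i = false := by
          refine forall_congr' fun a => forall_congr' fun ha => ?_
          rw [h a (mem_coe.mpr ha)]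
        show ind _ = ind _
        rw [this]
      have hd2 : DepOn (↑(T \ N) : Set ι) (fun ω => ind (Ind Γ (T \ N) ω)) := by
        intro ω ω' h
        have : Ind Γ (T \ N) ω ↔ Ind Γ (T \ N) ω' := by
          unfold Ind
          refine forall_congr' fun a => forall_congr' fun ha => forall_congr' fun b =>
            forall_congr' fun hb => ?_
          rw [h a (mem_coe.mpr ha), h b (mem_coe.mpr hb)]
        show ind _ = ind _
        rw [this]
      have h2 : Ex p (fun ω => ind (∀ i ∈ N, ω i = false) * ind (Ind Γ (T \ N) ω)) ≤ Ex p f' := by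
        refine Ex_mono h0 h1 fun ω => ?_
        by_cases hω : ∀ i ∈ N, ω i = false
        · rw [ind_true hω, one_mul]
          refine ind_mono fun h => ⟨?_, hω⟩
          intro a ha b hb hab hΓab hon'
          have ha' : a ∉ N := fun h' => by
            have := hω a h'
            rw [hon'.1] at this
            exact Bool.noConfusion this
          have hb' : b ∉ N := fun h' => by
            have := hω b h'
            rw [hon'.2] at this
            exact Bool.noConfusion this
          exact h a (mem_sdiff.mpr ⟨ha, ha'⟩) b (mem_sdiff.mpr ⟨hb, hb'⟩) hab hΓab hon'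
        · rw [ind_false hω, zero_mul]
          exact ind_nonneg _
      rw [Ex_mul_of_disjoint p hdisj2 hd1 hd2] at h2
      have h3 : Ex p (fun ω : ι → Bool => ind (∀ i ∈ N, ω i = false)) = (1 - p) ^ N.card :=
        Pr_all_off N
      rw [h3] at h2
      refine le_trans ?_ h2
      have h4 : (1 - p) ^ D ≤ (1 - p) ^ N.card :=
        pow_le_pow_of_le_one (by linarith) (by linarith) hNcard
      have h5 : Ex p f ≤ Ex p (fun ω => ind (Ind Γ (T \ N) ω)) := by
        refine Ex_mono h0 h1 fun ω => ind_mono fun h => ?_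
        intro a ha b hb
        exact h a (mem_sdiff.mp ha).1 b (mem_sdiff.mp hb).1
      exact mul_le_mul h4 h5 (Ex_nonneg h0 h1 fun ω => ind_nonneg _)
        (pow_nonneg (by linarith) _)
    have hbern : 1 - D * p ≤ (1 - p) ^ D := by
      have := one_add_mul_le_pow (a := -p) (by linarith) D
      calc 1 - D * p = 1 + D * (-p) := by ring
        _ ≤ (1 + -p) ^ D := this
        _ = (1 - p) ^ D := by ring
    have hf0 : 0 ≤ Ex p f := Ex_nonneg h0 h1 fun ω => ind_nonneg _
    rw [card_insert_of_notMem hv, pow_succ]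
    have hD0 : (0 : ℝ) ≤ D := Nat.cast_nonneg D
    calc (1 - p ^ 2 * D) ^ T.card * (1 - p ^ 2 * D) ≤ Ex p f * (1 - p ^ 2 * D) :=
          mul_le_mul_of_nonneg_right ih' (by linarith)
      _ = (1 - p) * Ex p f + p * ((1 - D * p) * Ex p f) := by ring
      _ ≤ (1 - p) * Ex p f + p * Ex p f' := by
          refine add_le_add_right (mul_le_mul_of_nonneg_left ?_ h0) _
          exact (mul_le_mul_of_nonneg_right hbern hf0).trans hf'
      _ ≤ _ := hpt

end general

section graph

variable {α K : Type*} [Fintype α] [DecidableEq α] [Fintype K] [DecidableEq K] {p : ℝ}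

theorem Walk.symm {E : α → α → Prop} (hE : ∀ a b, E a b → E b a) {k : ℕ} {a b : α}
    (h : Walk E k a b) : Walk E k b a := by
  obtain ⟨x, h0, hk, hx⟩ := Walk.seq k a b h
  have h1 := Walk.of_seq (E := E) k (fun i => x (k - i)) (fun i hi => by
    have h2 := hx (k - (i + 1)) (by omega)
    rw [show k - (i + 1) + 1 = k - i by omega] at h2
    exact hE _ _ h2)
  simpa [h0, hk] using h1

theorem walk_deg (A : α → α → Prop) (Δ : ℕ)
    (h : ∀ a, ∀ N : Finset α, (∀ b ∈ N, A a b) → N.card ≤ Δ) :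
    ∀ (k : ℕ) (a : α) (N : Finset α), (∀ b ∈ N, Walk A k a b) → N.card ≤ Δ ^ k := by
  classical
  intro k
  induction k with
  | zero =>
    intro a N hN
    have : N ⊆ {a} := fun b hb => by
      have : a = b := hN b hb
      rw [this]
      exact mem_singleton_self b
    simpa using card_le_card this
  | succ k ih =>
    intro a N hN
    have hsub : N ⊆ (univ.filter fun c => A a c).biUnion fun c => N.filter fun b => Walk A k c b := by
      intro b hb
      obtain ⟨c, hc, hcb⟩ := hN b hb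
      exact mem_biUnion.mpr ⟨c, mem_filter.mpr ⟨mem_univ _, hc⟩, mem_filter.mpr ⟨hb, hcb⟩⟩
    calc N.card ≤ _ := card_le_card hsub
      _ ≤ (univ.filter fun c => A a c).card * Δ ^ k :=
          card_biUnion_le_card_mul _ _ _ fun c _ => ih c _ fun b hb => (mem_filter.mp hb).2
      _ ≤ Δ * Δ ^ k := Nat.mul_le_mul_right _ (h a _ fun b hb => (mem_filter.mp hb).2)
      _ = Δ ^ (k + 1) := by ring

/-- the pairs between the tuple `w` and the complement of `U` -/
def bipBits (U : Finset α) (w : K → α) : Finset (Sym2 α) :=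
  ((univ : Finset K) ×ˢ Uᶜ).image fun q => s(w q.1, q.2)

theorem mem_bipBits {U : Finset α} {w : K → α} {f : K} {y : α} (hy : y ∉ U) :
    s(w f, y) ∈ bipBits U w :=
  mem_image.mpr ⟨(f, y), mem_product.mpr ⟨mem_univ _, mem_compl.mpr hy⟩, rfl⟩

theorem sym2_inj {U : Finset α} {a b y z : α} (ha : a ∈ U) (_hb : b ∈ U) (_hy : y ∉ U) (hz : z ∉ U)
    (h : s(a, y) = s(b, z)) : a = b ∧ y = z := by
  rw [Sym2.eq_iff] at h
  rcases h with h | ⟨h1, h2⟩
  · exact h
  · exact absurd (h1 ▸ ha) hz

/-- two different switched on pairs between the tuple `w` and the complement of `U`, with related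
ends -/
def CritR (Rel : α → α → Prop) (U : Finset α) (w : K → α) (ω : Sym2 α → Bool) : Prop :=
  ∃ f f' y y', (f, y) ≠ (f', y') ∧ y ∉ U ∧ y' ∉ U ∧ ω s(w f, y) = true ∧ ω s(w f', y') = true ∧
    Rel y y'

theorem Pr_not_critR (h0 : 0 ≤ p) (h1 : p ≤ 1) (Rel : α → α → Prop)
    (hsymm : ∀ a b, Rel a b → Rel b a) (U : Finset α) (w : K → α) (hw : Function.Injective w)
    (hwU : ∀ f, w f ∈ U) (D : ℕ)
    (hdeg : ∀ y, ∀ N : Finset α, (∀ b ∈ N, Rel y b) → N.card ≤ D)
    (hD : p ^ 2 * ((Fintype.card K * D : ℕ) : ℝ) ≤ 1) :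
    (1 - p ^ 2 * ((Fintype.card K * D : ℕ) : ℝ)) ^ (Fintype.card K * Fintype.card α) ≤
      Pr p (fun ω => ¬ CritR Rel U w ω) := by
  classical
  let Γ : Sym2 α → Sym2 α → Prop := fun e e' => ∃ f y f' y', e = s(w f, y) ∧ e' = s(w f', y') ∧
    y ∉ U ∧ y' ∉ U ∧ Rel y y'
  have h2 := Pr_indep h0 h1 Γ (fun e e' ⟨f, y, f', y', h3, h4, h5, h6, h7⟩ =>
    ⟨f', y', f, y, h4, h3, h6, h5, hsymm _ _ h7⟩) (Fintype.card K * D) hD (bipBits U w) ?_
  · refine le_trans ?_ (h2.trans (Pr_mono h0 h1 fun ω hω => ?_))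
    · refine pow_le_pow_of_le_one (by linarith) ?_ ?_
      · have : 0 ≤ p ^ 2 * ((Fintype.card K * D : ℕ) : ℝ) := by positivity
        linarith
      · unfold bipBits
        refine card_image_le.trans ?_
        rw [card_product, card_univ]
        exact Nat.mul_le_mul_left _ (card_le_univ _)
    · rintro ⟨f, f', y, y', hne, hy, hy', hon, hon', hR⟩
      refine hω _ (mem_bipBits (f := f) hy) _ (mem_bipBits (f := f') hy') ?_
        ⟨f, y, f', y', rfl, rfl, hy, hy', hR⟩ ⟨hon, hon'⟩
      intro h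
      have h3 := sym2_inj (hwU f) (hwU f') hy hy' h
      exact hne (Prod.ext (hw h3.1) h3.2)
  · intro e he N hN hNΓ
    unfold bipBits at he
    rw [mem_image] at he
    obtain ⟨⟨f, y⟩, hq, rfl⟩ := he
    rw [mem_product, mem_compl] at hq
    have hy : y ∉ U := hq.2
    have hsub : N ⊆ ((univ : Finset K) ×ˢ (univ.filter fun b => Rel y b)).image
        fun q => s(w q.1, q.2) := by
      intro e' he'
      obtain ⟨f₁, y₁, f', y', h3, h4, h5, h6, h7⟩ := hNΓ e' he'
      have h8 := sym2_inj (hwU f) (hwU f₁) hy h5 h3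
      rw [← h8.2] at h7
      exact mem_image.mpr ⟨(f', y'), mem_product.mpr ⟨mem_univ _, mem_filter.mpr ⟨mem_univ _, h7⟩⟩,
        h4.symm⟩
    calc N.card ≤ _ := card_le_card hsub
      _ ≤ _ := card_image_le
      _ = Fintype.card K * (univ.filter fun b => Rel y b).card := by
          rw [card_product, card_univ]
      _ ≤ Fintype.card K * D :=
          Nat.mul_le_mul_left _ (hdeg y _ fun b hb => (mem_filter.mp hb).2)

theorem Pr_all_critR (h0 : 0 ≤ p) (h1 : p ≤ 1) (Rel : α → α → Prop)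
    (hsymm : ∀ a b, Rel a b → Rel b a) (U : Finset α) {t : ℕ} (W : Fin t → K → α)
    (hW : ∀ i f i' f', W i f = W i' f' → i = i' ∧ f = f')
    (hWU : ∀ i f, W i f ∈ U) (D : ℕ)
    (hdeg : ∀ y, ∀ N : Finset α, (∀ b ∈ N, Rel y b) → N.card ≤ D)
    (hD : p ^ 2 * ((Fintype.card K * D : ℕ) : ℝ) ≤ 1) :
    Pr p (fun ω => ∀ i, CritR Rel U (W i) ω) ≤
      (1 - (1 - p ^ 2 * ((Fintype.card K * D : ℕ) : ℝ)) ^ (Fintype.card K * Fintype.card α)) ^ t := by
  classical
  have hdisj : ∀ i ∈ (univ : Finset (Fin t)), ∀ i' ∈ (univ : Finset (Fin t)), i ≠ i' →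
      Disjoint (bipBits U (W i)) (bipBits U (W i')) := by
    intro i _ i' _ hne
    rw [disjoint_left]
    intro e he he'
    unfold bipBits at he he'
    rw [mem_image] at he he'
    obtain ⟨⟨f, y⟩, hq, rfl⟩ := he
    obtain ⟨⟨f', y'⟩, hq', h⟩ := he'
    rw [mem_product, mem_compl] at hq hq'
    have h3 := sym2_inj (hWU i' f') (hWU i f) hq'.2 hq.2 h
    exact hne (hW _ _ _ _ h3.1).1.symm
  have hdep : ∀ i ∈ (univ : Finset (Fin t)), ∀ ω ω' : Sym2 α → Bool,
      (∀ e ∈ bipBits U (W i), ω e = ω' e) → (CritR Rel U (W i) ω ↔ CritR Rel U (W i) ω') := by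
    intro i _ ω ω' h
    unfold CritR
    refine exists_congr fun f => exists_congr fun f' => exists_congr fun y =>
      exists_congr fun y' => ?_
    constructor
    · rintro ⟨hne, hy, hy', hon, hon', hR⟩
      exact ⟨hne, hy, hy', (h _ (mem_bipBits hy)) ▸ hon, (h _ (mem_bipBits hy')) ▸ hon', hR⟩
    · rintro ⟨hne, hy, hy', hon, hon', hR⟩
      exact ⟨hne, hy, hy', (h _ (mem_bipBits hy)).symm ▸ hon, (h _ (mem_bipBits hy')).symm ▸ hon',
        hR⟩
  have h2 := Pr_forall_blocks (p := p) (univ : Finset (Fin t)) (fun i => bipBits U (W i)) hdisj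
    (fun i => CritR Rel U (W i)) hdep
  have h3 : Pr p (fun ω => ∀ i, CritR Rel U (W i) ω) =
      Pr p (fun ω => ∀ i ∈ (univ : Finset (Fin t)), CritR Rel U (W i) ω) := by
    congr 1
    funext ω
    simp
  rw [h3, h2]
  calc ∏ i ∈ (univ : Finset (Fin t)), Pr p (CritR Rel U (W i))
      ≤ ∏ _i ∈ (univ : Finset (Fin t)),
        (1 - (1 - p ^ 2 * ((Fintype.card K * D : ℕ) : ℝ)) ^ (Fintype.card K * Fintype.card α)) := by
        refine prod_le_prod (fun i _ => Pr_nonneg h0 h1 _) fun i _ => ?_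
        have h4 := Pr_not_critR h0 h1 Rel hsymm U (W i) (fun f f' h => (hW _ _ _ _ h).2)
          (hWU i) D hdeg hD
        rw [Pr_not] at h4
        linarith
    _ = _ := by rw [prod_const, card_univ, Fintype.card_fin]

theorem Pr_all_crit (h0 : 0 ≤ p) (h1 : p ≤ 1) (m : ℕ) (U : Finset α) {t : ℕ} (W : Fin t → K → α)
    (hW : ∀ i f i' f', W i f = W i' f' → i = i' ∧ f = f')
    (hWU : ∀ i f, W i f ∈ U) (Δ : ℕ)
    (hD : p ^ 2 * ((Fintype.card K * Δ ^ (m - 2) : ℕ) : ℝ) ≤ 1) :
    Pr p (fun ω : Sym2 α → Bool => (∀ v, dg (Gr ω) v univ ≤ Δ) ∧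
        ∀ i, Crit (Gr ω) (↑U : Set α) m (W i)) ≤
      (1 - (1 - p ^ 2 * ((Fintype.card K * Δ ^ (m - 2) : ℕ) : ℝ)) ^
        (Fintype.card K * Fintype.card α)) ^ t := by
  classical
  have hnn : (0 : ℝ) ≤ p ^ 2 * ((Fintype.card K * Δ ^ (m - 2) : ℕ) : ℝ) := by positivity
  have hRHS : 0 ≤ (1 - (1 - p ^ 2 * ((Fintype.card K * Δ ^ (m - 2) : ℕ) : ℝ)) ^
        (Fintype.card K * Fintype.card α)) ^ t := by
    apply pow_nonneg
    have := pow_le_one₀ (n := Fintype.card K * Fintype.card α) (a := (1 - p ^ 2 *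
      ((Fintype.card K * Δ ^ (m - 2) : ℕ) : ℝ))) (by linarith) (by linarith)
    linarith
  set S : Finset (Sym2 α) := univ.filter fun e => ∀ i, e ∉ bipBits U (W i) with hS
  refine Pr_mix_le h0 h1 S fun ω₁ => ?_
  -- the inner bits
  have hin : ∀ ω₂ a b, a ∉ U → b ∉ U → mix S ω₁ ω₂ s(a, b) = ω₁ s(a, b) := by
    intro ω₂ a b ha hb
    have : s(a, b) ∈ S := by
      rw [hS, mem_filter]
      refine ⟨mem_univ _, fun i hi => ?_⟩
      unfold bipBits at hi
      rw [mem_image] at hi
      obtain ⟨⟨f, y⟩, -, h⟩ := hi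
      rw [Sym2.eq_iff] at h
      rcases h with h | h
      · exact ha (h.1 ▸ hWU i f)
      · exact hb (h.1 ▸ hWU i f)
    simp [mix, this]
  have hout : ∀ ω₂ i f y, y ∉ U → mix S ω₁ ω₂ s(W i f, y) = ω₂ s(W i f, y) := by
    intro ω₂ i f y hy
    have : s(W i f, y) ∉ S := by
      rw [hS, mem_filter]
      rintro ⟨-, h⟩
      exact h i (mem_bipBits hy)
    simp [mix, this]
  by_cases hd : ∀ a, a ∉ U → ∀ N : Finset α, (∀ b ∈ N, (Gr ω₁).Adj a b ∧ b ∉ U) → N.card ≤ Δ
  · set A : α → α → Prop := fun a b => (Gr ω₁).Adj a b ∧ a ∉ U ∧ b ∉ U with hA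
    have hAdeg : ∀ a, ∀ N : Finset α, (∀ b ∈ N, A a b) → N.card ≤ Δ := by
      intro a N hN
      rcases N.eq_empty_or_nonempty with hN0 | ⟨b, hb⟩
      · rw [hN0]; simp
      · exact hd a (hN b hb).2.1 N fun b hb => ⟨(hN b hb).1, (hN b hb).2.2⟩
    have hAsymm : ∀ a b, A a b → A b a := fun a b h => ⟨h.1.symm, h.2.2, h.2.1⟩
    refine le_trans (Pr_mono h0 h1 ?_) (Pr_all_critR h0 h1 (Walk A (m - 2))
      (fun a b h => Walk.symm hAsymm h) U W hW hWU (Δ ^ (m - 2))
      (walk_deg A Δ hAdeg (m - 2)) hD)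
    rintro ω₂ ⟨-, h⟩ i
    obtain ⟨f, f', y, y', hne, hy, hy', hon, hon', hR⟩ := h i
    rw [mem_coe] at hy hy'
    refine ⟨f, f', y, y', hne, hy, hy', ?_, ?_, ?_⟩
    · rw [← hout ω₂ i f y hy]; exact hon.2
    · rw [← hout ω₂ i f' y' hy']; exact hon'.2
    · refine Walk.map (A := fun a b => (Gr (mix S ω₁ ω₂)).Adj a b ∧ a ∉ (↑U : Set α) ∧
        b ∉ (↑U : Set α)) (E := A) id ?_ (m - 2) y y' hR
      rintro a b ⟨⟨hab, hon⟩, ha, hb⟩
      rw [mem_coe] at ha hb
      rw [hin ω₂ a b ha hb] at hon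
      exact ⟨⟨hab, hon⟩, ha, hb⟩
  · have : Pr p (fun ω₂ : Sym2 α → Bool => (∀ v, dg (Gr (mix S ω₁ ω₂)) v univ ≤ Δ) ∧
        ∀ i, Crit (Gr (mix S ω₁ ω₂)) (↑U : Set α) m (W i)) ≤
        Ex p (fun _ : Sym2 α → Bool => (0 : ℝ)) := by
      refine Ex_mono h0 h1 fun ω₂ => le_of_eq (ind_false ?_)
      rintro ⟨h, -⟩
      apply hd
      intro a ha N hN
      refine le_trans ?_ (h a)
      unfold dg
      refine card_le_card fun b hb => ?_
      rw [mem_filter]
      refine ⟨mem_univ _, (hN b hb).1.1, ?_⟩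
      rw [hin ω₂ a b ha (hN b hb).2]
      exact (hN b hb).1.2
    rw [Ex_const] at this
    exact this.trans hRHS

/-- maximum degree when `n p ≤ s` -/
theorem Pr_maxdeg' (h0 : 0 ≤ p) (h1 : p ≤ 1) (s : ℝ) (hs : Fintype.card α * p ≤ s) (Δ : ℕ)
    (hΔ : 3 * s ≤ Δ + 1) :
    Pr p (fun ω : Sym2 α → Bool => ¬ ∀ v, dg (Gr ω) v univ ≤ Δ) ≤
      Fintype.card α * Real.exp (-s) := by
  classical
  calc Pr p (fun ω : Sym2 α → Bool => ¬ ∀ v, dg (Gr ω) v univ ≤ Δ)
      ≤ Pr p (fun ω : Sym2 α → Bool => ∃ v ∈ (univ : Finset α),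
          2 * p * ((md_T v).card : ℝ) + s ≤ (cnt ω (md_T v) : ℝ)) := by
        refine Pr_mono h0 h1 fun ω hω => ?_
        push Not at hω
        obtain ⟨v, hv⟩ := hω
        refine ⟨v, mem_univ _, ?_⟩
        have h2 : Δ + 1 ≤ cnt ω (md_T v) := le_trans hv (md_dg_le ω v)
        have h3 : ((Δ : ℝ) + 1) ≤ cnt ω (md_T v) := by exact_mod_cast h2
        have h4 : ((md_T v).card : ℝ) ≤ Fintype.card α := by exact_mod_cast md_card_T v
        have h5 : p * ((md_T v).card : ℝ) ≤ s := by
          refine le_trans ?_ hs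
          rw [mul_comm]
          exact mul_le_mul_of_nonneg_right h4 h0
        linarith
    _ ≤ ∑ v ∈ (univ : Finset α), Pr p (fun ω : Sym2 α → Bool =>
          2 * p * ((md_T v).card : ℝ) + s ≤ (cnt ω (md_T v) : ℝ)) := Pr_exists_le h0 h1 _ _
    _ ≤ ∑ _v ∈ (univ : Finset α), Real.exp (-s) := sum_le_sum fun v _ => chern_up h0 h1 _ _
    _ = _ := by rw [sum_const, nsmul_eq_mul, card_univ]

end graph

end Pool.MP_65847d_pr
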