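import Pool.Agent.Lib.MP_65847d_pr.Maximal

/-!
# Many internally disjoint paths of length `m` between any two vertices
-/

set_option autoImplicit false
set_option linter.unusedSectionVars false

open Finset Filter Topology

namespace Pool.MP_65847d_pr

open Pool.MP_1bacea_co

/-- `k` internally disjoint paths of length exactly `m` from `x` to `y` -/
def Links {α : Type*} (G : SimpleGraph α) (m k : ℕ) (x y : α) : Prop :=
  ∃ P : Fin k → ℕ → α, (∀ i, P i 0 = x ∧ P i m = y ∧ ∀ j < m, G.Adj (P i j) (P i (j + 1))) ∧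
    (∀ i j, 0 < j → j < m → P i j ≠ x ∧ P i j ≠ y) ∧
    ∀ i i' j j', 0 < j → j < m → 0 < j' → j' < m → P i j = P i' j' → i = i' ∧ j = j'

theorem Links.mono {α : Type*} {G G' : SimpleGraph α} (h : G ≤ G') {m k : ℕ} {x y : α}
    (hL : Links G m k x y) : Links G' m k x y := by
  obtain ⟨P, h1, h2, h3⟩ := hL
  exact ⟨P, fun i => ⟨(h1 i).1, (h1 i).2.1, fun j hj => h ((h1 i).2.2 j hj)⟩, h2, h3⟩

section layered

variable {α : Type*} [Fintype α] [DecidableEq α] {p : ℝ}

/-- no edge from the last explored set to `y` -/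
theorem Pr_no_last (h0 : 0 ≤ p) (h1 : p ≤ 1) (C : ℕ → Finset α) (M : ℕ) (hM : 1 ≤ M) (x y : α)
    (hxy : x ≠ y) (hC0 : C 0 = {x}) (hy : ∀ j, 1 ≤ j → j ≤ M → y ∉ C j)
    (hdisj : ∀ i ≤ M, ∀ j ≤ M, i ≠ j → Disjoint (C i) (C j)) {p0 b : ℝ} (hp0 : 0 ≤ p0)
    (hp : p0 ≤ p) (hb0 : 0 ≤ b) (hb : ∀ j, 1 ≤ j → j ≤ M → b ≤ (C j).card)
    (hc : 1 ≤ b * p0 / 4) (hcM : p0 * (b * p0 / 4) ^ (M - 1) ≤ 1) :
    Pr p (fun ω : Sym2 α → Bool => ∀ u ∈ expl C ω M, ω s(u, y) = false) ≤
      M * Real.exp (-(b * p0 / 4 / 8)) + Real.exp (-(p0 * (b * p0 / 4) ^ M)) := by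
  classical
  set c : ℝ := b * p0 / 4 with hcdef
  have hc0 : 0 ≤ c := by linarith
  -- the sets grow
  have hgrow : ∀ i ≤ M, Pr p (fun ω : Sym2 α → Bool => ((expl C ω i).card : ℝ) < c ^ i) ≤
      i * Real.exp (-(c / 8)) := by
    intro i
    induction i with
    | zero =>
      intro _
      have : Pr p (fun ω : Sym2 α → Bool => ((expl C ω 0).card : ℝ) < c ^ 0) ≤
          Ex p (fun _ : Sym2 α → Bool => (0 : ℝ)) := by
        refine Ex_mono h0 h1 fun ω => le_of_eq (ind_false ?_)
        show ¬ (((C 0).card : ℝ) < c ^ 0)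
        rw [hC0, card_singleton]
        simp
      rw [Ex_const] at this
      simpa using this
    | succ i ih =>
      intro hi
      have h2 := ih (by omega)
      have h3 : p0 * c ^ i ≤ 1 := by
        refine le_trans (mul_le_mul_of_nonneg_left ?_ hp0) hcM
        exact pow_le_pow_right₀ hc (by omega)
      have h4 := expl_step h0 h1 C i (fun j hj => hdisj j (by omega) (i + 1) hi (by omega)) hp0 hp
        (by positivity : 0 ≤ c ^ i) h3 hb0 (hb (i + 1) (by omega) hi)
      have h5 : Real.exp (-(b * p0 / 4 * c ^ i / 8)) ≤ Real.exp (-(c / 8)) := by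
        apply Real.exp_le_exp.mpr
        have : c ≤ c * c ^ i := le_mul_of_one_le_right hc0 (one_le_pow₀ hc)
        rw [← hcdef]
        linarith
      calc Pr p (fun ω : Sym2 α → Bool => ((expl C ω (i + 1)).card : ℝ) < c ^ (i + 1))
          ≤ Pr p (fun ω : Sym2 α → Bool => ((expl C ω i).card : ℝ) < c ^ i ∨
            (c ^ i ≤ ((expl C ω i).card : ℝ) ∧
              ((expl C ω (i + 1)).card : ℝ) < b * p0 / 4 * c ^ i)) := by
            refine Pr_mono h0 h1 fun ω hω => ?_
            by_cases h : ((expl C ω i).card : ℝ) < c ^ i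
            · exact Or.inl h
            · refine Or.inr ⟨not_lt.mp h, ?_⟩
              rw [← hcdef]
              rw [pow_succ, mul_comm] at hω
              exact hω
        _ ≤ _ := Pr_or_le h0 h1 _ _
        _ ≤ i * Real.exp (-(c / 8)) + Real.exp (-(c / 8)) := add_le_add h2 (h4.trans h5)
        _ = ((i + 1 : ℕ) : ℝ) * Real.exp (-(c / 8)) := by push_cast; ring
  have hM' := hgrow M le_rfl
  have hcase : 2 ≤ M ∨ y ∉ C 0 := by
    right
    rw [hC0, mem_singleton]
    exact hxy.symm
  have hlast := expl_last h0 h1 C M y hy hdisj hM hcase (K := c ^ M) hp0 hp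
  refine le_trans ?_ (add_le_add hM' hlast)
  refine le_trans (Pr_mono h0 h1 fun ω hω => ?_) (Pr_or_le h0 h1 _ _)
  by_cases h : ((expl C ω M).card : ℝ) < c ^ M
  · exact Or.inl h
  · exact Or.inr ⟨not_lt.mp h, hω⟩

theorem expl_path (C : ℕ → Finset α) (ω : Sym2 α → Bool) : ∀ i, ∀ v ∈ expl C ω i,
    ∃ P : ℕ → α, P i = v ∧ (∀ j ≤ i, P j ∈ C j) ∧ ∀ j < i, ω s(P j, P (j + 1)) = true := by
  intro i
  induction i with
  | zero =>
    intro v hv
    exact ⟨fun _ => v, rfl, fun j hj => by rw [Nat.le_zero.mp hj]; exact hv,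
      fun j hj => absurd hj (Nat.not_lt_zero j)⟩
  | succ i ih =>
    intro v hv
    have hv' : v ∈ (C (i + 1)).filter fun v => ∃ u ∈ expl C ω i, ω s(u, v) = true := hv
    rw [mem_filter] at hv'
    obtain ⟨hvC, u, hu, hon⟩ := hv'
    obtain ⟨P, hPi, hPC, hPon⟩ := ih u hu
    refine ⟨fun j => if j = i + 1 then v else P j, if_pos rfl, ?_, ?_⟩
    · intro j hj
      show (if j = i + 1 then v else P j) ∈ C j
      by_cases h : j = i + 1
      · rw [if_pos h, h]; exact hvC
      · rw [if_neg h]; exact hPC j (by omega)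
    · intro j hj
      show ω s(if j = i + 1 then v else P j, if j + 1 = i + 1 then v else P (j + 1)) = true
      rw [if_neg (by omega : ¬ j = i + 1)]
      by_cases h : j = i
      · rw [if_pos (by omega), h, hPi]; exact hon
      · rw [if_neg (by omega)]; exact hPon j (by omega)

/-- the path `x, f 0, ..., f (M - 1), y` -/
def pth (M : ℕ) (x y : α) (f : Fin M → α) : ℕ → α
  | 0 => x
  | j + 1 => if h : j < M then f ⟨j, h⟩ else y

theorem pth_succ (M : ℕ) (x y : α) (f : Fin M → α) (j : Fin M) :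
    pth M x y f (j.val + 1) = f j := by
  show (if h : j.val < M then f ⟨j.val, h⟩ else y) = f j
  rw [dif_pos j.isLt]

theorem pth_last (M : ℕ) (x y : α) (f : Fin M → α) : pth M x y f (M + 1) = y := by
  show (if h : M < M then f ⟨M, h⟩ else y) = y
  rw [dif_neg (lt_irrefl M)]

/-- the level of the vertices -/
theorem pth_level {C : ℕ → Finset α} {M : ℕ} {x y : α} (hxy : x ≠ y) (hC0 : C 0 = {x})
    (hy : ∀ j, 1 ≤ j → j ≤ M → y ∉ C j) (hdisj : ∀ i ≤ M, ∀ j ≤ M, i ≠ j → Disjoint (C i) (C j))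
    {f g : Fin M → α} (hf : ∀ j : Fin M, f j ∈ C (j.val + 1))
    (hg : ∀ j : Fin M, g j ∈ C (j.val + 1)) {i j : ℕ} (hi : i ≤ M + 1) (hj : j ≤ M + 1)
    (h : pth M x y f i = pth M x y g j) : i = j := by
  have hmem : ∀ (f : Fin M → α), (∀ j : Fin M, f j ∈ C (j.val + 1)) → ∀ i ≤ M,
      pth M x y f i ∈ C i := by
    intro f hf i hi
    rcases i with _ | i
    · show x ∈ C 0
      rw [hC0, mem_singleton]
    · have := hf ⟨i, by omega⟩
      rwa [← pth_succ M x y f ⟨i, by omega⟩] at this
  have hyC : ∀ i ≤ M, y ∉ C i := by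
    intro i hi
    rcases i with _ | i
    · rw [hC0, mem_singleton]; exact hxy.symm
    · exact hy _ (by omega) hi
  by_cases hiM : i = M + 1
  · by_cases hjM : j = M + 1
    · omega
    · exfalso
      rw [hiM, pth_last] at h
      exact hyC j (by omega) (h ▸ hmem g hg j (by omega))
  · by_cases hjM : j = M + 1
    · exfalso
      rw [hjM, pth_last] at h
      exact hyC i (by omega) (h ▸ hmem f hf i (by omega))
    · by_contra hne
      exact disjoint_left.mp (hdisj i (by omega) j (by omega) hne) (hmem f hf i (by omega))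
        (h ▸ hmem g hg j (by omega))

/-- many disjoint paths through the regions `C 1, ..., C M` -/
theorem Pr_not_links (h0 : 0 ≤ p) (h1 : p ≤ 1) (C : ℕ → Finset α) (M : ℕ) (hM : 1 ≤ M) (x y : α)
    (hxy : x ≠ y) (hC0 : C 0 = {x}) (hy : ∀ j, 1 ≤ j → j ≤ M → y ∉ C j)
    (hdisj : ∀ i ≤ M, ∀ j ≤ M, i ≠ j → Disjoint (C i) (C j)) (K : ℕ) {p0 b : ℝ} (hp0 : 0 ≤ p0)
    (hp : p0 ≤ p) (hb0 : 0 ≤ b) (hb : ∀ j, 1 ≤ j → j ≤ M → b + K ≤ (C j).card)
    (hc : 1 ≤ b * p0 / 4) (hcM : p0 * (b * p0 / 4) ^ (M - 1) ≤ 1) :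
    Pr p (fun ω : Sym2 α → Bool => ¬ Links (Gr ω) (M + 1) K x y) ≤
      (∑ k ∈ range K, ((Fintype.card α : ℝ) ^ M * p ^ (M + 1)) ^ k / (k.factorial : ℝ)) *
      (M * Real.exp (-(b * p0 / 4 / 8)) + Real.exp (-(p0 * (b * p0 / 4) ^ M))) := by
  classical
  set Ω : Finset (Fin M → α) := Fintype.piFinset fun j : Fin M => C (j.val + 1) with hΩ
  have hΩmem : ∀ f, f ∈ Ω ↔ ∀ j : Fin M, f j ∈ C (j.val + 1) := by
    intro f; rw [hΩ, Fintype.mem_piFinset]
  set E : (Fin M → α) → Finset (Sym2 α) := fun f => edgesOf (M + 1) (pth M x y f) with hEdef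
  set R : (Fin M → α) → (Fin M → α) → Prop := fun f g => ∃ j, f j = g j with hRdef
  have hinj : ∀ f ∈ Ω, ∀ i ≤ M + 1, ∀ j ≤ M + 1, pth M x y f i = pth M x y f j → i = j := by
    intro f hf i hi j hj h
    exact pth_level hxy hC0 hy hdisj ((hΩmem f).mp hf) ((hΩmem f).mp hf) hi hj h
  have hΩcard : (Ω.card : ℝ) * p ^ (M + 1) ≤ (Fintype.card α : ℝ) ^ M * p ^ (M + 1) := by
    refine mul_le_mul_of_nonneg_right ?_ (by positivity)
    have h2 : Ω.card ≤ Fintype.card (Fin M → α) := card_le_univ _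
    rw [Fintype.card_fun, Fintype.card_fin] at h2
    exact_mod_cast h2
  have key := Pr_no_family h0 h1 Ω E R (fun f _ => ⟨⟨0, hM⟩, rfl⟩)
    (fun f g ⟨j, hj⟩ => ⟨j, hj.symm⟩) (M + 1)
    (fun f hf => card_edgesOf (hinj f hf)) (by
      intro f hf g hg hfg
      rw [disjoint_left]
      intro e he he'
      rw [hEdef] at he he'
      simp only [edgesOf, mem_image, mem_range] at he he'
      obtain ⟨i, hi, rfl⟩ := he
      obtain ⟨j, hj, h⟩ := he'
      have hlev : ∀ i ≤ M + 1, ∀ j ≤ M + 1, pth M x y g j = pth M x y f i →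
          i = j ∧ (i = 0 ∨ i = M + 1) := by
        intro i hi j hj h
        have hij := pth_level hxy hC0 hy hdisj ((hΩmem g).mp hg) ((hΩmem f).mp hf) hj hi h
        subst hij
        refine ⟨rfl, ?_⟩
        by_contra hcon
        push Not at hcon
        obtain ⟨i', rfl⟩ : ∃ i', j = i' + 1 := ⟨j - 1, by omega⟩
        have hi' : i' < M := by omega
        apply hfg
        refine ⟨⟨i', hi'⟩, ?_⟩
        have e1 := pth_succ M x y f ⟨i', hi'⟩
        have e2 := pth_succ M x y g ⟨i', hi'⟩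
        rw [← e1, ← e2]
        exact h.symm
      rw [Sym2.eq_iff] at h
      rcases h with ⟨h2, h3⟩ | ⟨h2, h3⟩
      · have h4 := hlev i (by omega) j (by omega) h2
        have h5 := hlev (i + 1) (by omega) (j + 1) (by omega) h3
        omega
      · have h4 := hlev (i + 1) (by omega) j (by omega) h2
        have h5 := hlev i (by omega) (j + 1) (by omega) h3
        omega) K hΩcard
    (δ := M * Real.exp (-(b * p0 / 4 / 8)) + Real.exp (-(p0 * (b * p0 / 4) ^ M)))
    (by positivity) (by
      intro F hF hFK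
      set C' : ℕ → Finset α := fun j => if h : 1 ≤ j ∧ j ≤ M then
        C j \ F.image (fun f => f ⟨j - 1, by omega⟩) else C j with hC'
      have hC'sub : ∀ j, C' j ⊆ C j := by
        intro j
        rw [hC']
        show (if h : 1 ≤ j ∧ j ≤ M then C j \ F.image (fun f => f ⟨j - 1, by omega⟩) else C j) ⊆ C j
        split_ifs
        · exact sdiff_subset
        · exact Subset.rfl
      have hC'0 : C' 0 = {x} := by
        rw [hC']
        show (if h : 1 ≤ 0 ∧ 0 ≤ M then C 0 \ F.image (fun f => f ⟨0 - 1, by omega⟩) else C 0) = _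
        rw [dif_neg (by omega), hC0]
      refine (Pr_mono h0 h1 fun ω hω => ?_).trans (Pr_no_last h0 h1 C' M hM x y hxy hC'0
        (fun j hj hjM hyj => hy j hj hjM (hC'sub j hyj))
        (fun i hi j hj hij => (hdisj i hi j hj hij).mono (hC'sub i) (hC'sub j)) hp0 hp hb0
        (fun j hj hjM => ?_) hc hcM)
      · intro u hu
        by_contra hcon
        rw [Bool.not_eq_false] at hcon
        obtain ⟨P, hPM, hPC, hPon⟩ := expl_path C' ω M u hu
        set f : Fin M → α := fun j => P (j.val + 1) with hf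
        have hfC' : ∀ j : Fin M, f j ∈ C' (j.val + 1) := fun j => hPC _ (by omega)
        have hfΩ : f ∈ Ω := (hΩmem f).mpr fun j => hC'sub _ (hfC' j)
        have hP0 : P 0 = x := by
          have := hPC 0 (by omega)
          rw [hC'0, mem_singleton] at this
          exact this
        have hpth : ∀ j ≤ M, pth M x y f j = P j := by
          intro j hj
          rcases j with _ | j
          · exact hP0.symm
          · exact pth_succ M x y f ⟨j, by omega⟩
        obtain ⟨e, he, hoff⟩ := hω f hfΩ (by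
          rintro g hg ⟨j, hj⟩
          have h2 := hfC' j
          rw [hC'] at h2
          have h3 : f j ∈ (if h : 1 ≤ j.val + 1 ∧ j.val + 1 ≤ M then
            C (j.val + 1) \ F.image (fun f => f ⟨j.val + 1 - 1, by omega⟩) else C (j.val + 1)) := h2
          rw [dif_pos (by omega)] at h3
          exact (mem_sdiff.mp h3).2 (mem_image.mpr ⟨g, hg, hj⟩))
        rw [hEdef] at he
        simp only [edgesOf, mem_image, mem_range] at he
        obtain ⟨j, hj, rfl⟩ := he
        rw [hpth j (by omega)] at hoff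
        by_cases hjM : j = M
        · rw [hjM, pth_last, hPM, hcon] at hoff
          exact Bool.noConfusion hoff
        · rw [hpth (j + 1) (by omega), hPon j (by omega)] at hoff
          exact Bool.noConfusion hoff
      · have h2 := hb j hj hjM
        have h3 : C' j = C j \ F.image (fun f => f ⟨j - 1, by omega⟩) := by
          rw [hC']
          show (if h : 1 ≤ j ∧ j ≤ M then C j \ F.image (fun f => f ⟨j - 1, by omega⟩) else C j) = _
          rw [dif_pos ⟨hj, hjM⟩]
        have h4 : (C j).card ≤ (C' j).card + F.card := by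
          rw [h3]
          have h5 := le_card_sdiff (F.image (fun f => f ⟨j - 1, by omega⟩)) (C j)
          have h6 : (F.image (fun f : Fin M → α => f ⟨j - 1, by omega⟩)).card ≤ F.card :=
            card_image_le
          omega
        have h5 : ((C j).card : ℝ) ≤ (C' j).card + F.card := by exact_mod_cast h4
        have h6 : (F.card : ℝ) ≤ K := by exact_mod_cast hFK.le
        linarith)
  refine (Pr_mono h0 h1 fun ω hω => ?_).trans key
  rintro ⟨F, hF, hpw, hon⟩
  rw [mem_powersetCard] at hF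
  apply hω
  let eq : F ≃ Fin K := F.equivFinOfCardEq hF.2
  refine ⟨fun i => pth M x y (eq.symm i).1, ?_, ?_, ?_⟩
  · intro i
    refine ⟨rfl, pth_last _ _ _ _, fun j hj => ⟨?_, ?_⟩⟩
    · intro h
      have := hinj _ (hF.1 (eq.symm i).2) j (by omega) (j + 1) (by omega) h
      omega
    · apply hon _ (eq.symm i).2
      rw [hEdef]
      simp only [edgesOf, mem_image, mem_range]
      exact ⟨j, hj, rfl⟩
  · intro i j hj0 hjM
    constructor
    · intro h
      have := hinj _ (hF.1 (eq.symm i).2) j (by omega) 0 (by omega) h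
      omega
    · intro h
      have := hinj _ (hF.1 (eq.symm i).2) j (by omega) (M + 1) le_rfl (h.trans
        (pth_last M x y _).symm)
      omega
  · intro i i' j j' hj0 hjM hj0' hjM' h
    have hjj : j = j' := pth_level hxy hC0 hy hdisj ((hΩmem _).mp (hF.1 (eq.symm i).2))
      ((hΩmem _).mp (hF.1 (eq.symm i').2)) hjM.le hjM'.le h
    refine ⟨?_, hjj⟩
    by_contra hne
    have hne' : (eq.symm i).1 ≠ (eq.symm i').1 := by
      intro h'
      exact hne (eq.symm.injective (Subtype.ext h'))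
    apply hpw _ (eq.symm i).2 _ (eq.symm i').2 hne'
    subst hjj
    obtain ⟨j'', rfl⟩ : ∃ j'', j = j'' + 1 := ⟨j - 1, by omega⟩
    refine ⟨⟨j'', by omega⟩, ?_⟩
    rw [← pth_succ M x y (eq.symm i).1 ⟨j'', by omega⟩,
      ← pth_succ M x y (eq.symm i').1 ⟨j'', by omega⟩]
    exact h

end layered

end Pool.MP_65847d_pr
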