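import Pool.Agent.Lib.MP_65847d_pr.Links

/-!
# Many internally disjoint paths of length `m` between any two vertices, asymptotic form
-/

set_option autoImplicit false

open Finset Filter Topology

namespace Pool.MP_65847d_pr

open Pool.MP_1bacea_co

theorem Gr_mono {α : Type*} {ω ω' : Sym2 α → Bool} (h : ∀ e, ω e = true → ω' e = true) :
    Gr ω ≤ Gr ω' := by
  intro u v huv
  exact ⟨huv.1, h _ huv.2⟩

theorem Pr_some_not_links {n m : ℕ} (hm : 2 ≤ m) (K : ℕ) (hn : 2 * m * (K + 3) ≤ n) {p p0 : ℝ}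
    (h0 : 0 ≤ p) (h1 : p ≤ 1) (hp0 : 0 ≤ p0) (hp : p0 ≤ p) (hc : 1 ≤ n * p0 / (8 * m))
    (hcM : p0 * (n * p0 / (8 * m)) ^ (m - 2) ≤ 1) :
    Pr p (fun ω : Sym2 (Fin n) → Bool => ∃ x y, x ≠ y ∧ ¬ Links (Gr ω) m K x y) ≤
      (n : ℝ) ^ 2 * ((∑ k ∈ range K, ((n : ℝ) ^ (m - 1) * p ^ m) ^ k / (k.factorial : ℝ)) *
        (m * Real.exp (-(n * p0 / (8 * m) / 8)) +
        Real.exp (-(p0 * (n * p0 / (8 * m)) ^ (m - 1))))) := by
  classical
  have hm0 : (0 : ℝ) < m := by exact_mod_cast (by omega : 0 < m)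
  set b : ℝ := n / (2 * m) with hb
  have hb0 : 0 ≤ b := by positivity
  have hbc : b * p0 / 4 = n * p0 / (8 * m) := by
    rw [hb]
    field_simp
    ring
  have hbcard : ∀ x y : Fin n, ∀ j, 1 ≤ j → j ≤ m - 1 → b + K ≤ ((reg m x y j).card : ℝ) := by
    intro x y j hj hjm
    have h2 := reg_card x y hj (by omega : j < m)
    have h3 : (n : ℝ) / m - 1 ≤ ((n / m : ℕ) : ℝ) := by
      have h4 : (n : ℝ) < m * (((n / m : ℕ) : ℝ) + 1) := by
        exact_mod_cast Nat.lt_mul_div_succ n (by omega : 0 < m)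
      rw [sub_le_iff_le_add, div_le_iff₀ hm0]
      linarith
    have h5 : ((n / m : ℕ) : ℝ) ≤ ((reg m x y j).card : ℝ) + 2 := by exact_mod_cast h2
    have h6 : (K : ℝ) + 3 ≤ n / (2 * m) := by
      rw [le_div_iff₀ (by positivity)]
      have : (2 : ℝ) * m * (K + 3) ≤ n := by exact_mod_cast hn
      linarith
    have h7 : (n : ℝ) / m = n / (2 * m) + n / (2 * m) := by field_simp; norm_num
    rw [hb]
    linarith
  have hpair : ∀ x y : Fin n, x ≠ y →
      Pr p (fun ω : Sym2 (Fin n) → Bool => ¬ Links (Gr ω) m K x y) ≤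
      (∑ k ∈ range K, ((n : ℝ) ^ (m - 1) * p ^ m) ^ k / (k.factorial : ℝ)) *
        (m * Real.exp (-(n * p0 / (8 * m) / 8)) +
        Real.exp (-(p0 * (n * p0 / (8 * m)) ^ (m - 1)))) := by
    intro x y hxy
    have h2 := Pr_not_links h0 h1 (reg m x y) (m - 1) (by omega) x y hxy rfl
      (fun j hj _ => reg_not_mem x y j hj) (fun i _ j _ hij => reg_disj x y i j hij) K hp0 hp hb0
      (hbcard x y) (by rw [hbc]; exact hc) (by
        rw [hbc, show m - 1 - 1 = m - 2 by omega]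
        exact hcM)
    rw [hbc, show m - 1 + 1 = m by omega, Fintype.card_fin] at h2
    refine h2.trans (mul_le_mul_of_nonneg_left (add_le_add_left ?_ _) ?_)
    · refine mul_le_mul_of_nonneg_right ?_ (Real.exp_pos _).le
      exact_mod_cast (by omega : m - 1 ≤ m)
    · exact sum_nonneg fun k _ => by positivity
  set δ : ℝ := (∑ k ∈ range K, ((n : ℝ) ^ (m - 1) * p ^ m) ^ k / (k.factorial : ℝ)) *
        (m * Real.exp (-(n * p0 / (8 * m) / 8)) +
        Real.exp (-(p0 * (n * p0 / (8 * m)) ^ (m - 1)))) with hδ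
  have hδ0 : 0 ≤ δ := by
    rw [hδ]
    refine mul_nonneg (sum_nonneg fun k _ => by positivity) (by positivity)
  calc Pr p (fun ω : Sym2 (Fin n) → Bool => ∃ x y, x ≠ y ∧ ¬ Links (Gr ω) m K x y)
      ≤ Pr p (fun ω : Sym2 (Fin n) → Bool => ∃ q ∈ (univ : Finset (Fin n × Fin n)),
          q.1 ≠ q.2 ∧ ¬ Links (Gr ω) m K q.1 q.2) := by
        refine Pr_mono h0 h1 fun ω hω => ?_
        obtain ⟨x, y, h⟩ := hω
        exact ⟨(x, y), mem_univ _, h⟩
    _ ≤ ∑ q ∈ (univ : Finset (Fin n × Fin n)), Pr p (fun ω : Sym2 (Fin n) → Bool =>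
          q.1 ≠ q.2 ∧ ¬ Links (Gr ω) m K q.1 q.2) := Pr_exists_le h0 h1 _ _
    _ ≤ ∑ _q ∈ (univ : Finset (Fin n × Fin n)), δ := by
        refine sum_le_sum fun q _ => ?_
        by_cases hq : q.1 = q.2
        · have : Pr p (fun ω : Sym2 (Fin n) → Bool => q.1 ≠ q.2 ∧ ¬ Links (Gr ω) m K q.1 q.2) ≤
              Ex p (fun _ : Sym2 (Fin n) → Bool => (0 : ℝ)) :=
            Ex_mono h0 h1 fun ω => le_of_eq (ind_false fun h => h.1 hq)
          rw [Ex_const] at this
          exact this.trans hδ0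
        · exact (Pr_mono h0 h1 fun ω hω => hω.2).trans (hpair q.1 q.2 hq)
    _ = _ := by
        rw [sum_const, nsmul_eq_mul, card_univ, Fintype.card_prod, Fintype.card_fin]
        push_cast
        ring

/-- For `p ≥ C q_m` all pairs of distinct vertices are joined by at least `L log n` internally
disjoint paths of length `m`, with probability tending to `1`. -/
theorem links_asymp (m : ℕ) (hm : 2 ≤ m) (L : ℝ) :
    ∃ C : ℝ, 0 < C ∧ ∀ p : ℕ → ℝ, (∀ n, 0 ≤ p n) → (∀ n, p n ≤ 1) →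
      (∀ᶠ n in atTop, C * qf m n ≤ p n) →
      Tendsto (fun n : ℕ => Pr (p n) (fun ω : Sym2 (Fin n) → Bool =>
        ∃ x y, x ≠ y ∧ ¬ Links (Gr ω) m ⌈L * Real.log n⌉₊ x y)) atTop (𝓝 0) := by
  have hm0 : (0 : ℝ) < m := by exact_mod_cast (by omega : 0 < m)
  have hm1r : (1 : ℝ) ≤ m := by exact_mod_cast (by omega : 1 ≤ m)
  set a : ℝ := (8 * m) ^ (m - 1) with ha
  have ha1 : 1 ≤ a := one_le_pow₀ (by linarith)
  have ha0 : 0 < a := by linarith
  set L' : ℝ := max L 0 with hL'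
  have hL'0 : 0 ≤ L' := le_max_right _ _
  have hlog2a : 0 < Real.log (2 * a) := Real.log_pos (by linarith)
  set B : ℝ := (L' + 1) * Real.log (2 * a) with hB
  have hB0 : 0 ≤ B := by positivity
  set C : ℝ := 2 * a * (B + 3) + 8 * m with hC
  have hC8 : 8 * m ≤ C := by
    have : 0 ≤ 2 * a * (B + 3) := by positivity
    rw [hC]; linarith
  have hC1 : 1 ≤ C := by linarith
  have hC0 : 0 < C := by linarith
  have hCm : 2 * a * (B + 3) ≤ C ^ m := by
    have h1 : C ≤ C ^ m := le_self_pow₀ hC1 (by omega)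
    rw [hC] at h1 ⊢
    linarith
  refine ⟨C, hC0, fun p hp0 hp1 hp => ?_⟩
  have hlogr : ∀ r : ℝ, 0 < r →
      Tendsto (fun n : ℕ => Real.log (n : ℝ) / (n : ℝ) ^ r) atTop (𝓝 0) := by
    intro r hr
    have h1 := (isLittleO_log_rpow_atTop hr).tendsto_div_nhds_zero
    exact h1.comp tendsto_natCast_atTop_atTop
  have hlog : Tendsto (fun n : ℕ => Real.log (n : ℝ)) atTop atTop :=
    Real.tendsto_log_atTop.comp tendsto_natCast_atTop_atTop
  have hbound : Tendsto (fun n : ℕ => ((m : ℝ) + 1) * (1 / (n : ℝ))) atTop (𝓝 0) := by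
    have h1 := (tendsto_one_div_atTop_nhds_zero_nat (𝕜 := ℝ)).const_mul ((m : ℝ) + 1)
    simpa using h1
  refine squeeze_zero' (Eventually.of_forall fun n => Pr_nonneg (hp0 n) (hp1 n) _) ?_ hbound
  -- the eventual estimates
  set D1 : ℝ := 64 * m * (B + C ^ m / (2 * a) + 3) / C with hD1
  have hD1pos : 0 < D1 := by rw [hD1]; positivity
  set D2 : ℝ := C ^ m with hD2
  have hD2pos : 0 < D2 := by rw [hD2]; positivity
  set D3 : ℝ := 2 * m * (L' + 4) with hD3
  have hD3pos : 0 < D3 := by rw [hD3]; positivity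
  have e2 : ∀ᶠ n : ℕ in atTop, 1 ≤ Real.log (n : ℝ) := hlog.eventually_ge_atTop 1
  have e3 : ∀ᶠ n : ℕ in atTop, Real.log (n : ℝ) / (n : ℝ) ^ (1 / m : ℝ) < 1 / D1 :=
    (hlogr (1 / m) (by positivity)).eventually_lt_const (by positivity)
  have e4 : ∀ᶠ n : ℕ in atTop, Real.log (n : ℝ) / (n : ℝ) ^ (1 / m : ℝ) < 1 / D2 :=
    (hlogr (1 / m) (by positivity)).eventually_lt_const (by positivity)
  have e5 : ∀ᶠ n : ℕ in atTop, Real.log (n : ℝ) / (n : ℝ) ^ (1 : ℝ) < 1 / D3 :=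
    (hlogr 1 (by positivity)).eventually_lt_const (by positivity)
  have e6 : ∀ᶠ n : ℕ in atTop, 1 ≤ n := eventually_ge_atTop _
  filter_upwards [hp, e2, e3, e4, e5, e6] with n hpn hlog1 h3 h4 h5 hn1
  have hnr : (0 : ℝ) < n := by exact_mod_cast hn1
  have hnr1 : (1 : ℝ) ≤ n := by exact_mod_cast hn1
  set β : ℝ := ((n : ℝ) * Real.log n) ^ (1 / (m : ℝ)) with hβ
  have hβ0 : 0 ≤ β := Real.rpow_nonneg (by positivity) _
  have hβm : β ^ m = n * Real.log n := by
    rw [hβ, one_div]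
    exact Real.rpow_inv_natCast_pow (by positivity) (by omega)
  have hβn : (n : ℝ) ^ (1 / m : ℝ) ≤ β := by
    rw [hβ]
    apply Real.rpow_le_rpow hnr.le _ (by positivity)
    exact le_mul_of_one_le_right hnr.le hlog1
  have hnm0 : 0 < (n : ℝ) ^ (1 / m : ℝ) := Real.rpow_pos_of_pos hnr _
  have hnm1 : 1 ≤ (n : ℝ) ^ (1 / m : ℝ) := Real.one_le_rpow hnr1 (by positivity)
  have hβpos : 0 < β := lt_of_lt_of_le hnm0 hβn
  have hq : qf m n = β / n := rfl
  set p0 : ℝ := C * qf m n with hp0def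
  have hp00 : 0 ≤ p0 := by rw [hp0def, hq]; positivity
  have hp01 : p0 ≤ 1 := hpn.trans (hp1 n)
  have hc : n * p0 / (8 * m) = C * β / (8 * m) := by
    rw [hp0def, hq]
    field_simp
  have hD1' : D1 * Real.log n ≤ β := by
    rw [div_lt_div_iff₀ hnm0 hD1pos] at h3
    linarith
  have hD2' : D2 * Real.log n ≤ β := by
    rw [div_lt_div_iff₀ hnm0 hD2pos] at h4
    linarith
  have hD3' : D3 * Real.log n ≤ n := by
    rw [Real.rpow_one, div_lt_div_iff₀ hnr hD3pos] at h5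
    linarith
  have hkey : p0 * (n * p0 / (8 * m)) ^ (m - 1) = C ^ m / a * Real.log n := by
    have h2 : β ^ m = β ^ (m - 1) * β := by rw [← pow_succ]; congr 1; omega
    have h2' : C ^ m = C ^ (m - 1) * C := by rw [← pow_succ]; congr 1; omega
    rw [hc, hp0def, hq, div_pow, mul_pow, ← ha]
    have h3 : C * (β / n) * (C ^ (m - 1) * β ^ (m - 1) / a) =
        (C ^ (m - 1) * C) * (β ^ (m - 1) * β) / (a * n) := by
      field_simp
    rw [h3, ← h2, ← h2', hβm]
    field_simp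
  have hΛ : (n : ℝ) ^ (m - 1) * p0 ^ m = C ^ m * Real.log n := by
    have h2 : (n : ℝ) ^ m = (n : ℝ) ^ (m - 1) * n := by rw [← pow_succ]; congr 1; omega
    rw [hp0def, hq, mul_pow, div_pow, hβm, h2]
    have hnm1' : (0 : ℝ) < (n : ℝ) ^ (m - 1) := by positivity
    field_simp
  have hc1 : 1 ≤ n * p0 / (8 * m) := by
    rw [hc, le_div_iff₀ (by positivity)]
    have h1 : 1 ≤ β := hnm1.trans hβn
    have h2 : C ≤ C * β := le_mul_of_one_le_right hC0.le h1
    linarith
  have hcM : p0 * (n * p0 / (8 * m)) ^ (m - 2) ≤ 1 := by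
    have h2 : (n * p0 / (8 * m)) ^ (m - 1) = (n * p0 / (8 * m)) ^ (m - 2) * (n * p0 / (8 * m)) := by
      rw [← pow_succ]; congr 1; omega
    rw [h2, ← mul_assoc] at hkey
    by_contra hcon
    push Not at hcon
    have hcpos : 0 < n * p0 / (8 * m) := by linarith
    have h3 : n * p0 / (8 * m) < p0 * (n * p0 / (8 * m)) ^ (m - 2) * (n * p0 / (8 * m)) :=
      lt_mul_of_one_lt_left hcpos hcon
    rw [hkey] at h3
    -- `C ^ m / a * log n ≤ C ^ m log n ≤ β ≤ C β / (8 m)`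
    have h6 : C ^ m / a * Real.log n ≤ C ^ m * Real.log n := by
      apply mul_le_mul_of_nonneg_right _ (by linarith)
      exact div_le_self (by positivity) ha1
    have h7 : β ≤ n * p0 / (8 * m) := by
      rw [hc, le_div_iff₀ (by positivity)]
      have h8 := mul_le_mul_of_nonneg_left hC8 hβ0
      linarith
    linarith
  set K : ℕ := ⌈L * Real.log n⌉₊ with hK
  have hKle : (K : ℝ) ≤ L' * Real.log n + 1 := by
    have h1 : K ≤ ⌈L' * Real.log n⌉₊ := by
      rw [hK]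
      apply Nat.ceil_mono
      exact mul_le_mul_of_nonneg_right (le_max_left _ _) (by linarith)
    have h2 : (⌈L' * Real.log n⌉₊ : ℝ) < L' * Real.log n + 1 :=
      Nat.ceil_lt_add_one (by positivity)
    have h3 : (K : ℝ) ≤ (⌈L' * Real.log n⌉₊ : ℝ) := by exact_mod_cast h1
    linarith
  have hnK : 2 * m * (K + 3) ≤ n := by
    have : (2 : ℝ) * m * (K + 3) ≤ n := by
      have h1 : (K : ℝ) + 3 ≤ (L' + 4) * Real.log n := by
        have e1 : (L' + 4) * Real.log n = L' * Real.log n + 4 * Real.log n := by ring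
        linarith
      calc (2 : ℝ) * m * (K + 3) ≤ 2 * m * ((L' + 4) * Real.log n) := by gcongr
        _ = D3 * Real.log n := by rw [hD3]; ring
        _ ≤ n := hD3'
    exact_mod_cast this
  have hmain := Pr_some_not_links (n := n) hm K hnK hp00 hp01 hp00 le_rfl hc1 hcM
  have hanti : Pr (p n) (fun ω : Sym2 (Fin n) → Bool => ∃ x y, x ≠ y ∧ ¬ Links (Gr ω) m K x y) ≤
      Pr p0 (fun ω : Sym2 (Fin n) → Bool => ∃ x y, x ≠ y ∧ ¬ Links (Gr ω) m K x y) := by
    refine Pr_anti hp00 hpn (hp1 n) ?_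
    rintro ω ω' h ⟨x, y, hxy, hL⟩
    exact ⟨x, y, hxy, fun hL' => hL (hL'.mono (Gr_mono h))⟩
  refine (hanti.trans hmain).trans ?_
  rw [hkey, hΛ]
  have hsum := sum_pow_factorial_le (Λ := C ^ m * Real.log n) (θ := 1 / (2 * a)) (by positivity)
    (by positivity) (by rw [div_le_one (by positivity)]; linarith) K
  have hlogn : Real.exp (-(3 * Real.log n)) = 1 / (n : ℝ) ^ 3 := by
    rw [Real.exp_neg, show (3 : ℝ) * Real.log n = Real.log n + Real.log n + Real.log n by ring,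
      Real.exp_add, Real.exp_add, Real.exp_log hnr]
    field_simp
  -- `(2 a) ^ K ≤ exp (B log n)`
  have hpow : (1 / (1 / (2 * a))) ^ K ≤ Real.exp (B * Real.log n) := by
    rw [one_div_one_div, ← Real.exp_log (by positivity : (0 : ℝ) < 2 * a), ← Real.exp_nat_mul]
    apply Real.exp_le_exp.mpr
    rw [hB]
    have h1 : (K : ℝ) ≤ (L' + 1) * Real.log n := by
      have e1 : (L' + 1) * Real.log n = L' * Real.log n + Real.log n := by ring
      linarith
    calc (K : ℝ) * Real.log (2 * a) ≤ ((L' + 1) * Real.log n) * Real.log (2 * a) := by gcongr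
      _ = _ := by ring
  have hA : (1 / (1 / (2 * a))) ^ K * Real.exp (1 / (2 * a) * (C ^ m * Real.log n)) ≤
      Real.exp (B * Real.log n + C ^ m / (2 * a) * Real.log n) := by
    rw [Real.exp_add]
    have h1 : 1 / (2 * a) * (C ^ m * Real.log n) = C ^ m / (2 * a) * Real.log n := by ring
    rw [h1]
    exact mul_le_mul_of_nonneg_right hpow (Real.exp_pos _).le
  have hT1 : Real.exp (B * Real.log n + C ^ m / (2 * a) * Real.log n) *
      Real.exp (-(n * p0 / (8 * m) / 8)) ≤ 1 / (n : ℝ) ^ 3 := by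
    rw [← hlogn, ← Real.exp_add]
    apply Real.exp_le_exp.mpr
    rw [hc]
    have h1 : (B + C ^ m / (2 * a) + 3) * Real.log n ≤ C * β / (8 * m) / 8 := by
      have h2 : (B + C ^ m / (2 * a) + 3) = D1 * C / (64 * m) := by
        rw [hD1, hD2]; field_simp
      rw [h2]
      calc D1 * C / (64 * m) * Real.log n = (D1 * Real.log n) * (C / (64 * m)) := by ring
        _ ≤ β * (C / (64 * m)) := mul_le_mul_of_nonneg_right hD1' (by positivity)
        _ = _ := by field_simp; norm_num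
    linarith
  have hT2 : Real.exp (B * Real.log n + C ^ m / (2 * a) * Real.log n) *
      Real.exp (-(C ^ m / a * Real.log n)) ≤ 1 / (n : ℝ) ^ 3 := by
    rw [← hlogn, ← Real.exp_add]
    apply Real.exp_le_exp.mpr
    have h1 : B + 3 ≤ C ^ m / (2 * a) := by
      rw [le_div_iff₀ (by positivity)]
      linarith
    have h2 : C ^ m / a = C ^ m / (2 * a) + C ^ m / (2 * a) := by field_simp; norm_num
    have h3 := mul_le_mul_of_nonneg_right h1 (by linarith : 0 ≤ Real.log n)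
    rw [h2]
    linarith
  calc (n : ℝ) ^ 2 * ((∑ k ∈ range K, (C ^ m * Real.log n) ^ k / (k.factorial : ℝ)) *
        (m * Real.exp (-(n * p0 / (8 * m) / 8)) + Real.exp (-(C ^ m / a * Real.log n))))
      ≤ (n : ℝ) ^ 2 * (Real.exp (B * Real.log n + C ^ m / (2 * a) * Real.log n) *
        (m * Real.exp (-(n * p0 / (8 * m) / 8)) + Real.exp (-(C ^ m / a * Real.log n)))) := by
        have := hsum.trans hA
        gcongr
    _ = (n : ℝ) ^ 2 * (m * (Real.exp (B * Real.log n + C ^ m / (2 * a) * Real.log n) *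
        Real.exp (-(n * p0 / (8 * m) / 8))) +
        Real.exp (B * Real.log n + C ^ m / (2 * a) * Real.log n) *
        Real.exp (-(C ^ m / a * Real.log n))) := by ring
    _ ≤ (n : ℝ) ^ 2 * (m * (1 / (n : ℝ) ^ 3) + 1 / (n : ℝ) ^ 3) := by gcongr
    _ = ((m : ℝ) + 1) * (1 / (n : ℝ)) := by
        field_simp

end Pool.MP_65847d_pr
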