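import Pool.Agent.Lib.MP_65847d_pr.LowerFinite

/-!
# The lower bound: a surjective homomorphism exists with high probability
-/

set_option autoImplicit false

open Finset Filter Topology

namespace Pool.MP_65847d_pr

open Pool.MP_1bacea_co

/-- the threshold function `(n log n)^(1/m) / n` -/
noncomputable def qf (m : ℕ) (n : ℕ) : ℝ := ((n : ℝ) * Real.log n) ^ (1 / (m : ℝ)) / n

theorem exp_neg_two_mul_le {X : ℝ} (h0 : 0 ≤ X) (h1 : X ≤ 1 / 2) : Real.exp (-(2 * X)) ≤ 1 - X := by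
  have h2 : Real.exp (-(2 * X)) ≤ 1 / (1 + 2 * X) := by
    rw [Real.exp_neg, one_div]
    apply inv_anti₀ (by linarith)
    linarith [Real.add_one_le_exp (2 * X)]
  refine h2.trans ?_
  rw [div_le_iff₀ (by linarith)]
  nlinarith

theorem pow_fail_le {X y : ℝ} (h0 : 0 ≤ X) (h1 : X ≤ 1 / 2) (N t : ℕ) (hy : 2 * X * N ≤ y) :
    (1 - (1 - X) ^ N) ^ t ≤ Real.exp (-(t * Real.exp (-y))) := by
  have h2 : Real.exp (-y) ≤ (1 - X) ^ N := by
    calc Real.exp (-y) ≤ Real.exp (N * -(2 * X)) := Real.exp_le_exp.mpr (by linarith)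
      _ = Real.exp (-(2 * X)) ^ N := by rw [Real.exp_nat_mul]
      _ ≤ (1 - X) ^ N := pow_le_pow_left₀ (Real.exp_pos _).le (exp_neg_two_mul_le h0 h1) _
  have h3 : 0 ≤ 1 - (1 - X) ^ N := by
    have := pow_le_one₀ (n := N) (a := 1 - X) (by linarith) (by linarith)
    linarith
  calc (1 - (1 - X) ^ N) ^ t ≤ (Real.exp (-(Real.exp (-y)))) ^ t := by
        apply pow_le_pow_left₀ h3
        have := Real.add_one_le_exp (-(Real.exp (-y)))
        linarith
    _ = Real.exp (-(t * Real.exp (-y))) := by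
        rw [← Real.exp_nat_mul]
        congr 1
        ring

theorem lower_asymp {V : Type*} [Fintype V] [DecidableEq V] (E : V → V → Prop)
    (hE : ∀ a b, E a b → E b a) (m : ℕ) (hm : 2 ≤ m) (hsys : HasSystem E m) :
    ∃ ε : ℝ, 0 < ε ∧ ∀ p : ℕ → ℝ, (∀ n, 0 ≤ p n) → (∀ n, p n ≤ 1) →
      (∀ᶠ n in atTop, p n ≤ ε * qf m n) →
      Tendsto (fun n : ℕ => Pr (p n) (fun ω : Sym2 (Fin n) → Bool => ¬ SurjHom E (Gr ω)))
        atTop (𝓝 0) := by
  classical
  have hVne : Nonempty V := by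
    obtain ⟨P, R, c, -⟩ := hsys
    exact ⟨c⟩
  set k : ℕ := Fintype.card V with hk
  have hk1 : 1 ≤ k := Fintype.card_pos
  have hk1r : (1 : ℝ) ≤ k := by exact_mod_cast hk1
  have hm0 : (0 : ℝ) < m := by exact_mod_cast (by omega : 0 < m)
  have hm1r : (1 : ℝ) ≤ m := by exact_mod_cast (by omega : 1 ≤ m)
  set ε : ℝ := 1 / (16 * m * k ^ 2 * 3 ^ m) with hε
  have hden : (1 : ℝ) ≤ 16 * m * k ^ 2 * 3 ^ m := by
    have h1 : (1 : ℝ) ≤ (k : ℝ) ^ 2 := one_le_pow₀ hk1r
    have h2 : (1 : ℝ) ≤ 3 ^ m := one_le_pow₀ (by norm_num)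
    have h3 : (1 : ℝ) ≤ 16 * m := by linarith
    have h4 : (1 : ℝ) ≤ 16 * m * (k : ℝ) ^ 2 := one_le_mul_of_one_le_of_one_le h3 h1
    exact one_le_mul_of_one_le_of_one_le h4 h2
  have hε0 : 0 < ε := by rw [hε]; positivity
  have hε1 : ε ≤ 1 := by
    rw [hε, div_le_one (by linarith)]
    exact hden
  have hεm : ε ^ m ≤ ε := by
    calc ε ^ m ≤ ε ^ 1 := pow_le_pow_of_le_one hε0.le hε1 (by omega)
      _ = ε := pow_one _
  refine ⟨ε, hε0, fun p hp0 hp1 hp => ?_⟩
  set a : ℝ := 1 / (8 * m) with ha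
  have ha0 : 0 < a := by rw [ha]; positivity
  -- limits
  have hlogr : ∀ r : ℝ, 0 < r → Tendsto (fun n : ℕ => Real.log (n : ℝ) / (n : ℝ) ^ r) atTop (𝓝 0) := by
    intro r hr
    have h1 := (isLittleO_log_rpow_atTop hr).tendsto_div_nhds_zero
    exact h1.comp tendsto_natCast_atTop_atTop
  have hrpow : ∀ r : ℝ, 0 < r → Tendsto (fun n : ℕ => (n : ℝ) ^ r) atTop atTop := fun r hr =>
    (tendsto_rpow_atTop hr).comp tendsto_natCast_atTop_atTop
  have hlog : Tendsto (fun n : ℕ => Real.log (n : ℝ)) atTop atTop :=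
    Real.tendsto_log_atTop.comp tendsto_natCast_atTop_atTop
  -- the bounding function tends to zero
  have hbound : Tendsto (fun n : ℕ => (2 * k ^ 2 * m ^ 2 / ε : ℝ) *
      (Real.log (n : ℝ) / (n : ℝ) ^ (1 / (2 * m) : ℝ)) + 1 / (n : ℝ) +
      Real.exp (-((n : ℝ) ^ a - 1))) atTop (𝓝 0) := by
    have h1 := (hlogr (1 / (2 * m)) (by positivity)).const_mul (2 * k ^ 2 * m ^ 2 / ε : ℝ)
    have h2 : Tendsto (fun n : ℕ => 1 / (n : ℝ)) atTop (𝓝 0) := tendsto_one_div_atTop_nhds_zero_nat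
    have h3 : Tendsto (fun n : ℕ => Real.exp (-((n : ℝ) ^ a - 1))) atTop (𝓝 0) := by
      apply Real.tendsto_exp_neg_atTop_nhds_zero.comp
      exact tendsto_atTop_add_const_right _ (-1) (hrpow a ha0)
    have h4 := (h1.add h2).add h3
    simpa using h4
  refine squeeze_zero' (Eventually.of_forall fun n => Pr_nonneg (hp0 n) (hp1 n) _) ?_ hbound
  -- eventual facts
  have e1 : ∀ᶠ n : ℕ in atTop, 1 ≤ n := eventually_ge_atTop 1
  have e2 : ∀ᶠ n : ℕ in atTop, 1 ≤ Real.log (n : ℝ) := hlog.eventually_ge_atTop 1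
  have e3 : ∀ᶠ n : ℕ in atTop, Real.log (n : ℝ) / (n : ℝ) ^ (1 / m : ℝ) < ε / 2 :=
    (hlogr (1 / m) (by positivity)).eventually_lt_const (by positivity)
  have e4 : ∀ᶠ n : ℕ in atTop, (1 : ℝ) / ε ≤ (n : ℝ) ^ (1 / m : ℝ) :=
    (hrpow (1 / m) (by positivity)).eventually_ge_atTop _
  have e5 : ∀ᶠ n : ℕ in atTop, (k : ℝ) ≤ (n : ℝ) ^ (3 / 4 : ℝ) :=
    (hrpow (3 / 4) (by norm_num)).eventually_ge_atTop _
  filter_upwards [hp, e1, e2, e3, e4, e5] with n hpn hn1 hlog1 hlogs hbig hkn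
  have hn0 : 0 < n := hn1
  have hnr : (0 : ℝ) < n := by exact_mod_cast hn0
  have hnr1 : (1 : ℝ) ≤ n := by exact_mod_cast hn1
  have hlog0 : 0 < Real.log (n : ℝ) := by linarith
  set b : ℝ := ((n : ℝ) * Real.log n) ^ (1 / (m : ℝ)) with hb
  have hb0 : 0 ≤ b := Real.rpow_nonneg (by positivity) _
  have hbm : b ^ m = n * Real.log n := by
    rw [hb, one_div]
    exact Real.rpow_inv_natCast_pow (by positivity) (by omega)
  have hbn : (n : ℝ) ^ (1 / m : ℝ) ≤ b := by
    rw [hb]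
    apply Real.rpow_le_rpow hnr.le _ (by positivity)
    nlinarith only [hlog1]
  have hnm0 : 0 < (n : ℝ) ^ (1 / m : ℝ) := Real.rpow_pos_of_pos hnr _
  set s : ℝ := ε * b with hs
  have hsn : ε * (n : ℝ) ^ (1 / m : ℝ) ≤ s := mul_le_mul_of_nonneg_left hbn hε0.le
  have hs1 : 1 ≤ s := by
    refine le_trans ?_ hsn
    rw [div_le_iff₀ hε0] at hbig
    linarith only [hbig]
  have hs0 : 0 < s := by linarith only [hs1]
  have hnp : (n : ℝ) * p n ≤ s := by
    calc (n : ℝ) * p n ≤ n * (ε * qf m n) := mul_le_mul_of_nonneg_left hpn hnr.le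
      _ = s := by
          unfold qf
          rw [hs, hb]
          field_simp
  have hslog : 2 * Real.log n ≤ s := by
    refine le_trans ?_ hsn
    rw [div_lt_iff₀ hnm0] at hlogs
    linarith
  have hsm : s ^ m = ε ^ m * (n * Real.log n) := by rw [hs, mul_pow, hbm]
  set Δ : ℕ := ⌊3 * s⌋₊ with hΔ
  have hΔ1 : 3 * s ≤ Δ + 1 := (Nat.lt_floor_add_one _).le
  have hΔ2 : (Δ : ℝ) ≤ 3 * s := Nat.floor_le (by positivity)
  set t : ℕ := ⌊(n : ℝ) ^ (2 * a)⌋₊ with ht
  have ht1 : (n : ℝ) ^ (2 * a) - 1 ≤ t := by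
    have := Nat.lt_floor_add_one ((n : ℝ) ^ (2 * a))
    linarith
  have ht2 : (t : ℝ) ≤ (n : ℝ) ^ (2 * a) := Nat.floor_le (by positivity)
  have h2a : 2 * a ≤ 1 / 8 := by
    rw [ha]
    have : 1 / (8 * (m : ℝ)) ≤ 1 / (8 * 2) := by
      apply one_div_le_one_div_of_le (by norm_num)
      have : (2 : ℝ) ≤ m := by exact_mod_cast hm
      linarith
    linarith
  have htk : t * k ≤ n := by
    have h1 : (t : ℝ) * k ≤ n := by
      calc (t : ℝ) * k ≤ (n : ℝ) ^ (2 * a) * (n : ℝ) ^ (3 / 4 : ℝ) :=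
            mul_le_mul ht2 hkn (by positivity) (by positivity)
        _ = (n : ℝ) ^ (2 * a + 3 / 4) := by rw [Real.rpow_add hnr]
        _ ≤ (n : ℝ) ^ (1 : ℝ) := Real.rpow_le_rpow_of_exponent_le hnr1 (by linarith only [h2a, ha0])
        _ = n := Real.rpow_one _
    exact_mod_cast h1
  -- the critical quantity
  set X : ℝ := p n ^ 2 * ((k * Δ ^ (m - 2) : ℕ) : ℝ) with hX
  have hX0 : 0 ≤ X := by positivity
  have hXle : X * (16 * m * k) * n ≤ Real.log n := by
    have h1 : p n ≤ s / n := by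
      rw [le_div_iff₀ hnr]
      linarith only [hnp]
    have h2 : X ≤ (s / n) ^ 2 * (k * (3 * s) ^ (m - 2)) := by
      rw [hX]
      push_cast
      refine mul_le_mul (pow_le_pow_left₀ (hp0 n) h1 2) ?_ (by positivity) (by positivity)
      exact mul_le_mul_of_nonneg_left (pow_le_pow_left₀ (Nat.cast_nonneg _) hΔ2 _) (by positivity)
    have h3 : (s / n) ^ 2 * (k * (3 * s) ^ (m - 2)) = k * 3 ^ (m - 2) * s ^ m / n ^ 2 := by
      have h4 : s ^ m = s ^ (m - 2) * s ^ 2 := by rw [← pow_add]; congr 1; omega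
      rw [h4, mul_pow]
      field_simp
    have h5 : k * 3 ^ (m - 2) * s ^ m / (n : ℝ) ^ 2 = k * 3 ^ (m - 2) * ε ^ m * Real.log n / n := by
      rw [hsm]
      field_simp
    have h6 : (3 : ℝ) ^ (m - 2) ≤ 3 ^ m := pow_le_pow_right₀ (by norm_num) (by omega)
    have h7 : (k : ℝ) * 3 ^ (m - 2) * ε ^ m ≤ 1 / (16 * m * k) := by
      calc (k : ℝ) * 3 ^ (m - 2) * ε ^ m ≤ k * 3 ^ m * ε := by
            refine mul_le_mul ?_ hεm (by positivity) (by positivity)
            exact mul_le_mul_of_nonneg_left h6 (by positivity)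
        _ = 1 / (16 * m * k) := by
            rw [hε]
            field_simp
    have h8 : X ≤ 1 / (16 * m * k) * Real.log n / n := by
      refine h2.trans ?_
      rw [h3, h5]
      gcongr
    calc X * (16 * m * k) * n ≤ (1 / (16 * m * k) * Real.log n / n) * (16 * m * k) * n := by
          gcongr
      _ = Real.log n := by field_simp
  have hlogn : Real.log n ≤ n := (Real.log_le_sub_one_of_pos hnr).trans (by linarith only [h2a, ha0])
  have hXhalf : X ≤ 1 / 2 := by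
    have h1 : X * (16 * m * k) * n ≤ 1 * n := by linarith only [hXle, hlogn]
    have h2 : X * (16 * m * k) ≤ 1 := le_of_mul_le_mul_right h1 hnr
    have h3 : (2 : ℝ) ≤ 16 * m * k := by
      have : (1 : ℝ) ≤ m * k := one_le_mul_of_one_le_of_one_le hm1r hk1r
      linarith only [h2a, ha0, this]
    nlinarith only [h2, h2a, h3, hX0, ha0]
  have hmain := lower_finite E hE m hm hsys n hn0 (hp0 n) (hp1 n) s hs1 hnp Δ hΔ1 t htk
    (by rw [← hk, ← hX]; linarith only [h2a, hXhalf, ha0])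
  refine hmain.trans ?_
  rw [← hk, ← hX]
  refine add_le_add (add_le_add ?_ ?_) ?_
  · -- first term
    have h1 : s ^ (m - 1) / (n : ℝ) ≤ Real.log n / (ε * (n : ℝ) ^ (1 / m : ℝ)) := by
      rw [div_le_div_iff₀ hnr (by positivity)]
      calc s ^ (m - 1) * (ε * (n : ℝ) ^ (1 / m : ℝ)) ≤ s ^ (m - 1) * s :=
            mul_le_mul_of_nonneg_left hsn (by positivity)
        _ = s ^ m := by rw [← pow_succ]; congr 1; omega
        _ = ε ^ m * (n * Real.log n) := hsm
        _ ≤ 1 * (n * Real.log n) := by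
            refine mul_le_mul_of_nonneg_right (hεm.trans hε1) (by positivity)
        _ = Real.log n * n := by ring
    have h2 : (t : ℝ) ^ 2 ≤ (n : ℝ) ^ (1 / (2 * m) : ℝ) := by
      calc (t : ℝ) ^ 2 ≤ ((n : ℝ) ^ (2 * a)) ^ 2 := pow_le_pow_left₀ (by positivity) ht2 2
        _ = (n : ℝ) ^ (1 / (2 * m) : ℝ) := by
            rw [← Real.rpow_natCast, ← Real.rpow_mul hnr.le]
            congr 1
            rw [ha]
            push_cast
            field_simp
            norm_num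
    have h3 : (n : ℝ) ^ (1 / m : ℝ) = (n : ℝ) ^ (1 / (2 * m) : ℝ) * (n : ℝ) ^ (1 / (2 * m) : ℝ) := by
      rw [← Real.rpow_add hnr]
      congr 1
      field_simp
      norm_num
    have hr0 : 0 < (n : ℝ) ^ (1 / (2 * m) : ℝ) := Real.rpow_pos_of_pos hnr _
    calc 2 * ((t : ℝ) * k) ^ 2 * (m : ℝ) ^ 2 * (s ^ (m - 1) / n)
        = 2 * k ^ 2 * m ^ 2 * ((t : ℝ) ^ 2 * (s ^ (m - 1) / n)) := by ring
      _ ≤ 2 * k ^ 2 * m ^ 2 * ((n : ℝ) ^ (1 / (2 * m) : ℝ) *
          (Real.log n / (ε * (n : ℝ) ^ (1 / m : ℝ)))) := by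
          refine mul_le_mul_of_nonneg_left (mul_le_mul h2 h1 (by positivity) hr0.le) (by positivity)
      _ = _ := by
          rw [h3]
          field_simp
  · -- second term
    have h1 : Real.exp (-s) ≤ Real.exp (-(2 * Real.log n)) := Real.exp_le_exp.mpr (by linarith only [hslog])
    have h2 : Real.exp (-(2 * Real.log n)) = 1 / (n : ℝ) ^ 2 := by
      rw [Real.exp_neg, two_mul, Real.exp_add, Real.exp_log hnr]
      field_simp
    calc (n : ℝ) * Real.exp (-s) ≤ n * (1 / (n : ℝ) ^ 2) := by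
          rw [← h2]
          exact mul_le_mul_of_nonneg_left h1 hnr.le
      _ = 1 / (n : ℝ) := by field_simp
  · -- third term
    have h1 : 2 * X * ((k * n : ℕ) : ℝ) ≤ a * Real.log n := by
      have h2 : X * (16 * m * k) * n = (2 * X * (k * n)) * (8 * m) := by ring
      rw [h2] at hXle
      have h3 : 2 * X * (k * n) ≤ Real.log n / (8 * m) := by
        rw [le_div_iff₀ (by positivity)]
        exact hXle
      push_cast
      refine h3.trans (le_of_eq ?_)
      rw [ha]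
      field_simp
    refine (pow_fail_le hX0 hXhalf (k * n) t h1).trans (Real.exp_le_exp.mpr ?_)
    have h2 : Real.exp (-(a * Real.log n)) = ((n : ℝ) ^ a)⁻¹ := by
      rw [Real.exp_neg, Real.rpow_def_of_pos hnr, mul_comm]
    rw [h2]
    have hna : 1 ≤ (n : ℝ) ^ a := Real.one_le_rpow hnr1 ha0.le
    have h3 : (n : ℝ) ^ (2 * a) = (n : ℝ) ^ a * (n : ℝ) ^ a := by
      rw [← Real.rpow_add hnr]
      congr 1
      ring
    rw [h3] at ht1
    have h4 : (n : ℝ) ^ a - 1 ≤ t * ((n : ℝ) ^ a)⁻¹ := by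
      rw [← div_eq_mul_inv, le_div_iff₀ (by linarith only [h2a, ha0, hna])]
      nlinarith only [hna, ht1]
    linarith only [h4]

end Pool.MP_65847d_pr
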