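import Pool.Agent.Lib.MP_65847d_pr.Paths
import Pool.Agent.Lib.MP_65847d_pr.Indep
import Pool.Agent.Lib.MP_65847d_pr.Colour

/-!
# The finite form of the lower bound
-/

set_option autoImplicit false
set_option linter.unusedSectionVars false

open Finset

namespace Pool.MP_65847d_pr

open Pool.MP_1bacea_co

/-- A radial system for the graph `E` with parameter `m`. -/
def HasSystem {V : Type*} (E : V → V → Prop) (m : ℕ) : Prop :=
  ∃ (P : V → ℕ → V) (R : V → ℕ) (c : V), (∀ f, 1 ≤ R f) ∧ (∀ f, P f 0 = f) ∧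
      (∀ f j, j < R f → E (P f j) (P f (j + 1))) ∧ (∀ f, P f (R f) = c) ∧ E c c ∧
      (∀ f f', f ≠ f' → ∀ j < R f, ∀ j' < R f', j + j' ≤ m) ∧
      (∀ f f', f ≠ f' → ∀ j < R f, ∀ j' < R f', m < j + j' + 1 → E (P f j) (P f' j')) ∧
      (∀ f, ∀ j < R f, m < 2 * j + 1 → E (P f j) (P f j))

variable {V : Type*} [Fintype V] [DecidableEq V]

theorem Pr_noShort {α : Type*} [Fintype α] [DecidableEq α] {p : ℝ} (h0 : 0 ≤ p) (h1 : p ≤ 1)
    (U : Finset α) (m : ℕ) (hα : 0 < Fintype.card α) (s : ℝ) (hs1 : 1 ≤ s)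
    (hs : Fintype.card α * p ≤ s) :
    Pr p (fun ω : Sym2 α → Bool => ¬ NoShort (Gr ω) (↑U : Set α) m) ≤
      (U.card : ℝ) ^ 2 * m * (s ^ (m - 1) / Fintype.card α) := by
  classical
  set n : ℝ := (Fintype.card α : ℝ) with hn
  have hn0 : 0 < n := by rw [hn]; exact_mod_cast hα
  have hterm : ∀ l, 1 ≤ l → l + 1 ≤ m → n ^ (l - 1) * p ^ l ≤ s ^ (m - 1) / n := by
    intro l hl1 hlm
    rw [le_div_iff₀ hn0]
    calc n ^ (l - 1) * p ^ l * n = (n ^ (l - 1) * n) * p ^ l := by ring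
      _ = (n * p) ^ l := by
          rw [← pow_succ, show l - 1 + 1 = l by omega, mul_pow]
      _ ≤ s ^ l := pow_le_pow_left₀ (by positivity) hs _
      _ ≤ s ^ (m - 1) := pow_le_pow_right₀ hs1 (by omega)
  calc Pr p (fun ω : Sym2 α → Bool => ¬ NoShort (Gr ω) (↑U : Set α) m)
      ≤ Pr p (fun ω : Sym2 α → Bool => ∃ q ∈ (U ×ˢ U) ×ˢ range m, 1 ≤ q.2 ∧ q.2 + 1 ≤ m ∧
          ∃ x : ℕ → α, PathSeq (Gr ω) q.2 x ∧ x 0 = q.1.1 ∧ x q.2 = q.1.2) := by
        refine Pr_mono h0 h1 fun ω hω => ?_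
        unfold NoShort at hω
        push Not at hω
        obtain ⟨u, hu, u', hu', -, l, hl1, hlm, x, hx, hx0, hxl⟩ := hω
        exact ⟨((u, u'), l), mem_product.mpr ⟨mem_product.mpr ⟨hu, hu'⟩,
          mem_range.mpr (by omega)⟩, hl1, hlm, x, hx, hx0, hxl⟩
    _ ≤ ∑ q ∈ (U ×ˢ U) ×ˢ range m, Pr p (fun ω : Sym2 α → Bool => 1 ≤ q.2 ∧ q.2 + 1 ≤ m ∧
          ∃ x : ℕ → α, PathSeq (Gr ω) q.2 x ∧ x 0 = q.1.1 ∧ x q.2 = q.1.2) :=
        Pr_exists_le h0 h1 _ _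
    _ ≤ ∑ _q ∈ (U ×ˢ U) ×ˢ range m, s ^ (m - 1) / n := by
        refine sum_le_sum fun q _ => ?_
        by_cases hq : 1 ≤ q.2 ∧ q.2 + 1 ≤ m
        · refine le_trans (Pr_mono h0 h1 fun ω hω => hω.2.2) ?_
          exact (Pr_path_le h0 h1 q.1.1 q.1.2 hq.1).trans (hterm q.2 hq.1 hq.2)
        · have : Pr p (fun ω : Sym2 α → Bool => 1 ≤ q.2 ∧ q.2 + 1 ≤ m ∧
              ∃ x : ℕ → α, PathSeq (Gr ω) q.2 x ∧ x 0 = q.1.1 ∧ x q.2 = q.1.2) ≤
              Ex p (fun _ : Sym2 α → Bool => (0 : ℝ)) :=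
            Ex_mono h0 h1 fun ω => le_of_eq (ind_false fun h => hq ⟨h.1, h.2.1⟩)
          rw [Ex_const] at this
          exact this.trans (by positivity)
    _ = _ := by
        rw [sum_const, nsmul_eq_mul, card_product, card_product, card_range]
        push_cast
        ring

theorem Pr_noLolly {α : Type*} [Fintype α] [DecidableEq α] {p : ℝ} (h0 : 0 ≤ p) (h1 : p ≤ 1)
    (U : Finset α) (m : ℕ) (hα : 0 < Fintype.card α) (s : ℝ) (hs1 : 1 ≤ s)
    (hs : Fintype.card α * p ≤ s) :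
    Pr p (fun ω : Sym2 α → Bool => ¬ NoLolly (Gr ω) (↑U : Set α) m) ≤
      (U.card : ℝ) * (m : ℝ) ^ 2 * (s ^ (m - 1) / Fintype.card α) := by
  classical
  set n : ℝ := (Fintype.card α : ℝ) with hn
  have hn0 : 0 < n := by rw [hn]; exact_mod_cast hα
  have hterm : ∀ l, l + 2 ≤ m → n ^ l * p ^ (l + 1) ≤ s ^ (m - 1) / n := by
    intro l hlm
    rw [le_div_iff₀ hn0]
    calc n ^ l * p ^ (l + 1) * n = (n * p) ^ (l + 1) := by ring
      _ ≤ s ^ (l + 1) := pow_le_pow_left₀ (by positivity) hs _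
      _ ≤ s ^ (m - 1) := pow_le_pow_right₀ hs1 (by omega)
  calc Pr p (fun ω : Sym2 α → Bool => ¬ NoLolly (Gr ω) (↑U : Set α) m)
      ≤ Pr p (fun ω : Sym2 α → Bool => ∃ q ∈ U ×ˢ (range m ×ˢ range m), q.2.1 + 2 ≤ m ∧
          q.2.2 + 1 < q.2.1 ∧ ∃ x : ℕ → α, PathSeq (Gr ω) q.2.1 x ∧ x 0 = q.1 ∧
            (Gr ω).Adj (x q.2.1) (x q.2.2)) := by
        refine Pr_mono h0 h1 fun ω hω => ?_
        unfold NoLolly at hω
        push Not at hω
        obtain ⟨u, hu, l, i, hlm, hil, x, hx, hx0, hadj⟩ := hω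
        exact ⟨(u, (l, i)), mem_product.mpr ⟨hu, mem_product.mpr
          ⟨mem_range.mpr (show l < m by omega), mem_range.mpr (show i < m by omega)⟩⟩, hlm, hil, x, hx, hx0, hadj⟩
    _ ≤ ∑ q ∈ U ×ˢ (range m ×ˢ range m), Pr p (fun ω : Sym2 α → Bool => q.2.1 + 2 ≤ m ∧
          q.2.2 + 1 < q.2.1 ∧ ∃ x : ℕ → α, PathSeq (Gr ω) q.2.1 x ∧ x 0 = q.1 ∧
            (Gr ω).Adj (x q.2.1) (x q.2.2)) :=
        Pr_exists_le h0 h1 _ _
    _ ≤ ∑ _q ∈ U ×ˢ (range m ×ˢ range m), s ^ (m - 1) / n := by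
        refine sum_le_sum fun q _ => ?_
        by_cases hq : q.2.1 + 2 ≤ m ∧ q.2.2 + 1 < q.2.1
        · refine le_trans (Pr_mono h0 h1 fun ω hω => hω.2.2) ?_
          exact (Pr_lolly_le h0 h1 q.1 hq.2).trans (hterm q.2.1 hq.1)
        · have : Pr p (fun ω : Sym2 α → Bool => q.2.1 + 2 ≤ m ∧
              q.2.2 + 1 < q.2.1 ∧ ∃ x : ℕ → α, PathSeq (Gr ω) q.2.1 x ∧ x 0 = q.1 ∧
                (Gr ω).Adj (x q.2.1) (x q.2.2)) ≤ Ex p (fun _ : Sym2 α → Bool => (0 : ℝ)) :=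
            Ex_mono h0 h1 fun ω => le_of_eq (ind_false fun h => hq ⟨h.1, h.2.1⟩)
          rw [Ex_const] at this
          exact this.trans (by positivity)
    _ = _ := by
        rw [sum_const, nsmul_eq_mul, card_product, card_product, card_range]
        push_cast
        ring

theorem lower_finite (E : V → V → Prop) (hE : ∀ a b, E a b → E b a) (m : ℕ) (hm : 2 ≤ m)
    (hsys : HasSystem E m) (n : ℕ) (hn : 0 < n) {p : ℝ} (h0 : 0 ≤ p) (h1 : p ≤ 1)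
    (s : ℝ) (hs1 : 1 ≤ s) (hs : n * p ≤ s) (Δ : ℕ) (hΔ : 3 * s ≤ Δ + 1) (t : ℕ)
    (ht : t * Fintype.card V ≤ n)
    (hD : p ^ 2 * ((Fintype.card V * Δ ^ (m - 2) : ℕ) : ℝ) ≤ 1) :
    Pr p (fun ω : Sym2 (Fin n) → Bool => ¬ SurjHom E (Gr ω)) ≤
      2 * ((t : ℝ) * Fintype.card V) ^ 2 * (m : ℝ) ^ 2 * (s ^ (m - 1) / n) +
        n * Real.exp (-s) +
        (1 - (1 - p ^ 2 * ((Fintype.card V * Δ ^ (m - 2) : ℕ) : ℝ)) ^
          (Fintype.card V * n)) ^ t := by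
  classical
  obtain ⟨P, R, c, hR, hP0, hstep, hend, hc, C1, C2, C3⟩ := hsys
  have hcardle : Fintype.card (Fin t × V) ≤ Fintype.card (Fin n) := by
    rw [Fintype.card_prod, Fintype.card_fin, Fintype.card_fin]
    exact ht
  obtain ⟨e⟩ := Function.Embedding.nonempty_of_card_le hcardle
  set W : Fin t → V → Fin n := fun i f => e (i, f) with hW
  set U : Finset (Fin n) := univ.map e with hU
  have hUcard : U.card = t * Fintype.card V := by
    rw [hU, card_map, card_univ, Fintype.card_prod, Fintype.card_fin]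
  have hWinj : ∀ i f i' f', W i f = W i' f' → i = i' ∧ f = f' := by
    intro i f i' f' h
    have := e.injective h
    rw [Prod.mk.injEq] at this
    exact this
  have hWU : ∀ i f, W i f ∈ U := fun i f => mem_map_of_mem e (mem_univ _)
  have hcardn : (Fintype.card (Fin n) : ℝ) = n := by rw [Fintype.card_fin]
  have hsplit : Pr p (fun ω : Sym2 (Fin n) → Bool => ¬ SurjHom E (Gr ω)) ≤
      Pr p (fun ω : Sym2 (Fin n) → Bool => ¬ NoShort (Gr ω) (↑U : Set (Fin n)) m) +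
      Pr p (fun ω : Sym2 (Fin n) → Bool => ¬ NoLolly (Gr ω) (↑U : Set (Fin n)) m) +
      Pr p (fun ω : Sym2 (Fin n) → Bool => ¬ ∀ v, dg (Gr ω) v univ ≤ Δ) +
      Pr p (fun ω : Sym2 (Fin n) → Bool => (∀ v, dg (Gr ω) v univ ≤ Δ) ∧
        ∀ i, Crit (Gr ω) (↑U : Set (Fin n)) m (W i)) := by
    refine le_trans (Pr_mono h0 h1 (B := fun ω => ((¬ NoShort (Gr ω) (↑U : Set (Fin n)) m ∨
      ¬ NoLolly (Gr ω) (↑U : Set (Fin n)) m) ∨ ¬ ∀ v, dg (Gr ω) v univ ≤ Δ) ∨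
      ((∀ v, dg (Gr ω) v univ ≤ Δ) ∧ ∀ i, Crit (Gr ω) (↑U : Set (Fin n)) m (W i)))
      fun ω hω => ?_) ?_
    · by_contra hcon
      push Not at hcon
      obtain ⟨⟨⟨hA, hB⟩, hdeg⟩, hC⟩ := hcon
      obtain ⟨i, hi⟩ := hC hdeg
      apply hω
      refine surjHom_of_radial (Gr ω) E hE P R c m hR hP0 hstep hend hc C1 C2 C3 (W i) ?_ ?_
      · exact edist_of_struct hm (W i) (fun f f' h => (hWinj _ _ _ _ h).2)
          (fun f => mem_coe.mpr (hWU i f)) hA hi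
      · intro f j u v hj hu hv
        exact level_of_struct hm (W i) (fun f => mem_coe.mpr (hWU i f)) hA hB hi f j u v hj hu hv
    · refine (Pr_or_le h0 h1 _ _).trans (add_le_add_left ?_ _)
      refine (Pr_or_le h0 h1 _ _).trans (add_le_add_left ?_ _)
      exact Pr_or_le h0 h1 _ _
  have hA := Pr_noShort h0 h1 U m (by rw [Fintype.card_fin]; exact hn) s hs1
    (by rw [hcardn]; exact hs)
  have hB := Pr_noLolly h0 h1 U m (by rw [Fintype.card_fin]; exact hn) s hs1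
    (by rw [hcardn]; exact hs)
  have hCd := Pr_maxdeg' (α := Fin n) h0 h1 s (by rw [hcardn]; exact hs) Δ hΔ
  have hDd := Pr_all_crit h0 h1 m U W hWinj hWU Δ hD
  rw [hcardn] at hA hB hCd
  rw [Fintype.card_fin] at hDd
  have hUc : (U.card : ℝ) = (t : ℝ) * Fintype.card V := by
    rw [hUcard]; push_cast; ring
  rw [hUc] at hA hB
  have hq : 0 ≤ s ^ (m - 1) / (n : ℝ) := by positivity
  have hA' : ((t : ℝ) * Fintype.card V) ^ 2 * m * (s ^ (m - 1) / n) ≤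
      ((t : ℝ) * Fintype.card V) ^ 2 * (m : ℝ) ^ 2 * (s ^ (m - 1) / n) := by
    refine mul_le_mul_of_nonneg_right (mul_le_mul_of_nonneg_left ?_ (by positivity)) hq
    have : (1 : ℝ) ≤ m := by exact_mod_cast (by omega : 1 ≤ m)
    nlinarith
  have hB' : ((t : ℝ) * Fintype.card V) * (m : ℝ) ^ 2 * (s ^ (m - 1) / n) ≤
      ((t : ℝ) * Fintype.card V) ^ 2 * (m : ℝ) ^ 2 * (s ^ (m - 1) / n) := by
    refine mul_le_mul_of_nonneg_right (mul_le_mul_of_nonneg_right ?_ (by positivity)) hq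
    have h3 : (t : ℝ) * Fintype.card V = ((t * Fintype.card V : ℕ) : ℝ) := by push_cast; ring
    rw [h3]
    have h4 : t * Fintype.card V ≤ (t * Fintype.card V) ^ 2 := Nat.le_self_pow (by norm_num) _
    exact_mod_cast h4
  linarith

end Pool.MP_65847d_pr
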