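import Pool.Agent.Lib.MP_65847d_pr.Struct
import Pool.Agent.Lib.MP_1bacea_co.Low.LProb
import Pool.Agent.Lib.MP_1bacea_co.Bridge

/-!
# First moments: short paths between fixed vertices and short lollipops
-/

set_option autoImplicit false
set_option linter.unusedSectionVars false

open Finset

namespace Pool.MP_65847d_pr

open Pool.MP_1bacea_co

variable {α : Type*} [Fintype α] [DecidableEq α] {p : ℝ}

/-- the edges of the sequence `x 0, ..., x l` -/
def edgesOf (l : ℕ) (x : ℕ → α) : Finset (Sym2 α) := (range l).image fun i => s(x i, x (i + 1))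

theorem card_edgesOf {l : ℕ} {x : ℕ → α} (hx : ∀ i ≤ l, ∀ j ≤ l, x i = x j → i = j) :
    (edgesOf l x).card = l := by
  unfold edgesOf
  rw [card_image_of_injOn, card_range]
  intro i hi j hj hij
  rw [coe_range, Set.mem_Iio] at hi hj
  have hij' : s(x i, x (i + 1)) = s(x j, x (j + 1)) := hij
  rw [Sym2.eq_iff] at hij'
  rcases hij' with ⟨h1, -⟩ | ⟨h1, h2⟩
  · exact hx i hi.le j hj.le h1
  · have h3 := hx i hi.le (j + 1) (by omega) h1
    have h4 := hx (i + 1) (by omega) j hj.le h2
    omega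

theorem close_not_mem {l i : ℕ} {x : ℕ → α} (hx : ∀ i ≤ l, ∀ j ≤ l, x i = x j → i = j)
    (hi : i + 1 < l) : s(x l, x i) ∉ edgesOf l x := by
  unfold edgesOf
  rw [mem_image]
  rintro ⟨j, hj, h⟩
  rw [mem_range] at hj
  rw [Sym2.eq_iff] at h
  rcases h with ⟨h1, -⟩ | ⟨h1, h2⟩
  · have := hx j hj.le l le_rfl h1
    omega
  · have h3 := hx j hj.le i (by omega) h1
    have h4 := hx (j + 1) (by omega) l le_rfl h2
    omega

theorem edges_on {l : ℕ} {x : ℕ → α} {ω : Sym2 α → Bool} (h : PathSeq (Gr ω) l x) :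
    ∀ e ∈ edgesOf l x, ω e = true := by
  intro e he
  unfold edgesOf at he
  rw [mem_image] at he
  obtain ⟨i, hi, rfl⟩ := he
  exact (h.2 i (mem_range.mp hi)).2

theorem Pr_path_le (h0 : 0 ≤ p) (h1 : p ≤ 1) (u u' : α) {l : ℕ} (hl : 1 ≤ l) :
    Pr p (fun ω : Sym2 α → Bool => ∃ x : ℕ → α, PathSeq (Gr ω) l x ∧ x 0 = u ∧ x l = u') ≤
      (Fintype.card α : ℝ) ^ (l - 1) * p ^ l := by
  classical
  let ex : (Fin (l - 1) → α) → ℕ → α := fun y i =>
    if i = 0 then u else if h : i - 1 < l - 1 then y ⟨i - 1, h⟩ else u'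
  have hex : ∀ x : ℕ → α, x 0 = u → x l = u' → ∀ i ≤ l, ex (fun j => x (j.1 + 1)) i = x i := by
    intro x hx0 hxl i hi
    show (if i = 0 then u else if h : i - 1 < l - 1 then x (i - 1 + 1) else u') = x i
    by_cases h : i = 0
    · rw [if_pos h, h, hx0]
    · rw [if_neg h]
      by_cases h' : i - 1 < l - 1
      · rw [dif_pos h', show i - 1 + 1 = i by omega]
      · rw [dif_neg h', show i = l by omega, hxl]
  calc Pr p (fun ω : Sym2 α → Bool => ∃ x : ℕ → α, PathSeq (Gr ω) l x ∧ x 0 = u ∧ x l = u')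
      ≤ Pr p (fun ω : Sym2 α → Bool => ∃ y ∈ (univ : Finset (Fin (l - 1) → α)),
          (∀ i ≤ l, ∀ j ≤ l, ex y i = ex y j → i = j) ∧ ∀ e ∈ edgesOf l (ex y), ω e = true) := by
        refine Pr_mono h0 h1 fun ω hω => ?_
        obtain ⟨x, hx, hx0, hxl⟩ := hω
        have hE := hex x hx0 hxl
        refine ⟨fun j => x (j.1 + 1), mem_univ _, ?_, ?_⟩
        · intro i hi j hj hij
          rw [hE i hi, hE j hj] at hij
          exact hx.1 i hi j hj hij
        · apply edges_on
          refine ⟨?_, ?_⟩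
          · intro i hi j hj hij
            rw [hE i hi, hE j hj] at hij
            exact hx.1 i hi j hj hij
          · intro i hi
            rw [hE i hi.le, hE (i + 1) (by omega)]
            exact hx.2 i hi
    _ ≤ ∑ y ∈ (univ : Finset (Fin (l - 1) → α)), Pr p (fun ω : Sym2 α → Bool =>
          (∀ i ≤ l, ∀ j ≤ l, ex y i = ex y j → i = j) ∧ ∀ e ∈ edgesOf l (ex y), ω e = true) :=
        Pr_exists_le h0 h1 _ _
    _ ≤ ∑ y ∈ (univ : Finset (Fin (l - 1) → α)), p ^ l := by
        refine sum_le_sum fun y _ => ?_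
        by_cases hy : ∀ i ≤ l, ∀ j ≤ l, ex y i = ex y j → i = j
        · rw [← congrArg (fun k => p ^ k) (card_edgesOf hy), ← Pr_all_on]
          exact Pr_mono h0 h1 fun ω hω => hω.2
        · have : Pr p (fun ω : Sym2 α → Bool => (∀ i ≤ l, ∀ j ≤ l, ex y i = ex y j → i = j) ∧
              ∀ e ∈ edgesOf l (ex y), ω e = true) ≤ Ex p (fun _ => (0 : ℝ)) :=
            Ex_mono h0 h1 fun ω => le_of_eq (ind_false fun h => hy h.1)
          rw [Ex_const] at this
          exact this.trans (pow_nonneg h0 _)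
    _ = (Fintype.card α : ℝ) ^ (l - 1) * p ^ l := by
        rw [sum_const, nsmul_eq_mul, card_univ, Fintype.card_fun, Fintype.card_fin]
        push_cast
        rfl

theorem Pr_lolly_le (h0 : 0 ≤ p) (h1 : p ≤ 1) (u : α) {l i : ℕ} (hi : i + 1 < l) :
    Pr p (fun ω : Sym2 α → Bool => ∃ x : ℕ → α, PathSeq (Gr ω) l x ∧ x 0 = u ∧
      (Gr ω).Adj (x l) (x i)) ≤ (Fintype.card α : ℝ) ^ l * p ^ (l + 1) := by
  classical
  let ex : (Fin l → α) → ℕ → α := fun y i =>
    if i = 0 then u else if h : i - 1 < l then y ⟨i - 1, h⟩ else u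
  have hex : ∀ x : ℕ → α, x 0 = u → ∀ i ≤ l, ex (fun j => x (j.1 + 1)) i = x i := by
    intro x hx0 i hi
    show (if i = 0 then u else if h : i - 1 < l then x (i - 1 + 1) else u) = x i
    by_cases h : i = 0
    · rw [if_pos h, h, hx0]
    · rw [if_neg h, dif_pos (by omega), show i - 1 + 1 = i by omega]
  calc Pr p (fun ω : Sym2 α → Bool => ∃ x : ℕ → α, PathSeq (Gr ω) l x ∧ x 0 = u ∧
          (Gr ω).Adj (x l) (x i))
      ≤ Pr p (fun ω : Sym2 α → Bool => ∃ y ∈ (univ : Finset (Fin l → α)),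
          (∀ i ≤ l, ∀ j ≤ l, ex y i = ex y j → i = j) ∧
            ∀ e ∈ insert s(ex y l, ex y i) (edgesOf l (ex y)), ω e = true) := by
        refine Pr_mono h0 h1 fun ω hω => ?_
        obtain ⟨x, hx, hx0, hxl⟩ := hω
        have hE := hex x hx0
        refine ⟨fun j => x (j.1 + 1), mem_univ _, ?_, ?_⟩
        · intro i hi j hj hij
          rw [hE i hi, hE j hj] at hij
          exact hx.1 i hi j hj hij
        · intro e he
          rw [mem_insert] at he
          rcases he with he | he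
          · rw [he, hE l le_rfl, hE i (by omega)]
            exact hxl.2
          · refine edges_on (ω := ω) ?_ e he
            refine ⟨?_, ?_⟩
            · intro i hi j hj hij
              rw [hE i hi, hE j hj] at hij
              exact hx.1 i hi j hj hij
            · intro i hi
              rw [hE i hi.le, hE (i + 1) (by omega)]
              exact hx.2 i hi
    _ ≤ ∑ y ∈ (univ : Finset (Fin l → α)), Pr p (fun ω : Sym2 α → Bool =>
          (∀ i ≤ l, ∀ j ≤ l, ex y i = ex y j → i = j) ∧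
            ∀ e ∈ insert s(ex y l, ex y i) (edgesOf l (ex y)), ω e = true) :=
        Pr_exists_le h0 h1 _ _
    _ ≤ ∑ y ∈ (univ : Finset (Fin l → α)), p ^ (l + 1) := by
        refine sum_le_sum fun y _ => ?_
        by_cases hy : ∀ i ≤ l, ∀ j ≤ l, ex y i = ex y j → i = j
        · have hcard : (insert s(ex y l, ex y i) (edgesOf l (ex y))).card = l + 1 := by
            rw [card_insert_of_notMem (close_not_mem hy hi), card_edgesOf hy]
          rw [← congrArg (fun k => p ^ k) hcard, ← Pr_all_on]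
          exact Pr_mono h0 h1 fun ω hω => hω.2
        · have : Pr p (fun ω : Sym2 α → Bool => (∀ i ≤ l, ∀ j ≤ l, ex y i = ex y j → i = j) ∧
              ∀ e ∈ insert s(ex y l, ex y i) (edgesOf l (ex y)), ω e = true) ≤
                Ex p (fun _ => (0 : ℝ)) :=
            Ex_mono h0 h1 fun ω => le_of_eq (ind_false fun h => hy h.1)
          rw [Ex_const] at this
          exact this.trans (pow_nonneg h0 _)
    _ = (Fintype.card α : ℝ) ^ l * p ^ (l + 1) := by
        rw [sum_const, nsmul_eq_mul, card_univ, Fintype.card_fun, Fintype.card_fin]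
        push_cast
        rfl

end Pool.MP_65847d_pr
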