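import Mathlib
import Pool.Agent.Lib.MP_65847d_pr.Defs

/-!
# Radial systems for graphs with a central looped clique
-/

set_option autoImplicit false

namespace Pool.MP_65847d_pr

variable {V : Type*}

theorem Walk.seq {E : V → V → Prop} : ∀ (k : ℕ) (a b : V), Walk E k a b →
    ∃ x : ℕ → V, x 0 = a ∧ x k = b ∧ ∀ i < k, E (x i) (x (i + 1))
  | 0, a, b, h => ⟨fun _ => a, rfl, h, fun i hi => absurd hi (Nat.not_lt_zero i)⟩
  | k + 1, a, b, ⟨c, h1, h2⟩ => by
      obtain ⟨x, hx0, hxk, hx⟩ := Walk.seq k c b h2
      refine ⟨fun i => if i = 0 then a else x (i - 1), if_pos rfl, ?_, ?_⟩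
      · simpa using hxk
      · intro i hi
        rcases Nat.eq_zero_or_pos i with h | h
        · subst h
          simpa [hx0] using h1
        · have h3 : i ≠ 0 := by omega
          simp only [h3, if_false, Nat.add_sub_cancel, Nat.add_eq_zero_iff, one_ne_zero, and_false]
          have h4 := hx (i - 1) (by omega)
          have h5 : i - 1 + 1 = i := by omega
          rwa [h5] at h4

theorem Walk.of_seq {E : V → V → Prop} : ∀ (k : ℕ) (x : ℕ → V),
    (∀ i < k, E (x i) (x (i + 1))) → Walk E k (x 0) (x k)
  | 0, _, _ => rfl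
  | k + 1, x, h => ⟨x 1, h 0 (Nat.succ_pos k),
      Walk.of_seq k (fun i => x (i + 1)) fun i hi => h (i + 1) (by omega)⟩

/-- The image of a walk under a homomorphism is a walk. -/
theorem Walk.map {α : Type*} {A : α → α → Prop} {E : V → V → Prop} (φ : α → V)
    (h : ∀ u v, A u v → E (φ u) (φ v)) : ∀ (k : ℕ) (a b : α), Walk A k a b → Walk E k (φ a) (φ b)
  | 0, a, b, hab => by
      have : a = b := hab
      subst this
      rfl
  | k + 1, a, b, ⟨c, h1, h2⟩ => ⟨φ c, h a c h1, Walk.map φ h k c b h2⟩

theorem radial_system (E : V → V → Prop) (Q : Set V) (hQne : Q.Nonempty)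
    (hQ : ∀ a ∈ Q, ∀ b ∈ Q, E a b) (ρ m : ℕ) (hm1 : 1 ≤ m)
    (hm : m = 2 * ρ ∨ (m + 1 = 2 * ρ ∧ Q.Subsingleton))
    (hρ : ∀ f, ∃ q ∈ Q, ∃ j ≤ ρ, Walk E j f q) :
    ∃ (P : V → ℕ → V) (R : V → ℕ) (c : V), (∀ f, 1 ≤ R f) ∧ (∀ f, P f 0 = f) ∧
      (∀ f j, j < R f → E (P f j) (P f (j + 1))) ∧ (∀ f, P f (R f) = c) ∧ E c c ∧
      (∀ f f', f ≠ f' → ∀ j < R f, ∀ j' < R f', j + j' ≤ m) ∧
      (∀ f f', f ≠ f' → ∀ j < R f, ∀ j' < R f', m < j + j' + 1 → E (P f j) (P f' j')) ∧
      (∀ f, ∀ j < R f, m < 2 * j + 1 → E (P f j) (P f j)) := by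
  classical
  obtain ⟨c, hc⟩ := hQne
  choose q hq l hl hw using hρ
  have hseq : ∀ f, ∃ x : ℕ → V, x 0 = f ∧ x (l f) = q f ∧ ∀ i < l f, E (x i) (x (i + 1)) :=
    fun f => Walk.seq _ _ _ (hw f)
  choose x hx0 hxl hx using hseq
  rcases hm with hm | ⟨hm, hsub⟩
  · refine ⟨fun f i => if i ≤ l f then x f i else c, fun f => l f + 1, c, fun f => Nat.le_add_left 1 _, ?_,
      ?_, ?_, hQ c hc c hc, ?_, ?_, ?_⟩
    · intro f
      simp [hx0]
    · intro f j hj
      dsimp only at hj ⊢
      by_cases h : j + 1 ≤ l f
      · simp only [h, if_true, (by omega : j ≤ l f)]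
        exact hx f j (by omega)
      · have h1 : j = l f := by omega
        subst h1
        simp only [h, if_false, le_refl, if_true]
        rw [hxl]
        exact hQ _ (hq f) _ hc
    · intro f
      simp
    · intro f f' _ j hj j' hj'
      dsimp only at hj hj'
      have := hl f
      have := hl f'
      omega
    · intro f f' _ j hj j' hj' hlt
      dsimp only at hj hj' ⊢
      have h1 := hl f
      have h2 := hl f'
      have h3 : j = l f := by omega
      have h4 : j' = l f' := by omega
      subst h3
      subst h4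
      simp only [le_refl, if_true]
      rw [hxl, hxl]
      exact hQ _ (hq f) _ (hq f')
    · intro f j hj hlt
      dsimp only at hj ⊢
      have h1 := hl f
      have h3 : j = l f := by omega
      subst h3
      simp only [le_refl, if_true]
      rw [hxl]
      exact hQ _ (hq f) _ (hq f)
  · refine ⟨fun f i => if i < l f then x f i else if i = 0 then f else c,
      fun f => max (l f) 1, c, fun f => le_max_right _ _, ?_, ?_, ?_, hQ c hc c hc, ?_, ?_, ?_⟩
    · intro f
      by_cases h : 0 < l f
      · simp [h, hx0]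
      · simp [h]
    · intro f j hj
      dsimp only at hj ⊢
      have hqc : q f = c := hsub (hq f) hc
      by_cases h0 : l f = 0
      · have hj0 : j = 0 := by
          rw [h0] at hj
          simpa using hj
        subst hj0
        have hfc : f = c := by
          have h1 := hx0 f
          have h2 := hxl f
          rw [h0] at h2
          rw [← h1, h2, hqc]
        have h5 : ¬ (0 < l f) := by omega
        have h6 : ¬ (0 + 1 < l f) := by omega
        rw [if_neg h5, if_neg h6, if_pos rfl, if_neg (by omega), hfc]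
        exact hQ c hc c hc
      · have hj' : j < l f := by
          rw [max_eq_left (by omega)] at hj
          exact hj
        simp only [hj', if_true]
        by_cases h : j + 1 < l f
        · simp only [h, if_true]
          exact hx f j hj'
        · simp only [h, if_false, Nat.add_eq_zero_iff, one_ne_zero, and_false]
          have h1 := hx f j hj'
          have h2 : j + 1 = l f := by omega
          rw [h2, hxl, hqc] at h1
          exact h1
    · intro f
      have h1 : ¬ max (l f) 1 < l f := by
        rw [not_lt]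
        exact le_max_left _ _
      have h2 : max (l f) 1 ≠ 0 := by
        have := le_max_right (l f) 1
        omega
      simp only [h1, h2, if_false]
    · intro f f' _ j hj j' hj'
      dsimp only at hj hj'
      have h1 := hl f
      have h2 := hl f'
      have h3 : max (l f) 1 ≤ ρ := max_le h1 (by omega)
      have h4 : max (l f') 1 ≤ ρ := max_le h2 (by omega)
      omega
    · intro f f' _ j hj j' hj' hlt
      dsimp only at hj hj' ⊢
      have h1 := hl f
      have h2 := hl f'
      have h3 : max (l f) 1 ≤ ρ := max_le h1 (by omega)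
      have h4 : max (l f') 1 ≤ ρ := max_le h2 (by omega)
      omega
    · intro f j hj hlt
      dsimp only at hj ⊢
      have h1 := hl f
      have h3 : max (l f) 1 ≤ ρ := max_le h1 (by omega)
      omega

end Pool.MP_65847d_pr
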