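import Mathlib
import Pool.Agent.Lib.MP_65847d_pr.System

/-!
# Deterministic structure: short paths, lollipops and critical pairs
-/

set_option autoImplicit false

namespace Pool.MP_65847d_pr

variable {α V : Type*}

theorem geod (G : SimpleGraph α) (w u : α) (j : ℕ) (h : G.edist w u = (j : ℕ∞)) :
    ∃ x : ℕ → α, x 0 = w ∧ x j = u ∧ (∀ i < j, G.Adj (x i) (x (i + 1))) ∧
      ∀ i ≤ j, G.edist w (x i) = (i : ℕ∞) := by
  obtain ⟨p, hp⟩ := SimpleGraph.exists_walk_of_edist_eq_coe h
  have hadj : ∀ i < j, G.Adj (p.getVert i) (p.getVert (i + 1)) := by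
    intro i hi
    exact p.adj_getVert_succ (by omega)
  have h0 : p.getVert 0 = w := p.getVert_zero
  have hj : p.getVert j = u := by rw [← hp]; exact p.getVert_length
  have hup : ∀ i ≤ j, G.edist w (p.getVert i) ≤ (i : ℕ∞) := by
    intro i
    induction i with
    | zero => intro _; rw [h0]; simp
    | succ i ih =>
      intro hi
      have h1 := ih (by omega)
      have h2 : G.edist (p.getVert i) (p.getVert (i + 1)) = 1 :=
        SimpleGraph.edist_eq_one_iff_adj.mpr (hadj i (by omega))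
      refine (G.edist_triangle (v := p.getVert i)).trans ?_
      rw [h2]
      push_cast
      exact add_le_add_left h1 1
  have hdown : ∀ i ≤ j, G.edist (p.getVert (j - i)) u ≤ (i : ℕ∞) := by
    intro i
    induction i with
    | zero => intro _; rw [Nat.sub_zero, hj]; simp
    | succ i ih =>
      intro hi
      have h1 := ih (by omega)
      have h2 : G.edist (p.getVert (j - (i + 1))) (p.getVert (j - i)) = 1 := by
        rw [SimpleGraph.edist_eq_one_iff_adj]
        have := hadj (j - (i + 1)) (by omega)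
        rwa [show j - (i + 1) + 1 = j - i by omega] at this
      refine (G.edist_triangle (v := p.getVert (j - i))).trans ?_
      rw [h2]
      push_cast
      rw [add_comm]
      exact add_le_add_left h1 1
  refine ⟨p.getVert, h0, hj, hadj, ?_⟩
  intro i hi
  refine le_antisymm (hup i hi) ?_
  have h1 := hdown (j - i) (by omega)
  rw [show j - (j - i) = i by omega] at h1
  have h2 : G.edist w u ≤ G.edist w (p.getVert i) + G.edist (p.getVert i) u := G.edist_triangle
  rw [h] at h2
  by_contra hlt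
  push Not at hlt
  have hfin : G.edist w (p.getVert i) ≠ ⊤ := ne_top_of_lt hlt
  obtain ⟨a, ha⟩ := ENat.ne_top_iff_exists.mp hfin
  rw [← ha] at hlt h2
  have h3 : (j : ℕ∞) ≤ (a : ℕ∞) + ((j - i : ℕ) : ℕ∞) := h2.trans (add_le_add_right h1 _)
  have h4 : j ≤ a + (j - i) := by exact_mod_cast h3
  have h5 : a < i := by exact_mod_cast hlt
  omega

/-- `x 0, ..., x l` is a path of `G`. -/
def PathSeq (G : SimpleGraph α) (l : ℕ) (x : ℕ → α) : Prop :=
  (∀ i ≤ l, ∀ j ≤ l, x i = x j → i = j) ∧ ∀ i < l, G.Adj (x i) (x (i + 1))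

/-- No path with less than `m` edges between different vertices of `U`. -/
def NoShort (G : SimpleGraph α) (U : Set α) (m : ℕ) : Prop :=
  ∀ u ∈ U, ∀ u' ∈ U, u ≠ u' → ∀ l, 1 ≤ l → l + 1 ≤ m → ∀ x : ℕ → α, PathSeq G l x →
    x 0 = u → x l ≠ u'

/-- No path with `l ≤ m - 2` edges starting in `U` whose last vertex is adjacent to an earlier
vertex of the path which is not the last but one. -/
def NoLolly (G : SimpleGraph α) (U : Set α) (m : ℕ) : Prop :=
  ∀ u ∈ U, ∀ l i, l + 2 ≤ m → i + 1 < l → ∀ x : ℕ → α, PathSeq G l x →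
    x 0 = u → ¬ G.Adj (x l) (x i)

/-- Two different edges from the tuple `w` to the complement of `U` are joined by a walk with
`m - 2` edges outside `U`. -/
def Crit (G : SimpleGraph α) (U : Set α) (m : ℕ) (w : V → α) : Prop :=
  ∃ f f' y y', (f, y) ≠ (f', y') ∧ y ∉ U ∧ y' ∉ U ∧ G.Adj (w f) y ∧ G.Adj (w f') y' ∧
    Walk (fun a b => G.Adj a b ∧ a ∉ U ∧ b ∉ U) (m - 2) y y'

theorem not_mem_of_noShort {G : SimpleGraph α} {U : Set α} {m : ℕ} (hA : NoShort G U m) {l : ℕ}
    {x : ℕ → α} (hx : PathSeq G l x) (h0 : x 0 ∈ U) {a : ℕ} (ha1 : 1 ≤ a) (hal : a ≤ l)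
    (ham : a + 1 ≤ m) : x a ∉ U := by
  intro ha
  refine hA (x 0) h0 (x a) ha ?_ a ha1 ham x ⟨fun i hi j hj => hx.1 i (by omega) j (by omega),
    fun i hi => hx.2 i (by omega)⟩ rfl rfl
  intro h
  have := hx.1 0 (by omega) a hal h
  omega

theorem crit_of_path {G : SimpleGraph α} {U : Set α} {m : ℕ} (hm : 2 ≤ m) {w : V → α} {x : ℕ → α}
    {f f' : V} (h0 : x 0 = w f) (hadj : ∀ i, i + 1 < m → G.Adj (x i) (x (i + 1)))
    (hlast : G.Adj (w f') (x (m - 1))) (hU : ∀ a, 1 ≤ a → a + 1 ≤ m → x a ∉ U)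
    (hne : f ≠ f' ∨ x 1 ≠ x (m - 1)) : Crit G U m w := by
  refine ⟨f, f', x 1, x (m - 1), ?_, hU 1 le_rfl (by omega), hU (m - 1) (by omega) (by omega),
    ?_, hlast, ?_⟩
  · intro h
    rw [Prod.mk.injEq] at h
    rcases hne with h' | h'
    · exact h' h.1
    · exact h' h.2
  · rw [← h0]
    exact hadj 0 (by omega)
  · have h1 := Walk.of_seq (E := fun a b => G.Adj a b ∧ a ∉ U ∧ b ∉ U) (m - 2)
      (fun i => x (i + 1)) (fun i hi => ⟨hadj (i + 1) (by omega), hU (i + 1) (by omega) (by omega),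
        hU (i + 1 + 1) (by omega) (by omega)⟩)
    simpa [show m - 2 + 1 = m - 1 by omega] using h1

theorem edist_of_struct {G : SimpleGraph α} {U : Set α} {m : ℕ} (hm : 2 ≤ m) (w : V → α)
    (hw : Function.Injective w) (hU : ∀ f, w f ∈ U) (hA : NoShort G U m) (hC : ¬ Crit G U m w)
    (f f' : V) (hff : f ≠ f') : (m : ℕ∞) < G.edist (w f) (w f') := by
  by_contra hle
  push Not at hle
  have hfin : G.edist (w f) (w f') ≠ ⊤ :=
    ne_top_of_le_ne_top (ENat.natCast_ne_top m) hle
  obtain ⟨l, hl⟩ := ENat.ne_top_iff_exists.mp hfin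
  rw [← hl] at hle
  have hlm : l ≤ m := by exact_mod_cast hle
  obtain ⟨x, hx0, hxl, hadj, hd⟩ := geod G (w f) (w f') l hl.symm
  have hpath : PathSeq G l x := by
    refine ⟨fun i hi j hj hij => ?_, hadj⟩
    have h1 := hd i hi
    rw [hij, hd j hj] at h1
    exact_mod_cast h1.symm
  have hl1 : 1 ≤ l := by
    by_contra h
    have : l = 0 := by omega
    subst this
    exact hff (hw (hx0.symm.trans hxl))
  by_cases hlt : l + 1 ≤ m
  · exact hA (w f) (hU f) (w f') (hU f') (fun h => hff (hw h)) l hl1 hlt x hpath hx0 hxl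
  · have hlm' : l = m := by omega
    subst hlm'
    refine hC (crit_of_path hm (x := x) (f := f) (f' := f') hx0 (fun i hi => hadj i (by omega)) ?_
      (fun a ha1 ha => not_mem_of_noShort hA hpath (by rw [hx0]; exact hU f) ha1 (by omega) ha)
      (Or.inl hff))
    have h1 := hadj (l - 1) (by omega)
    rw [show l - 1 + 1 = l by omega, hxl] at h1
    exact h1.symm

theorem level_of_struct {G : SimpleGraph α} {U : Set α} {m : ℕ} (hm : 2 ≤ m) (w : V → α)
    (hU : ∀ f, w f ∈ U) (hA : NoShort G U m) (hB : NoLolly G U m)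
    (hC : ¬ Crit G U m w) (f : V) (j : ℕ) (u v : α) (hj : 2 * j + 1 ≤ m)
    (hu : G.edist (w f) u = (j : ℕ∞)) (hv : G.edist (w f) v = (j : ℕ∞)) : ¬ G.Adj u v := by
  classical
  intro huv
  obtain ⟨x, hx0, hxj, hxadj, hxd⟩ := geod G (w f) u j hu
  obtain ⟨y, hy0, hyj, hyadj, hyd⟩ := geod G (w f) v j hv
  have hxinj : ∀ i ≤ j, ∀ i' ≤ j, x i = x i' → i = i' := by
    intro i hi i' hi' h
    have h1 := hxd i hi
    rw [h, hxd i' hi'] at h1
    exact_mod_cast h1.symm
  have hyinj : ∀ i ≤ j, ∀ i' ≤ j, y i = y i' → i = i' := by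
    intro i hi i' hi' h
    have h1 := hyd i hi
    rw [h, hyd i' hi'] at h1
    exact_mod_cast h1.symm
  have hxy : ∀ i ≤ j, ∀ i' ≤ j, x i = y i' → i = i' := by
    intro i hi i' hi' h
    have h1 := hxd i hi
    rw [h, hyd i' hi'] at h1
    exact_mod_cast h1.symm
  set i₀ := Nat.findGreatest (fun i => x i = y i) j with hi₀
  have hi₀le : i₀ ≤ j := Nat.findGreatest_le j
  have hi₀eq : x i₀ = y i₀ :=
    Nat.findGreatest_spec (P := fun i => x i = y i) (Nat.zero_le j) (hx0.trans hy0.symm)
  have hi₀gt : ∀ i, i₀ < i → i ≤ j → x i ≠ y i := fun i h1 h2 =>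
    Nat.findGreatest_is_greatest (P := fun i => x i = y i) h1 h2
  have hi₀j : i₀ < j := by
    rcases Nat.lt_or_ge i₀ j with h | h
    · exact h
    · have h1 : i₀ = j := by omega
      rw [h1, hxj, hyj] at hi₀eq
      exact absurd hi₀eq huv.ne
  set l := 2 * j - i₀ with hl
  set z : ℕ → α := fun a => if a ≤ j then x a else y (2 * j + 1 - a) with hz
  have hz1 : ∀ a, a ≤ j → z a = x a := fun a ha => if_pos ha
  have hz2 : ∀ a, j < a → z a = y (2 * j + 1 - a) := fun a ha => if_neg (by omega)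
  have hpath : PathSeq G l z := by
    constructor
    · intro a ha b hb hab
      by_cases h1 : a ≤ j
      · by_cases h2 : b ≤ j
        · rw [hz1 a h1, hz1 b h2] at hab
          exact hxinj a h1 b h2 hab
        · rw [hz1 a h1, hz2 b (by omega)] at hab
          have h3 := hxy a h1 _ (by omega) hab
          rw [← h3] at hab
          exact absurd hab (hi₀gt a (by omega) h1)
      · by_cases h2 : b ≤ j
        · rw [hz1 b h2, hz2 a (by omega)] at hab
          have h3 := hxy b h2 _ (by omega) hab.symm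
          rw [← h3] at hab
          exact absurd hab.symm (hi₀gt b (by omega) h2)
        · rw [hz2 a (by omega), hz2 b (by omega)] at hab
          have := hyinj _ (by omega) _ (by omega) hab
          omega
    · intro a ha
      rcases Nat.lt_trichotomy a j with h | h | h
      · rw [hz1 a h.le, hz1 (a + 1) (by omega)]
        exact hxadj a h
      · rw [hz1 a h.le, hz2 (a + 1) (by omega), h, hxj, show 2 * j + 1 - (j + 1) = j by omega, hyj]
        exact huv
      · rw [hz2 a h, hz2 (a + 1) (by omega)]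
        have h1 := hyadj (2 * j - a) (by omega)
        rw [show 2 * j + 1 - (a + 1) = 2 * j - a by omega,
          show 2 * j + 1 - a = 2 * j - a + 1 by omega]
        exact h1.symm
  have hclose : G.Adj (z l) (z i₀) := by
    rw [hz2 l (by omega), hz1 i₀ hi₀le, hi₀eq, show 2 * j + 1 - l = i₀ + 1 by omega]
    exact (hyadj i₀ hi₀j).symm
  have hz0 : z 0 = w f := by rw [hz1 0 (by omega), hx0]
  by_cases hlm : l + 2 ≤ m
  · exact hB (w f) (hU f) l i₀ hlm (by omega) z hpath hz0 hclose
  · have h1 : i₀ = 0 := by omega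
    have h2 : l = m - 1 := by omega
    refine hC (crit_of_path hm (x := z) (f := f) (f' := f) hz0
      (fun i hi => hpath.2 i (by omega)) ?_
      (fun a ha1 ha => not_mem_of_noShort hA hpath (by rw [hz0]; exact hU f) ha1 (by omega) ha)
      (Or.inr ?_))
    · rw [h1, hz0, h2] at hclose
      exact hclose.symm
    · intro h
      have := hpath.1 1 (by omega) (m - 1) (by omega) h
      omega

end Pool.MP_65847d_pr
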