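import Pool.Agent.Lib.MP_65847d_pr.Lower

/-!
# The upper bound: any two vertices are joined by a walk of length `m`
-/

set_option autoImplicit false
set_option linter.unusedSectionVars false

open Finset Filter Topology

namespace Pool.MP_65847d_pr

open Pool.MP_1bacea_co

theorem Walk.snoc {V : Type*} {E : V → V → Prop} : ∀ (k : ℕ) (a b c : V), Walk E k a b → E b c →
    Walk E (k + 1) a c
  | 0, a, b, c, h, h1 => by
      have : a = b := h
      subst this
      exact ⟨c, h1, rfl⟩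
  | k + 1, a, b, c, ⟨d, h2, h3⟩, h1 => ⟨d, h2, Walk.snoc k d b c h3 h1⟩

section explore

variable {α : Type*} [Fintype α] [DecidableEq α] {p : ℝ}

/-- exploration through the regions `C 0, C 1, ...` -/
def expl (C : ℕ → Finset α) (ω : Sym2 α → Bool) : ℕ → Finset α
  | 0 => C 0
  | i + 1 => (C (i + 1)).filter fun v => ∃ u ∈ expl C ω i, ω s(u, v) = true

theorem expl_subset (C : ℕ → Finset α) (ω : Sym2 α → Bool) (i : ℕ) : expl C ω i ⊆ C i := by
  cases i with
  | zero => exact Subset.rfl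
  | succ i => exact filter_subset _ _

theorem expl_congr (C : ℕ → Finset α) (ω ω' : Sym2 α → Bool) (i : ℕ)
    (h : ∀ j < i, ∀ u ∈ C j, ∀ v ∈ C (j + 1), ω s(u, v) = ω' s(u, v)) :
    expl C ω i = expl C ω' i := by
  induction i with
  | zero => rfl
  | succ i ih =>
    have ih' := ih fun j hj => h j (by omega)
    show (C (i + 1)).filter _ = (C (i + 1)).filter _
    refine filter_congr fun v hv => ?_
    rw [ih']
    refine exists_congr fun u => ?_
    constructor
    · rintro ⟨hu, hon⟩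
      exact ⟨hu, by rw [← h i (by omega) u (expl_subset _ _ _ hu) v hv]; exact hon⟩
    · rintro ⟨hu, hon⟩
      exact ⟨hu, by rw [h i (by omega) u (expl_subset _ _ _ hu) v hv]; exact hon⟩

theorem expl_walk {C : ℕ → Finset α} {x : α} (hC0 : C 0 = {x}) (ω : Sym2 α → Bool) {M : ℕ}
    (hdisj : ∀ i ≤ M, ∀ j ≤ M, i ≠ j → Disjoint (C i) (C j)) :
    ∀ i ≤ M, ∀ v ∈ expl C ω i, Walk (Gr ω).Adj i x v := by
  intro i
  induction i with
  | zero =>
    intro _ v hv
    have : v ∈ C 0 := hv
    rw [hC0, mem_singleton] at this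
    exact this.symm
  | succ i ih =>
    intro hi v hv
    have hv' : v ∈ (C (i + 1)).filter fun v => ∃ u ∈ expl C ω i, ω s(u, v) = true := hv
    rw [mem_filter] at hv'
    obtain ⟨hvC, u, hu, hon⟩ := hv'
    refine Walk.snoc i x u v (ih (by omega) u hu) ⟨?_, hon⟩
    rintro rfl
    exact disjoint_left.mp (hdisj i (by omega) (i + 1) hi (by omega)) (expl_subset _ _ _ hu) hvC

theorem one_sub_pow_ge {p p0 K : ℝ} (hp0 : 0 ≤ p0) (hp : p0 ≤ p) (h1 : p ≤ 1) (hK0 : 0 ≤ K)
    (hK1 : p0 * K ≤ 1) {N : ℕ} (hN : K ≤ N) : p0 * K / 2 ≤ 1 - (1 - p) ^ N := by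
  have h2 : (1 - p) ^ N ≤ Real.exp (-(p0 * K)) := by
    calc (1 - p) ^ N ≤ Real.exp (-p0) ^ N := by
          apply pow_le_pow_left₀ (by linarith)
          have := Real.add_one_le_exp (-p0)
          linarith
      _ = Real.exp (-(p0 * N)) := by rw [← Real.exp_nat_mul]; congr 1; ring
      _ ≤ Real.exp (-(p0 * K)) := by
          apply Real.exp_le_exp.mpr
          have := mul_le_mul_of_nonneg_left hN hp0
          linarith
  have h3 : Real.exp (-(p0 * K)) ≤ 1 / (1 + p0 * K) := by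
    rw [Real.exp_neg, one_div]
    apply inv_anti₀ (by positivity)
    linarith [Real.add_one_le_exp (p0 * K)]
  have hz : 0 ≤ p0 * K := by positivity
  have h4 : 1 / (1 + p0 * K) ≤ 1 - p0 * K / 2 := by
    rw [div_le_iff₀ (by positivity)]
    nlinarith
  linarith

theorem expl_step (h0 : 0 ≤ p) (h1 : p ≤ 1) (C : ℕ → Finset α) (i : ℕ)
    (hdisj : ∀ j ≤ i, Disjoint (C j) (C (i + 1))) {p0 K b : ℝ} (hp0 : 0 ≤ p0) (hp : p0 ≤ p)
    (hK0 : 0 ≤ K) (hK1 : p0 * K ≤ 1) (_hb0 : 0 ≤ b) (hb : b ≤ (C (i + 1)).card) :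
    Pr p (fun ω : Sym2 α → Bool => K ≤ ((expl C ω i).card : ℝ) ∧
      ((expl C ω (i + 1)).card : ℝ) < b * p0 / 4 * K) ≤ Real.exp (-(b * p0 / 4 * K / 8)) := by
  classical
  set S : Finset (Sym2 α) := univ.filter fun e => ∀ v ∈ C (i + 1), v ∉ e with hS
  refine Pr_mix_le h0 h1 S fun ω₁ => ?_
  set A : Finset α := expl C ω₁ i with hA
  have hAC : A ⊆ C i := expl_subset _ _ _
  have hexpl : ∀ ω₂, expl C (mix S ω₁ ω₂) i = A := by
    intro ω₂
    refine expl_congr C _ _ i fun j hj u hu v hv => ?_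
    have : s(u, v) ∈ S := by
      rw [hS, mem_filter]
      refine ⟨mem_univ _, fun w hw hwe => ?_⟩
      rw [Sym2.mem_iff] at hwe
      rcases hwe with rfl | rfl
      · exact disjoint_left.mp (hdisj j hj.le) hu hw
      · exact disjoint_left.mp (hdisj (j + 1) (by omega)) hv hw
    simp [mix, this]
  have hout : ∀ ω₂ u v, v ∈ C (i + 1) → mix S ω₁ ω₂ s(u, v) = ω₂ s(u, v) := by
    intro ω₂ u v hv
    have : s(u, v) ∉ S := by
      rw [hS, mem_filter]
      rintro ⟨-, h⟩
      exact h v hv (Sym2.mem_mk_right _ _)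
    simp [mix, this]
  by_cases hAK : K ≤ (A.card : ℝ)
  · have hx := one_sub_pow_ge hp0 hp h1 hK0 hK1 hAK
    have hmono : Pr p (fun ω₂ : Sym2 α → Bool => K ≤ ((expl C (mix S ω₁ ω₂) i).card : ℝ) ∧
        ((expl C (mix S ω₁ ω₂) (i + 1)).card : ℝ) < b * p0 / 4 * K) ≤
        Pr p (fun ω₂ : Sym2 α → Bool => ¬ ∃ J ⊆ C (i + 1), b * p0 / 4 * K ≤ (J.card : ℝ) ∧
          ∀ v ∈ J, ∃ u ∈ A, ω₂ s(u, v) = true) := by
      refine Pr_mono h0 h1 fun ω₂ hω => ?_
      rintro ⟨J, hJ, hJc, hJQ⟩
      have hsub : J ⊆ expl C (mix S ω₁ ω₂) (i + 1) := by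
        intro v hv
        show v ∈ (C (i + 1)).filter _
        rw [mem_filter]
        obtain ⟨u, hu, hon⟩ := hJQ v hv
        refine ⟨hJ hv, u, ?_, ?_⟩
        · rw [hexpl]; exact hu
        · rw [hout ω₂ u v (hJ hv)]; exact hon
      have h2 : (J.card : ℝ) ≤ ((expl C (mix S ω₁ ω₂) (i + 1)).card : ℝ) := by
        exact_mod_cast card_le_card hsub
      linarith [hω.2]
    refine hmono.trans ?_
    refine Pr_blocks_lt h0 h1 (C (i + 1)) (fun v => A.image fun u => s(u, v)) ?_
      (fun v ω => ∃ u ∈ A, ω s(u, v) = true) ?_ (1 - (1 - p) ^ A.card) ?_ _ ?_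
    · intro v hv v' hv' hne
      rw [disjoint_left]
      intro e he he'
      rw [mem_image] at he he'
      obtain ⟨u, hu, rfl⟩ := he
      obtain ⟨u', hu', h⟩ := he'
      rw [Sym2.eq_iff] at h
      rcases h with ⟨-, h⟩ | ⟨h, -⟩
      · exact hne h.symm
      · exact disjoint_left.mp (hdisj i le_rfl) (hAC hu') (h ▸ hv)
    · intro v _ ω ω' h
      refine exists_congr fun u => ?_
      constructor
      · rintro ⟨hu, hon⟩
        exact ⟨hu, by rw [← h _ (mem_image_of_mem _ hu)]; exact hon⟩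
      · rintro ⟨hu, hon⟩
        exact ⟨hu, by rw [h _ (mem_image_of_mem _ hu)]; exact hon⟩
    · intro v hv
      have hcard : (A.image fun u => s(u, v)).card = A.card := by
        apply card_image_of_injective
        intro u u' h
        exact Sym2.congr_left.mp h
      have h2 := Pr_all_off (p := p) (A.image fun u => s(u, v))
      rw [hcard] at h2
      have h3 := Pr_not p (fun ω : Sym2 α → Bool => ∀ e ∈ A.image fun u => s(u, v), ω e = false)
      rw [h2] at h3
      rw [← h3]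
      congr 1
      funext ω
      apply propext
      constructor
      · rintro ⟨u, hu, hon⟩ h
        have := h _ (mem_image_of_mem _ hu)
        rw [hon] at this
        exact Bool.noConfusion this
      · intro h
        by_contra hcon
        push Not at hcon
        apply h
        intro e he
        rw [mem_image] at he
        obtain ⟨u, hu, rfl⟩ := he
        exact Bool.eq_false_iff.mpr (hcon u hu)
    · have h2 : b * (p0 * K / 2) ≤ ((C (i + 1)).card : ℝ) * (1 - (1 - p) ^ A.card) :=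
        mul_le_mul hb hx (by positivity) (Nat.cast_nonneg _)
      linarith
  · have : Pr p (fun ω₂ : Sym2 α → Bool => K ≤ ((expl C (mix S ω₁ ω₂) i).card : ℝ) ∧
        ((expl C (mix S ω₁ ω₂) (i + 1)).card : ℝ) < b * p0 / 4 * K) ≤
        Ex p (fun _ : Sym2 α → Bool => (0 : ℝ)) := by
      refine Ex_mono h0 h1 fun ω₂ => le_of_eq (ind_false ?_)
      rintro ⟨h, -⟩
      rw [hexpl] at h
      exact hAK h
    rw [Ex_const] at this
    exact this.trans (Real.exp_pos _).le

/-- `y` is joined to the last explored set. -/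
theorem expl_last (h0 : 0 ≤ p) (h1 : p ≤ 1) (C : ℕ → Finset α) (M : ℕ) (y : α)
    (hy : ∀ j, 1 ≤ j → j ≤ M → y ∉ C j) (hdisj : ∀ i ≤ M, ∀ j ≤ M, i ≠ j → Disjoint (C i) (C j))
    (hM : 1 ≤ M) (hM2 : 2 ≤ M ∨ y ∉ C 0) {p0 K : ℝ} (hp0 : 0 ≤ p0) (hp : p0 ≤ p) :
    Pr p (fun ω : Sym2 α → Bool => K ≤ ((expl C ω M).card : ℝ) ∧
      ∀ u ∈ expl C ω M, ω s(u, y) = false) ≤ Real.exp (-(p0 * K)) := by
  classical
  set S : Finset (Sym2 α) := ((C M).image fun u => s(u, y))ᶜ with hS
  refine Pr_mix_le h0 h1 S fun ω₁ => ?_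
  set A : Finset α := expl C ω₁ M with hA
  have hAC : A ⊆ C M := expl_subset _ _ _
  have hexpl : ∀ ω₂, expl C (mix S ω₁ ω₂) M = A := by
    intro ω₂
    refine expl_congr C _ _ M fun j hj u hu v hv => ?_
    have : s(u, v) ∈ S := by
      rw [hS, mem_compl, mem_image]
      rintro ⟨u', hu', h⟩
      rw [Sym2.eq_iff] at h
      rcases h with ⟨-, h2⟩ | ⟨h2, h3⟩
      · exact hy (j + 1) (by omega) (by omega) (h2 ▸ hv)
      · -- `u' = v`, `y = u`
        have hj0 : j = 0 := by
          by_contra hj0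
          exact hy j (by omega) hj.le (h3 ▸ hu)
        subst hj0
        rcases hM2 with hM2 | hM2
        · exact disjoint_left.mp (hdisj (0 + 1) (by omega) M le_rfl (by omega)) hv (h2 ▸ hu')
        · exact hM2 (h3 ▸ hu)
    simp [mix, this]
  have hout : ∀ ω₂ u, u ∈ C M → mix S ω₁ ω₂ s(u, y) = ω₂ s(u, y) := by
    intro ω₂ u hu
    have : s(u, y) ∉ S := by
      rw [hS, mem_compl, not_not]
      exact mem_image_of_mem (fun u => s(u, y)) hu
    simp [mix, this]
  by_cases hAK : K ≤ (A.card : ℝ)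
  · have hcard : (A.image fun u => s(u, y)).card = A.card := by
      apply card_image_of_injective
      intro u u' h
      exact Sym2.congr_left.mp h
    have h2 := Pr_all_off (p := p) (A.image fun u => s(u, y))
    rw [hcard] at h2
    calc Pr p (fun ω₂ : Sym2 α → Bool => K ≤ ((expl C (mix S ω₁ ω₂) M).card : ℝ) ∧
          ∀ u ∈ expl C (mix S ω₁ ω₂) M, mix S ω₁ ω₂ s(u, y) = false)
        ≤ Pr p (fun ω₂ : Sym2 α → Bool => ∀ e ∈ A.image fun u => s(u, y), ω₂ e = false) := by
          refine Pr_mono h0 h1 fun ω₂ hω e he => ?_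
          rw [mem_image] at he
          obtain ⟨u, hu, rfl⟩ := he
          rw [← hout ω₂ u (hAC hu)]
          exact hω.2 u (by rw [hexpl]; exact hu)
      _ = (1 - p) ^ A.card := h2
      _ ≤ Real.exp (-p0) ^ A.card := by
          apply pow_le_pow_left₀ (by linarith)
          have := Real.add_one_le_exp (-p0)
          linarith
      _ = Real.exp (-(p0 * A.card)) := by rw [← Real.exp_nat_mul]; congr 1; ring
      _ ≤ Real.exp (-(p0 * K)) := by
          apply Real.exp_le_exp.mpr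
          have := mul_le_mul_of_nonneg_left hAK hp0
          linarith
  · have : Pr p (fun ω₂ : Sym2 α → Bool => K ≤ ((expl C (mix S ω₁ ω₂) M).card : ℝ) ∧
          ∀ u ∈ expl C (mix S ω₁ ω₂) M, mix S ω₁ ω₂ s(u, y) = false) ≤
        Ex p (fun _ : Sym2 α → Bool => (0 : ℝ)) := by
      refine Ex_mono h0 h1 fun ω₂ => le_of_eq (ind_false ?_)
      rintro ⟨h, -⟩
      rw [hexpl] at h
      exact hAK h
    rw [Ex_const] at this
    exact this.trans (Real.exp_pos _).le

/-- walks of length `M + 1` between two fixed vertices -/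
theorem Pr_no_walk (h0 : 0 ≤ p) (h1 : p ≤ 1) (C : ℕ → Finset α) (M : ℕ) (hM : 1 ≤ M) (x y : α)
    (hC0 : C 0 = {x}) (hy : ∀ j, 1 ≤ j → j ≤ M → y ∉ C j)
    (hdisj : ∀ i ≤ M, ∀ j ≤ M, i ≠ j → Disjoint (C i) (C j)) {p0 b : ℝ} (hp0 : 0 ≤ p0)
    (hp : p0 ≤ p) (hb0 : 0 ≤ b) (hb : ∀ j, 1 ≤ j → j ≤ M → b ≤ (C j).card)
    (hc : 1 ≤ b * p0 / 4) (hcM : p0 * (b * p0 / 4) ^ (M - 1) ≤ 1) :
    Pr p (fun ω : Sym2 α → Bool => ¬ Walk (Gr ω).Adj (M + 1) x y) ≤
      M * Real.exp (-(b * p0 / 4 / 8)) + Real.exp (-(p0 * (b * p0 / 4) ^ M)) := by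
  classical
  set c : ℝ := b * p0 / 4 with hcdef
  have hc0 : 0 ≤ c := by linarith
  -- the sets grow
  have hgrow : ∀ i ≤ M, Pr p (fun ω : Sym2 α → Bool => ((expl C ω i).card : ℝ) < c ^ i) ≤
      i * Real.exp (-(c / 8)) := by
    intro i
    induction i with
    | zero =>
      intro _
      have : Pr p (fun ω : Sym2 α → Bool => ((expl C ω 0).card : ℝ) < c ^ 0) ≤
          Ex p (fun _ : Sym2 α → Bool => (0 : ℝ)) := by
        refine Ex_mono h0 h1 fun ω => le_of_eq (ind_false ?_)
        show ¬ (((C 0).card : ℝ) < c ^ 0)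
        rw [hC0, card_singleton]
        simp
      rw [Ex_const] at this
      simpa using this
    | succ i ih =>
      intro hi
      have h2 := ih (by omega)
      have h3 : p0 * c ^ i ≤ 1 := by
        refine le_trans (mul_le_mul_of_nonneg_left ?_ hp0) hcM
        exact pow_le_pow_right₀ hc (by omega)
      have h4 := expl_step h0 h1 C i (fun j hj => hdisj j (by omega) (i + 1) hi (by omega)) hp0 hp
        (by positivity : 0 ≤ c ^ i) h3 hb0 (hb (i + 1) (by omega) hi)
      have h5 : Real.exp (-(b * p0 / 4 * c ^ i / 8)) ≤ Real.exp (-(c / 8)) := by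
        apply Real.exp_le_exp.mpr
        have : c ≤ c * c ^ i := le_mul_of_one_le_right hc0 (one_le_pow₀ hc)
        rw [← hcdef]
        linarith
      calc Pr p (fun ω : Sym2 α → Bool => ((expl C ω (i + 1)).card : ℝ) < c ^ (i + 1))
          ≤ Pr p (fun ω : Sym2 α → Bool => ((expl C ω i).card : ℝ) < c ^ i ∨
            (c ^ i ≤ ((expl C ω i).card : ℝ) ∧
              ((expl C ω (i + 1)).card : ℝ) < b * p0 / 4 * c ^ i)) := by
            refine Pr_mono h0 h1 fun ω hω => ?_
            by_cases h : ((expl C ω i).card : ℝ) < c ^ i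
            · exact Or.inl h
            · refine Or.inr ⟨not_lt.mp h, ?_⟩
              rw [← hcdef]
              rw [pow_succ, mul_comm] at hω
              exact hω
        _ ≤ _ := Pr_or_le h0 h1 _ _
        _ ≤ i * Real.exp (-(c / 8)) + Real.exp (-(c / 8)) := add_le_add h2 (h4.trans h5)
        _ = ((i + 1 : ℕ) : ℝ) * Real.exp (-(c / 8)) := by push_cast; ring
  have hM' := hgrow M le_rfl
  by_cases hcase : 2 ≤ M ∨ y ∉ C 0
  · have hlast := expl_last h0 h1 C M y hy hdisj hM hcase (K := c ^ M) hp0 hp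
    refine le_trans ?_ (add_le_add hM' hlast)
    refine le_trans (Pr_mono h0 h1 fun ω hω => ?_) (Pr_or_le h0 h1 _ _)
    by_cases h : ((expl C ω M).card : ℝ) < c ^ M
    · exact Or.inl h
    · refine Or.inr ⟨not_lt.mp h, fun u hu => ?_⟩
      by_contra hon
      apply hω
      refine Walk.snoc M x u y (expl_walk hC0 ω hdisj M le_rfl u hu) ⟨?_, ?_⟩
      · rintro rfl
        exact hy M hM le_rfl (expl_subset _ _ _ hu)
      · simpa using hon
  · push Not at hcase
    have hM1 : M = 1 := by omega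
    have hxy : y = x := by
      have := hcase.2
      rw [hC0, mem_singleton] at this
      exact this
    refine le_trans ?_ (le_add_of_nonneg_right (Real.exp_pos _).le)
    refine le_trans (Pr_mono h0 h1 fun ω hω => ?_) hM'
    by_contra h
    push Not at h
    have hpos : 0 < (expl C ω M).card := by
      have : (0 : ℝ) < ((expl C ω M).card : ℝ) := lt_of_lt_of_le (by positivity) h
      exact_mod_cast this
    obtain ⟨u, hu⟩ := card_pos.mp hpos
    have hw := expl_walk hC0 ω hdisj M le_rfl u hu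
    apply hω
    refine Walk.snoc M x u y hw ?_
    rw [hM1] at hw
    obtain ⟨d, hd, hdu⟩ := hw
    have hdu' : d = u := hdu
    rw [hdu'] at hd
    rw [hxy]
    exact hd.symm

end explore

end Pool.MP_65847d_pr
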