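import Pool.Agent.Lib.MP_65847d_pr.Upper

/-!
# The upper bound, asymptotic form
-/

set_option autoImplicit false

open Finset Filter Topology

namespace Pool.MP_65847d_pr

open Pool.MP_1bacea_co

/-- regions for the exploration in `Fin n` -/
def reg {n : ℕ} (m : ℕ) (x y : Fin n) : ℕ → Finset (Fin n)
  | 0 => {x}
  | i + 1 => univ.filter fun v => v.val % m = i + 1 ∧ v ≠ x ∧ v ≠ y

theorem reg_card {n m : ℕ} (x y : Fin n) {j : ℕ} (hj : 1 ≤ j) (hjm : j < m) :
    n / m ≤ (reg m x y j).card + 2 := by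
  obtain ⟨i, rfl⟩ : ∃ i, j = i + 1 := ⟨j - 1, by omega⟩
  have h1 : n / m ≤ ((univ : Finset (Fin n)).filter fun v => v.val % m = i + 1).card := by
    refine Finset.le_card_of_inj_on_range
      (fun a => if h : m * a + (i + 1) < n then (⟨m * a + (i + 1), h⟩ : Fin n) else x) ?_ ?_
    · intro a ha
      have hlt : m * a + (i + 1) < n := by
        have h2 : m * (a + 1) ≤ m * (n / m) := Nat.mul_le_mul_left _ ha
        have h3 : m * (n / m) ≤ n := Nat.mul_div_le n m
        have h4 : m * (a + 1) = m * a + m := by ring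
        omega
      rw [mem_filter]
      refine ⟨mem_univ _, ?_⟩
      rw [dif_pos hlt]
      show (m * a + (i + 1)) % m = i + 1
      rw [Nat.mul_add_mod]
      exact Nat.mod_eq_of_lt hjm
    · intro a ha b hb hab
      have hlt : ∀ a, a < n / m → m * a + (i + 1) < n := by
        intro a ha
        have h2 : m * (a + 1) ≤ m * (n / m) := Nat.mul_le_mul_left _ ha
        have h3 : m * (n / m) ≤ n := Nat.mul_div_le n m
        have h4 : m * (a + 1) = m * a + m := by ring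
        omega
      simp only [dif_pos (hlt a ha), dif_pos (hlt b hb), Fin.mk.injEq] at hab
      have h5 : m * a = m * b := by omega
      exact Nat.eq_of_mul_eq_mul_left (by omega) h5
  have h2 : ((univ : Finset (Fin n)).filter fun v => v.val % m = i + 1) ⊆
      reg m x y (i + 1) ∪ {x, y} := by
    intro v hv
    rw [mem_filter] at hv
    rw [mem_union]
    by_cases h : v = x ∨ v = y
    · right
      simpa using h
    · left
      push Not at h
      show v ∈ univ.filter _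
      rw [mem_filter]
      exact ⟨mem_univ _, hv.2, h.1, h.2⟩
  have h3 : ({x, y} : Finset (Fin n)).card ≤ 2 := card_le_two
  have h4 := (card_le_card h2).trans (card_union_le _ _)
  omega

theorem reg_disj {n m : ℕ} (x y : Fin n) (i j : ℕ) (hij : i ≠ j) :
    Disjoint (reg m x y i) (reg m x y j) := by
  rw [disjoint_left]
  intro v hv hv'
  rcases i with _ | i
  · rcases j with _ | j
    · exact hij rfl
    · have h1 : v ∈ ({x} : Finset (Fin n)) := hv
      have h2 : v ∈ univ.filter fun v : Fin n => v.val % m = j + 1 ∧ v ≠ x ∧ v ≠ y := hv'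
      rw [mem_singleton] at h1
      rw [mem_filter] at h2
      exact h2.2.2.1 h1
  · rcases j with _ | j
    · have h1 : v ∈ ({x} : Finset (Fin n)) := hv'
      have h2 : v ∈ univ.filter fun v : Fin n => v.val % m = i + 1 ∧ v ≠ x ∧ v ≠ y := hv
      rw [mem_singleton] at h1
      rw [mem_filter] at h2
      exact h2.2.2.1 h1
    · have h1 : v ∈ univ.filter fun v : Fin n => v.val % m = j + 1 ∧ v ≠ x ∧ v ≠ y := hv'
      have h2 : v ∈ univ.filter fun v : Fin n => v.val % m = i + 1 ∧ v ≠ x ∧ v ≠ y := hv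
      rw [mem_filter] at h1 h2
      omega

theorem reg_not_mem {n m : ℕ} (x y : Fin n) (j : ℕ) (hj : 1 ≤ j) : y ∉ reg m x y j := by
  obtain ⟨i, rfl⟩ : ∃ i, j = i + 1 := ⟨j - 1, by omega⟩
  intro h
  have h1 : y ∈ univ.filter fun v : Fin n => v.val % m = i + 1 ∧ v ≠ x ∧ v ≠ y := h
  rw [mem_filter] at h1
  exact h1.2.2.2 rfl

theorem Pr_some_no_walk {n m : ℕ} (hm : 2 ≤ m) (hn : 6 * m ≤ n) {p p0 : ℝ} (h0 : 0 ≤ p)
    (h1 : p ≤ 1) (hp0 : 0 ≤ p0) (hp : p0 ≤ p) (hc : 1 ≤ n * p0 / (8 * m))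
    (hcM : p0 * (n * p0 / (8 * m)) ^ (m - 2) ≤ 1) :
    Pr p (fun ω : Sym2 (Fin n) → Bool => ∃ x y, ¬ Walk (Gr ω).Adj m x y) ≤
      (n : ℝ) ^ 2 * (m * Real.exp (-(n * p0 / (8 * m) / 8)) +
        Real.exp (-(p0 * (n * p0 / (8 * m)) ^ (m - 1)))) := by
  classical
  have hm0 : (0 : ℝ) < m := by exact_mod_cast (by omega : 0 < m)
  set b : ℝ := n / (2 * m) with hb
  have hb0 : 0 ≤ b := by positivity
  have hbc : b * p0 / 4 = n * p0 / (8 * m) := by
    rw [hb]
    field_simp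
    ring
  have hbcard : ∀ x y : Fin n, ∀ j, 1 ≤ j → j ≤ m - 1 → b ≤ ((reg m x y j).card : ℝ) := by
    intro x y j hj hjm
    have h2 := reg_card x y hj (by omega : j < m)
    have h3 : (n : ℝ) / m - 1 ≤ ((n / m : ℕ) : ℝ) := by
      have h4 : (n : ℝ) < m * (((n / m : ℕ) : ℝ) + 1) := by
        exact_mod_cast Nat.lt_mul_div_succ n (by omega : 0 < m)
      rw [sub_le_iff_le_add, div_le_iff₀ hm0]
      linarith
    have h5 : ((n / m : ℕ) : ℝ) ≤ ((reg m x y j).card : ℝ) + 2 := by exact_mod_cast h2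
    have h6 : (3 : ℝ) ≤ n / (2 * m) := by
      rw [le_div_iff₀ (by positivity)]
      have : (6 : ℝ) * m ≤ n := by exact_mod_cast hn
      linarith
    have h7 : (n : ℝ) / m = n / (2 * m) + n / (2 * m) := by field_simp; norm_num
    rw [hb]
    linarith
  have hpair : ∀ x y : Fin n, Pr p (fun ω : Sym2 (Fin n) → Bool => ¬ Walk (Gr ω).Adj m x y) ≤
      m * Real.exp (-(n * p0 / (8 * m) / 8)) +
        Real.exp (-(p0 * (n * p0 / (8 * m)) ^ (m - 1))) := by
    intro x y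
    have h2 := Pr_no_walk h0 h1 (reg m x y) (m - 1) (by omega) x y rfl
      (fun j hj _ => reg_not_mem x y j hj) (fun i _ j _ hij => reg_disj x y i j hij) hp0 hp hb0
      (hbcard x y) (by rw [hbc]; exact hc) (by
        rw [hbc, show m - 1 - 1 = m - 2 by omega]
        exact hcM)
    rw [hbc, show m - 1 + 1 = m by omega] at h2
    refine h2.trans (add_le_add_left ?_ _)
    refine mul_le_mul_of_nonneg_right ?_ (Real.exp_pos _).le
    exact_mod_cast (by omega : m - 1 ≤ m)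
  calc Pr p (fun ω : Sym2 (Fin n) → Bool => ∃ x y, ¬ Walk (Gr ω).Adj m x y)
      ≤ Pr p (fun ω : Sym2 (Fin n) → Bool => ∃ q ∈ (univ : Finset (Fin n × Fin n)),
          ¬ Walk (Gr ω).Adj m q.1 q.2) := by
        refine Pr_mono h0 h1 fun ω hω => ?_
        obtain ⟨x, y, h⟩ := hω
        exact ⟨(x, y), mem_univ _, h⟩
    _ ≤ ∑ q ∈ (univ : Finset (Fin n × Fin n)), Pr p (fun ω : Sym2 (Fin n) → Bool =>
          ¬ Walk (Gr ω).Adj m q.1 q.2) := Pr_exists_le h0 h1 _ _
    _ ≤ ∑ _q ∈ (univ : Finset (Fin n × Fin n)), (m * Real.exp (-(n * p0 / (8 * m) / 8)) +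
        Real.exp (-(p0 * (n * p0 / (8 * m)) ^ (m - 1)))) := sum_le_sum fun q _ => hpair q.1 q.2
    _ = _ := by
        rw [sum_const, nsmul_eq_mul, card_univ, Fintype.card_prod, Fintype.card_fin]
        push_cast
        ring

theorem upper_asymp (m : ℕ) (hm : 2 ≤ m) :
    ∃ C : ℝ, 0 < C ∧ ∀ p : ℕ → ℝ, (∀ n, 0 ≤ p n) → (∀ n, p n ≤ 1) →
      (∀ᶠ n in atTop, C * qf m n ≤ p n) →
      Tendsto (fun n : ℕ => Pr (p n) (fun ω : Sym2 (Fin n) → Bool =>
        ∃ x y, ¬ Walk (Gr ω).Adj m x y)) atTop (𝓝 0) := by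
  have hm0 : (0 : ℝ) < m := by exact_mod_cast (by omega : 0 < m)
  have hm1r : (1 : ℝ) ≤ m := by exact_mod_cast (by omega : 1 ≤ m)
  refine ⟨24 * m, by positivity, fun p hp0 hp1 hp => ?_⟩
  have hlogr : ∀ r : ℝ, 0 < r →
      Tendsto (fun n : ℕ => Real.log (n : ℝ) / (n : ℝ) ^ r) atTop (𝓝 0) := by
    intro r hr
    have h1 := (isLittleO_log_rpow_atTop hr).tendsto_div_nhds_zero
    exact h1.comp tendsto_natCast_atTop_atTop
  have hlog : Tendsto (fun n : ℕ => Real.log (n : ℝ)) atTop atTop :=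
    Real.tendsto_log_atTop.comp tendsto_natCast_atTop_atTop
  have hbound : Tendsto (fun n : ℕ => ((m : ℝ) + 1) * (1 / (n : ℝ))) atTop (𝓝 0) := by
    have h1 := (tendsto_one_div_atTop_nhds_zero_nat (𝕜 := ℝ)).const_mul ((m : ℝ) + 1)
    simpa using h1
  refine squeeze_zero' (Eventually.of_forall fun n => Pr_nonneg (hp0 n) (hp1 n) _) ?_ hbound
  have e1 : ∀ᶠ n : ℕ in atTop, 6 * m ≤ n := eventually_ge_atTop _
  have e2 : ∀ᶠ n : ℕ in atTop, 1 ≤ Real.log (n : ℝ) := hlog.eventually_ge_atTop 1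
  have e3 : ∀ᶠ n : ℕ in atTop, Real.log (n : ℝ) / (n : ℝ) ^ (1 / m : ℝ) < 1 / 8 :=
    (hlogr (1 / m) (by positivity)).eventually_lt_const (by positivity)
  have e4 : ∀ᶠ n : ℕ in atTop, Real.log (n : ℝ) / (n : ℝ) ^ (1 / m : ℝ) <
      1 / (8 * m * 3 ^ (m - 1)) :=
    (hlogr (1 / m) (by positivity)).eventually_lt_const (by positivity)
  filter_upwards [hp, e1, e2, e3, e4] with n hpn hn6 hlog1 h8 h8m
  have hn0 : 0 < n := by omega
  have hnr : (0 : ℝ) < n := by exact_mod_cast hn0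
  have hnr1 : (1 : ℝ) ≤ n := by exact_mod_cast hn0
  set β : ℝ := ((n : ℝ) * Real.log n) ^ (1 / (m : ℝ)) with hβ
  have hβ0 : 0 ≤ β := Real.rpow_nonneg (by positivity) _
  have hβm : β ^ m = n * Real.log n := by
    rw [hβ, one_div]
    exact Real.rpow_inv_natCast_pow (by positivity) (by omega)
  have hβn : (n : ℝ) ^ (1 / m : ℝ) ≤ β := by
    rw [hβ]
    apply Real.rpow_le_rpow hnr.le _ (by positivity)
    nlinarith
  have hnm0 : 0 < (n : ℝ) ^ (1 / m : ℝ) := Real.rpow_pos_of_pos hnr _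
  have hβpos : 0 < β := lt_of_lt_of_le hnm0 hβn
  have hq : qf m n = β / n := rfl
  set p0 : ℝ := 24 * m * qf m n with hp0def
  have hp00 : 0 ≤ p0 := by rw [hp0def, hq]; positivity
  have hc : n * p0 / (8 * m) = 3 * β := by
    rw [hp0def, hq]
    field_simp
    norm_num
  have h8' : 8 * Real.log n ≤ β := by
    rw [div_lt_iff₀ hnm0] at h8
    linarith
  have h8m' : 8 * m * 3 ^ (m - 1) * Real.log n ≤ β := by
    rw [div_lt_iff₀ hnm0] at h8m
    have h2 : (0 : ℝ) < 8 * m * 3 ^ (m - 1) := by positivity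
    have h3 := mul_le_mul_of_nonneg_left h8m.le h2.le
    have h4 : 8 * m * 3 ^ (m - 1) * (1 / (8 * m * 3 ^ (m - 1)) * (n : ℝ) ^ (1 / m : ℝ)) =
        (n : ℝ) ^ (1 / m : ℝ) := by field_simp
    rw [h4] at h3
    linarith
  have hkey : p0 * (3 * β) ^ (m - 1) = 24 * m * 3 ^ (m - 1) * Real.log n := by
    have h2 : β ^ m = β ^ (m - 1) * β := by rw [← pow_succ]; congr 1; omega
    rw [hp0def, hq, mul_pow]
    have h3 : 24 * m * (β / n) * (3 ^ (m - 1) * β ^ (m - 1)) =
        24 * m * 3 ^ (m - 1) * (β ^ (m - 1) * β) / n := by ring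
    rw [h3, ← h2, hβm]
    field_simp
  have hmain := Pr_some_no_walk (n := n) hm hn6 (hp0 n) (hp1 n) hp00 hpn
    (by rw [hc]; nlinarith) (by
      rw [hc]
      have h2 : (3 * β) ^ (m - 1) = (3 * β) ^ (m - 2) * (3 * β) := by
        rw [← pow_succ]; congr 1; omega
      rw [h2, ← mul_assoc] at hkey
      by_contra hcon
      push Not at hcon
      have h3 : 3 * β < p0 * (3 * β) ^ (m - 2) * (3 * β) :=
        lt_mul_of_one_lt_left (by positivity) hcon
      rw [hkey] at h3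
      nlinarith)
  refine hmain.trans ?_
  rw [hc, hkey]
  have h3 : Real.exp (-(3 * Real.log n)) = 1 / (n : ℝ) ^ 3 := by
    rw [Real.exp_neg, show (3 : ℝ) * Real.log n = Real.log n + Real.log n + Real.log n by ring,
      Real.exp_add, Real.exp_add, Real.exp_log hnr]
    field_simp
  have h4 : Real.exp (-(3 * β / 8)) ≤ 1 / (n : ℝ) ^ 3 := by
    rw [← h3]
    apply Real.exp_le_exp.mpr
    linarith
  have h5 : Real.exp (-(24 * m * 3 ^ (m - 1) * Real.log n)) ≤ 1 / (n : ℝ) ^ 3 := by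
    rw [← h3]
    apply Real.exp_le_exp.mpr
    have h6 : (1 : ℝ) ≤ 3 ^ (m - 1) := one_le_pow₀ (by norm_num)
    have h7 : (1 : ℝ) ≤ m * 3 ^ (m - 1) := one_le_mul_of_one_le_of_one_le hm1r h6
    nlinarith
  calc (n : ℝ) ^ 2 * (m * Real.exp (-(3 * β / 8)) +
        Real.exp (-(24 * m * 3 ^ (m - 1) * Real.log n)))
      ≤ (n : ℝ) ^ 2 * (m * (1 / (n : ℝ) ^ 3) + 1 / (n : ℝ) ^ 3) := by
        gcongr
    _ = ((m : ℝ) + 1) * (1 / (n : ℝ)) := by
        field_simp

end Pool.MP_65847d_pr
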